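import Mathlib

/-!
# Elementary inequalities
-/

set_option autoImplicit false

namespace Pool.Agent.H37.CG

open Real

lemma cos_le_exp {x : ℝ} (hx : |x| ≤ π / 2) : cos x ≤ exp (-(x ^ 2) / 2) := by
  wlog h0 : 0 ≤ x with H
  · have := H (x := -x) (by rwa [abs_neg]) (by linarith [not_le.1 h0])
    rwa [cos_neg, neg_sq] at this
  rw [abs_of_nonneg h0] at hx
  set f : ℝ → ℝ := fun y => cos y * exp (y ^ 2 / 2) with hf
  have hd : ∀ y, HasDerivAt f ((y * cos y - sin y) * exp (y ^ 2 / 2)) y := by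
    intro y
    have h1 : HasDerivAt (fun y : ℝ => y ^ 2 / 2) y y := by
      have := (hasDerivAt_pow 2 y).div_const 2
      refine this.congr_deriv ?_
      norm_num
    refine ((hasDerivAt_cos y).mul h1.exp).congr_deriv ?_
    ring
  have hanti : AntitoneOn f (Set.Icc 0 (π / 2)) := by
    apply antitoneOn_of_deriv_nonpos (convex_Icc _ _)
    · exact fun y _ => (hd y).continuousAt.continuousWithinAt
    · exact fun y _ => (hd y).differentiableAt.differentiableWithinAt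
    · intro y hy
      rw [interior_Icc] at hy
      rw [(hd y).deriv]
      have hc : 0 < cos y := cos_pos_of_mem_Ioo ⟨by linarith [hy.1, pi_pos], hy.2⟩
      have h2 : y ≤ tan y := (lt_tan hy.1 hy.2).le
      rw [tan_eq_sin_div_cos, le_div_iff₀ hc] at h2
      exact mul_nonpos_of_nonpos_of_nonneg (by linarith) (exp_pos _).le
  have h := hanti ⟨le_rfl, by positivity⟩ ⟨h0, hx⟩ h0
  simp only [hf] at h
  rw [cos_zero, zero_pow two_ne_zero, zero_div, exp_zero, one_mul] at h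
  have e : exp (-(x ^ 2) / 2) = (exp (x ^ 2 / 2))⁻¹ := by
    rw [← exp_neg]
    congr 1
    ring
  rw [e, ← one_div, le_div_iff₀ (exp_pos _)]
  exact h

lemma exp_neg_le {y : ℝ} (hy : 0 ≤ y) : exp (-y) ≤ 1 - y + y ^ 2 / 2 := by
  have h1 := quadratic_le_exp_of_nonneg hy
  have h2 : 0 < 1 + y + y ^ 2 / 2 := by positivity
  rw [exp_neg]
  have h3 : (exp y)⁻¹ ≤ (1 + y + y ^ 2 / 2)⁻¹ := inv_anti₀ h2 h1
  refine h3.trans ?_
  rw [inv_eq_one_div, div_le_iff₀ h2]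
  nlinarith [sq_nonneg (y ^ 2)]

/-- the bound for the density of the volume -/
lemma dens_le {d : ℕ} (hd : 1 ≤ d) {x y : ℝ} (hx : |x| ≤ π / 2) (hy : 0 ≤ y) :
    cos x ^ d * √(cos x ^ 2 + y) ≤
      1 - (d + 1) / 2 * x ^ 2 + (d + 1) ^ 2 / 8 * (x ^ 2) ^ 2 + y / 2 := by
  have hb := abs_le.1 hx
  have hc : 0 ≤ cos x := cos_nonneg_of_mem_Icc ⟨hb.1, hb.2⟩
  have hc1 : cos x ≤ 1 := cos_le_one x
  have h1 : cos x ^ d * √(cos x ^ 2 + y) ≤ cos x ^ (d + 1) + y / 2 := by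
    apply le_of_sq_le_sq _ (by positivity)
    rw [mul_pow, sq_sqrt (by positivity)]
    have h2 : cos x ^ (2 * d) ≤ cos x ^ (d + 1) := pow_le_pow_of_le_one hc hc1 (by omega)
    have e1 : (cos x ^ d) ^ 2 * (cos x ^ 2 + y) =
        (cos x ^ (d + 1)) ^ 2 + cos x ^ (2 * d) * y := by ring
    rw [e1]
    have h3 : cos x ^ (2 * d) * y ≤ cos x ^ (d + 1) * y := mul_le_mul_of_nonneg_right h2 hy
    nlinarith [sq_nonneg y]
  have h4 : cos x ^ (d + 1) ≤ exp (-((d + 1) / 2 * x ^ 2)) := by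
    have h5 := pow_le_pow_left₀ hc (cos_le_exp hx) (d + 1)
    refine h5.trans (le_of_eq ?_)
    rw [← exp_nat_mul]
    congr 1
    push_cast
    ring
  have h6 := exp_neg_le (y := (d + 1) / 2 * x ^ 2) (by positivity)
  have e2 : 1 - (d + 1) / 2 * x ^ 2 + ((d + 1) / 2 * x ^ 2) ^ 2 / 2 =
      1 - (d + 1) / 2 * x ^ 2 + (d + 1) ^ 2 / 8 * (x ^ 2) ^ 2 := by ring
  rw [e2] at h6
  linarith

lemma quad_nonneg (d : ℕ) (x y : ℝ) (hy : 0 ≤ y) :
    0 ≤ 1 - (d + 1) / 2 * x ^ 2 + (d + 1) ^ 2 / 8 * (x ^ 2) ^ 2 + y / 2 := by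
  have h : 1 - (d + 1) / 2 * x ^ 2 + (d + 1) ^ 2 / 8 * (x ^ 2) ^ 2 =
      (1 - (d + 1) / 4 * x ^ 2) ^ 2 + ((d + 1) / 4 * x ^ 2) ^ 2 := by ring
  rw [h]
  positivity

/-- the optimal parameter -/
lemma opt {a b δ : ℝ} (hb : 0 ≤ b) (hδ : 0 ≤ δ) (h : ∀ t : ℝ, 0 < t → a * t ≤ δ + b * t ^ 2) :
    a ≤ 2 * √(δ * b) := by
  rcases le_or_gt a 0 with ha | ha
  · exact ha.trans (by positivity)
  · rcases eq_or_lt_of_le hb with hb0 | hb0
    · exfalso
      have h1 := h ((δ + 1) / a) (by positivity)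
      rw [← hb0, zero_mul, add_zero, mul_div_cancel₀ _ ha.ne'] at h1
      linarith
    · have h1 := h (a / (2 * b)) (by positivity)
      have h2 : a ^ 2 ≤ 4 * (δ * b) := by
        have e1 : a * (a / (2 * b)) = a ^ 2 / (2 * b) := by ring
        have e2 : b * (a / (2 * b)) ^ 2 = a ^ 2 / (4 * b) := by
          field_simp
          ring
        rw [e1, e2] at h1
        have h3 : a ^ 2 / (2 * b) - a ^ 2 / (4 * b) = a ^ 2 / (4 * b) := by
          field_simp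
          ring
        have h4 : a ^ 2 / (4 * b) ≤ δ := by linarith
        rw [div_le_iff₀ (by positivity)] at h4
        linarith
      have h5 : a ≤ √(4 * (δ * b)) := le_sqrt_of_sq_le h2
      refine h5.trans (le_of_eq ?_)
      rw [sqrt_mul (by norm_num), show (4 : ℝ) = 2 ^ 2 by norm_num, sqrt_sq (by norm_num)]

end Pool.Agent.H37.CG
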