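import Pool.Agent.H37.CG.Collar2

/-!
# Lower bounds for fillings of the boundaries of balls, from the library
-/

set_option autoImplicit false

open MeasureTheory Metric Set Filter Topology Matrix InnerProductGeometry

namespace Pool.Agent.H37.CG

open Pool.Agent.H241R3.FV
open Pool.Agent.Results.MP_aeade1_gt.CompleteFillings (NoCollarRetraction hemisphere cst)

variable {d : ℕ}

/-- the radii of the small balls -/
def SmallRad (d : ℕ) (ρ : ℝ) : Prop :=
  0 < ρ ∧ ρ < Real.pi / 2 ∧
    ((9 * d + 13) * Real.sin ρ ^ 2 ≤ d + 5 ∨ (d = 1 ∧ 3 * Real.sin ρ ^ 2 ≤ 1))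

/-- small balls are minimal fillings -/
theorem capBound_small (hd : 1 ≤ d) {ρ : ℝ} (hρ : SmallRad d ρ) :
    CapBound d ρ (ENNReal.ofReal (1 * (sphVol d * Ar d ρ))) := by
  intro M _ _ S hS hT
  rw [one_mul]
  have hcu : CompactSpace (univ : Set M) := isCompact_iff_compactSpace.1 isCompact_univ
  have := S.countable
  have h := Pool.Agent.K7.H34.FV.cap_main hd hρ.1 hρ.2.1 hρ.2.2 (N := (univ : Set M))
    (fun x => ⟨S.bd x, mem_univ _⟩) (by
      rcases hT with hT | hR
      · left
        intro ε hε
        obtain ⟨T⟩ := hT ε hε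
        exact ⟨{ V := T.V
                 fin := T.fin
                 dec := T.dec
                 pos := fun v => ⟨T.pos v, mem_univ _⟩
                 T := T.T
                 card_T := T.card_T
                 mesh := T.mesh
                 B := T.B
                 B_sub := T.B_sub
                 face := T.face
                 b := T.b
                 b_spec := fun F hF v hv => Subtype.ext (T.b_spec F hF v hv)
                 tile := T.tile }⟩
      · right
        rintro ⟨f, hf, hfb⟩
        exact hR ⟨fun q => f ⟨q, mem_univ _⟩,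
          hf.comp (continuous_id.subtype_mk fun q => mem_univ _), hfb⟩)
    (by
      intro y z
      refine le_trans (le_of_eq ?_) (hS y z)
      unfold Pool.Agent.K7.H34.FV.capd
      congr 1
      have := Real.sin_sq_add_cos_sq ρ
      linear_combination -this)
    S.chart (by
      rintro ⟨q, -⟩
      rcases S.cover q with ⟨x, hx⟩ | ⟨i, c, hc, hcq⟩
      · exact Or.inl ⟨x, Subtype.ext hx⟩
      · exact Or.inr ⟨i, c, hc, hcq⟩)
  exact h

/-- the volume of the hemisphere -/
theorem hemisphere_eq (d : ℕ) :
    hemisphere d = ENNReal.ofReal (sphVol d * Ar d (Real.pi / 2)) :=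
  Pool.Agent.K7.H34.FV.sphere_total d

theorem Ac_eq (d : ℕ) : Ac d = Ar d (Real.pi / 2) := by
  unfold Ac Ar
  have h := intervalIntegral.integral_comp_sub_left (a := 0) (b := Real.pi / 2)
    (fun x => Real.sin x ^ d) (Real.pi / 2)
  rw [sub_zero, sub_self] at h
  simp only [Real.sin_pi_div_two_sub] at h
  exact h

/-- the constants of the library -/
theorem capBound_cst (hd : 1 ≤ d) :
    CapBound d (Real.pi / 2) (ENNReal.ofReal (cst d * (sphVol d * Ar d (Real.pi / 2)))) := by
  intro M _ _ S hS hT
  have hc : 0 ≤ cst d := by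
    unfold cst
    split <;> norm_num
  rw [ENNReal.ofReal_mul hc, ← hemisphere_eq]
  refine lowerBound_cst hd M S ?_ hT
  intro x y
  have h := hS x y
  rw [Real.cos_pi_div_two, Real.sin_pi_div_two, zero_pow two_ne_zero, one_pow, one_mul,
    zero_add] at h
  refine le_trans (le_of_eq ?_) h
  unfold angle
  rw [norm_sph, norm_sph, mul_one, div_one]

end Pool.Agent.H37.CG
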