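import Mathlib

/-!
# Rank one perturbations of positive definite matrices
-/

set_option autoImplicit false

open Matrix

namespace Pool.Agent.H37.CG

variable {n : ℕ}

/-- the matrix `c² G + D Dᵀ` -/
def rk (c : ℝ) (G : Matrix (Fin n) (Fin n) ℝ) (D : Fin n → ℝ) : Matrix (Fin n) (Fin n) ℝ :=
  fun i j => c ^ 2 * G i j + D i * D j

lemma rk_eq (c : ℝ) (G : Matrix (Fin n) (Fin n) ℝ) (D : Fin n → ℝ) :
    rk c G D = c ^ 2 • G + vecMulVec D D := by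
  ext i j
  simp [rk, vecMulVec_apply]

lemma rk_posDef {c : ℝ} (hc : c ≠ 0) {G : Matrix (Fin n) (Fin n) ℝ} (hG : G.PosDef)
    (D : Fin n → ℝ) : (rk c G D).PosDef := by
  rw [rk_eq]
  have h1 : (c ^ 2 • G).PosDef := hG.smul (by positivity)
  have h2 : (vecMulVec D D).PosSemidef := by
    simpa using posSemidef_vecMulVec_self_star D
  exact h1.add_posSemidef h2

lemma rk_det {c : ℝ} (hc : c ≠ 0) {G : Matrix (Fin (n + 1)) (Fin (n + 1)) ℝ} (hG : G.PosDef)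
    (D : Fin (n + 1) → ℝ) :
    (rk c G D).det = c ^ (2 * n) * (c ^ 2 + D ⬝ᵥ (G⁻¹ *ᵥ D)) * G.det := by
  rw [rk_eq]
  have hu : IsUnit G.det := (ne_of_gt hG.det_pos).isUnit
  have hc2 : c ^ 2 ≠ 0 := pow_ne_zero 2 hc
  have hu2 : IsUnit (c ^ 2 • G).det := by
    rw [det_smul]
    exact (mul_ne_zero (pow_ne_zero _ hc2) (ne_of_gt hG.det_pos)).isUnit
  have h1 : vecMulVec D D = replicateCol Unit D * replicateRow Unit D := vecMulVec_eq Unit D D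
  rw [h1, det_add_replicateCol_mul_replicateRow hu2]
  have h2 : (c ^ 2 • G)⁻¹ = (c ^ 2)⁻¹ • G⁻¹ := by
    apply Matrix.inv_eq_right_inv
    rw [Matrix.smul_mul, Matrix.mul_smul, smul_smul, mul_inv_cancel₀ hc2, one_smul,
      Matrix.mul_nonsing_inv G hu]
  have h3 : (1 + replicateRow Unit D * (c ^ 2 • G)⁻¹ * replicateCol Unit D).det =
      1 + (c ^ 2)⁻¹ * (D ⬝ᵥ (G⁻¹ *ᵥ D)) := by
    rw [h2, det_unique, Matrix.mul_assoc, Matrix.smul_mul, Matrix.mul_smul]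
    simp only [Matrix.add_apply, Matrix.smul_apply, smul_eq_mul, Matrix.one_apply_eq]
    congr 2
  rw [h3, det_smul, Fintype.card_fin]
  field_simp
  ring

/-- the Cauchy-Schwarz inequality for the gradient -/
lemma grad_le {G : Matrix (Fin n) (Fin n) ℝ} (hG : G.PosDef) (D : Fin n → ℝ) {L : ℝ}
    (hL : 0 ≤ L) (h : ∀ v : Fin n → ℝ, (D ⬝ᵥ v) ^ 2 ≤ L * (v ⬝ᵥ (G *ᵥ v))) : D ⬝ᵥ (G⁻¹ *ᵥ D) ≤ L := by
  have hu : IsUnit G.det := (ne_of_gt hG.det_pos).isUnit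
  have h1 := h (G⁻¹ *ᵥ D)
  have h2 : G *ᵥ (G⁻¹ *ᵥ D) = D := by
    rw [mulVec_mulVec, Matrix.mul_nonsing_inv G hu, one_mulVec]
  rw [h2, dotProduct_comm (G⁻¹ *ᵥ D) D] at h1
  have h3 : 0 ≤ D ⬝ᵥ (G⁻¹ *ᵥ D) := by
    have := hG.inv.posSemidef.dotProduct_mulVec_nonneg D
    simpa using this
  rcases eq_or_lt_of_le h3 with h4 | h4
  · rw [← h4]
    exact hL
  · by_contra h6
    rw [not_le] at h6
    nlinarith

lemma grad_nonneg {G : Matrix (Fin n) (Fin n) ℝ} (hG : G.PosDef) (D : Fin n → ℝ) :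
    0 ≤ D ⬝ᵥ (G⁻¹ *ᵥ D) := by
  have := hG.inv.posSemidef.dotProduct_mulVec_nonneg D
  simpa using this

end Pool.Agent.H37.CG
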