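import Pool.Graph.R_seed8.TH599.SU.Trig

/-!
# The graph of a function in the spherical suspension over a metric space
-/

set_option autoImplicit false

open Real Set Filter Topology Metric

namespace Pool.Agent.H37.CG

open Pool.Agent.TH599.SU

/-- a continuous function with values in `[-π/2, π/2]` -/
structure Ht (M : Type) [MetricSpace M] : Type where
  /-- the function -/
  f : M → ℝ
  cont : Continuous f
  bdd : ∀ q, |f q| ≤ π / 2

variable {M : Type} [MetricSpace M]

/-- the points of the graph -/
def Pre (_θ : Ht M) : Type := M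

lemma colat_mem (θ : Ht M) (q : M) : π / 2 - θ.f q ∈ Icc 0 π := by
  have h := abs_le.1 (θ.bdd q)
  constructor <;> linarith [h.1, h.2]

/-- the distance of the graph -/
noncomputable def gd (θ : Ht M) (p q : M) : ℝ :=
  sd (π / 2 - θ.f p) (π / 2 - θ.f q) (min (dist p q) π)

lemma gd_self (θ : Ht M) (p : M) : gd θ p p = 0 := by
  unfold gd
  rw [dist_self, min_eq_left pi_pos.le, sd_self]

lemma gd_comm (θ : Ht M) (p q : M) : gd θ p q = gd θ q p := by
  unfold gd
  rw [dist_comm, sd_comm]

lemma gd_tri (θ : Ht M) (p q r : M) : gd θ p r ≤ gd θ p q + gd θ q r := by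
  unfold gd
  have h : dist p r ≤ dist p q + dist q r := dist_triangle p q r
  refine sd_tri (colat_mem θ p) (colat_mem θ q) (colat_mem θ r)
    (le_min dist_nonneg pi_pos.le) (min_le_right _ _) (min_le_right _ _)
    (le_min dist_nonneg pi_pos.le) (min_le_right _ _) ?_
  rcases le_total (dist p q) π with h1 | h1
  · rcases le_total (dist q r) π with h2 | h2
    · rw [min_eq_left h1, min_eq_left h2]
      exact (min_le_left _ _).trans h
    · rw [min_eq_right h2]
      have h3 : 0 ≤ min (dist p q) π := le_min dist_nonneg pi_pos.le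
      have h4 : min (dist p r) π ≤ π := min_le_right _ _
      linarith
  · rw [min_eq_right h1]
    have h3 : 0 ≤ min (dist q r) π := le_min dist_nonneg pi_pos.le
    have h4 : min (dist p r) π ≤ π := min_le_right _ _
    linarith

noncomputable instance (θ : Ht M) : PseudoMetricSpace (Pre θ) where
  dist := fun p q => gd (M := M) θ p q
  dist_self := fun p => gd_self (M := M) θ p
  dist_comm := fun p q => gd_comm (M := M) θ p q
  dist_triangle := fun p q r => gd_tri (M := M) θ p q r

/-- the graph, with the points over the poles identified -/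
abbrev Gr (θ : Ht M) : Type := SeparationQuotient (Pre θ)

/-- the point of the graph over `p` -/
noncomputable def mk (θ : Ht M) (p : M) : Gr θ := SeparationQuotient.mk (X := Pre θ) p

lemma dist_mk (θ : Ht M) (p q : M) : dist (mk θ p) (mk θ q) =
    sd (π / 2 - θ.f p) (π / 2 - θ.f q) (min (dist p q) π) :=
  SeparationQuotient.dist_mk (α := Pre θ) p q

lemma mk_surj (θ : Ht M) (z : Gr θ) : ∃ p : M, mk θ p = z :=
  SeparationQuotient.surjective_mk z

lemma mk_top (θ : Ht M) {p q : M} (hp : θ.f p = π / 2) (hq : θ.f q = π / 2) :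
    mk θ p = mk θ q := by
  rw [← dist_eq_zero, dist_mk, hp, hq, sub_self, sd_pole_zero]

lemma mk_bot (θ : Ht M) {p q : M} (hp : θ.f p = -(π / 2)) (hq : θ.f q = -(π / 2)) :
    mk θ p = mk θ q := by
  rw [← dist_eq_zero, dist_mk, hp, hq]
  have e : π / 2 - -(π / 2) = π := by ring
  rw [e, sd_pole_pi]

lemma continuous_mk (θ : Ht M) : Continuous (mk θ) := by
  rw [continuous_iff_continuousAt]
  intro p
  rw [ContinuousAt, tendsto_iff_dist_tendsto_zero]
  have h1 : Continuous fun q : M => dist (mk θ q) (mk θ p) := by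
    have e : (fun q : M => dist (mk θ q) (mk θ p)) =
        fun q => sd (π / 2 - θ.f q) (π / 2 - θ.f p) (min (dist q p) π) := by
      funext q
      exact dist_mk θ q p
    rw [e]
    have hc := θ.cont
    unfold sd
    fun_prop
  have h2 := h1.tendsto p
  rwa [dist_self] at h2

/-- compactness of the graph -/
lemma compact_gr (θ : Ht M) {K : Set M} (hK : IsCompact K) (hθ : ∀ q, q ∉ K → θ.f q = π / 2) :
    CompactSpace (Gr θ) := by
  constructor
  have h1 : IsCompact (mk θ '' K) := hK.image (continuous_mk θ)
  have h2 : (mk θ '' Kᶜ).Subsingleton := by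
    rintro _ ⟨p, hp, rfl⟩ _ ⟨q, hq, rfl⟩
    exact mk_top θ (hθ p hp) (hθ q hq)
  have h3 : IsCompact (mk θ '' Kᶜ) := h2.finite.isCompact
  have h4 : (univ : Set (Gr θ)) = mk θ '' K ∪ mk θ '' Kᶜ := by
    rw [← image_union, union_compl_self, image_univ]
    symm
    rw [range_eq_univ]
    exact fun z => mk_surj θ z
  rw [h4]
  exact h1.union h3

end Pool.Agent.H37.CG
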