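import Pool.Agent.H37.CG.Len
import Pool.Agent.H37.CG.Space
import Pool.Agent.H37.CG.Lin
import Pool.Graph.R_seed8.W716.FV.Asm1

/-!
# The charts of the graph of a function
-/

set_option autoImplicit false

open MeasureTheory Metric Set Filter Topology Matrix

namespace Pool.Agent.H37.CG

open Pool.Agent.H241R3.FV Pool.Agent.TH599.SU

variable {M : Type} [MetricSpace M] {n : ℕ}

/-- the partial derivatives of the function `f` in a chart -/
noncomputable def dvec (C : RChart n M) (f : M → ℝ) (p : E n) : Fin n → ℝ :=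
  fun j => fderiv ℝ (fun z => f (C.map z)) p (EuclideanSpace.single j 1)

/-- the square of the norm of the gradient of the function `f` in a chart -/
noncomputable def gradSq (C : RChart n M) (f : M → ℝ) (p : E n) : ℝ :=
  dvec C f p ⬝ᵥ ((C.G p)⁻¹ *ᵥ dvec C f p)

/-- the part of the domain of a chart where `|f| < r` -/
def part (C : RChart n M) (f : M → ℝ) (r : ℝ) : Set (E n) := {p | p ∈ C.U ∧ |f (C.map p)| < r}

lemma isOpen_part (C : RChart n M) {f : M → ℝ} (hf : Continuous f) (r : ℝ) :
    IsOpen (part C f r) := by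
  have h1 : IsOpen (C.U ∩ C.map ⁻¹' {q | |f q| < r}) :=
    (Pool.Agent.W716.FV.Asm.map_contOn C).isOpen_inter_preimage C.isOpen_U
      (isOpen_lt hf.abs continuous_const)
  exact h1

lemma fderiv_eq (L : E n →L[ℝ] ℝ) (v : E n) :
    L v = ∑ j, L (EuclideanSpace.single j 1) * v j := by
  have h : v = ∑ j, v j • (EuclideanSpace.single j (1 : ℝ) : E n) := by
    ext i
    simp [Finset.sum_apply, Pi.single_apply]
  conv_lhs => rw [h]
  rw [map_sum]
  refine Finset.sum_congr rfl fun j _ => ?_
  rw [map_smul, smul_eq_mul, mul_comm]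

lemma gnorm_sq {G : Matrix (Fin n) (Fin n) ℝ} (hG : G.PosDef) (v : E n) :
    gnorm G v ^ 2 = ∑ i, ∑ j, v i * G i j * v j := by
  unfold gnorm
  apply Real.sq_sqrt
  have h := hG.posSemidef.dotProduct_mulVec_nonneg (fun i => v i)
  simp only [star_trivial, dotProduct, mulVec, Finset.mul_sum] at h
  refine h.trans (le_of_eq ?_)
  refine Finset.sum_congr rfl fun i _ => Finset.sum_congr rfl fun j _ => ?_
  ring

lemma gnorm_rk {c : ℝ} {G : Matrix (Fin n) (Fin n) ℝ} (hG : G.PosDef)
    (L : E n →L[ℝ] ℝ) (v : E n) :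
    gnorm (rk c G fun j => L (EuclideanSpace.single j 1)) v =
      √(L v ^ 2 + c ^ 2 * gnorm G v ^ 2) := by
  rw [gnorm_sq hG, fderiv_eq L v]
  unfold gnorm
  congr 1
  rw [sq (∑ j, L (EuclideanSpace.single j 1) * v j), Finset.sum_mul_sum, Finset.mul_sum,
    ← Finset.sum_add_distrib]
  refine Finset.sum_congr rfl fun i _ => ?_
  rw [Finset.mul_sum, ← Finset.sum_add_distrib]
  refine Finset.sum_congr rfl fun j _ => ?_
  unfold rk
  ring

/-- the metric tensor of the graph -/
noncomputable def GT (θ : Ht M) (C : RChart n M) (p : E n) : Matrix (Fin n) (Fin n) ℝ :=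
  rk (Real.cos (θ.f (C.map p))) (C.G p) (dvec C θ.f p)

lemma cos_pos_part (θ : Ht M) (C : RChart n M) {p : E n} (hp : p ∈ part C θ.f (Real.pi / 2)) :
    0 < Real.cos (θ.f (C.map p)) := by
  have h := abs_lt.1 hp.2
  exact Real.cos_pos_of_mem_Ioo ⟨h.1, h.2⟩

lemma seg_unit {U : Set (E n)} {x y : E n} (h : segment ℝ x y ⊆ U) {t : ℝ}
    (ht : t ∈ Icc (0:ℝ) 1) : x + t • (y - x) ∈ U := by
  apply h
  rw [segment_eq_image']
  exact ⟨t, ht, rfl⟩

/-- a continuously differentiable function in a chart, where its values are less than `r` -/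
def C1On (C : RChart n M) (f : M → ℝ) (r : ℝ) : Prop :=
  ContDiffOn ℝ 1 (fun z => f (C.map z)) (part C f r)

lemma C1On.contFderiv {C : RChart n M} {f : M → ℝ} {r : ℝ} (h : C1On C f r)
    (hf : Continuous f) : ContinuousOn (fderiv ℝ fun z => f (C.map z)) (part C f r) :=
  ContDiffOn.continuousOn_fderiv_of_isOpen h (isOpen_part C hf r) le_rfl

lemma C1On.diff {C : RChart n M} {f : M → ℝ} {r : ℝ} (h : C1On C f r)
    (hf : Continuous f) {p : E n} (hp : p ∈ part C f r) :
    HasFDerivAt (fun z => f (C.map z)) (fderiv ℝ (fun z => f (C.map z)) p) p :=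
  ((ContDiffOn.differentiableOn h one_ne_zero).differentiableAt
    ((isOpen_part C hf r).mem_nhds hp)).hasFDerivAt

/-- the chart of the graph -/
noncomputable def grChart (θ : Ht M) (C : RChart n M) (h1 : C1On C θ.f (Real.pi / 2)) :
    RChart n (Gr θ) where
  U := part C θ.f (Real.pi / 2)
  isOpen_U := isOpen_part C θ.cont _
  D := C.D ∩ part C θ.f (Real.pi / 2)
  meas_D := C.meas_D.inter (isOpen_part C θ.cont _).measurableSet
  D_sub := inter_subset_right
  map := fun p => mk θ (C.map p)
  G := GT θ C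
  cont_G := by
    have hG : ContinuousOn C.G (part C θ.f (Real.pi / 2)) := C.cont_G.mono fun p hp => hp.1
    have hm : ContinuousOn (fun p => θ.f (C.map p)) (part C θ.f (Real.pi / 2)) :=
      θ.cont.comp_continuousOn
        ((Pool.Agent.W716.FV.Asm.map_contOn C).mono fun p hp => hp.1)
    have hd := h1.contFderiv θ.cont
    refine continuousOn_pi.2 fun i => continuousOn_pi.2 fun j => ?_
    have hGij : ContinuousOn (fun p => C.G p i j) (part C θ.f (Real.pi / 2)) :=
      (continuous_apply_apply (ρ := fun _ _ => ℝ) i j).comp_continuousOn hG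
    have hdj : ∀ j, ContinuousOn (fun p => dvec C θ.f p j) (part C θ.f (Real.pi / 2)) :=
      fun j => hd.clm_apply continuousOn_const
    exact (((Real.continuous_cos.comp_continuousOn hm).pow 2).mul hGij).add
      ((hdj i).mul (hdj j))
  pos_G := fun p hp => rk_posDef (cos_pos_part θ C hp).ne' (C.pos_G p hp.1) _
  dist_le := fun x y hxy => by
    rw [dist_mk]
    set v := y - x with hv
    have hin : ∀ t ∈ Icc (0:ℝ) 1, x + t • v ∈ part C θ.f (Real.pi / 2) := fun t ht =>
      seg_unit hxy ht
    have hline : Continuous fun t : ℝ => x + t • v := by fun_prop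
    have hlin : ContinuousOn (fun t : ℝ => x + t • v) (Icc 0 1) := hline.continuousOn
    have hd := h1.contFderiv θ.cont
    have hG : ContinuousOn C.G (part C θ.f (Real.pi / 2)) := C.cont_G.mono fun p hp => hp.1
    have hk : ContinuousOn (fun t : ℝ => -(fderiv ℝ (fun z => θ.f (C.map z)) (x + t • v) v))
        (Icc 0 1) :=
      ((hd.comp hlin hin).clm_apply continuousOn_const).neg
    have hh : ∀ t ∈ Icc (0:ℝ) 1, HasDerivAt (fun t : ℝ => Real.pi / 2 - θ.f (C.map (x + t • v)))
        (-(fderiv ℝ (fun z => θ.f (C.map z)) (x + t • v) v)) t := by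
      intro t ht
      have h2 : HasDerivAt (fun t : ℝ => x + t • v) v t := by
        have h3 := ((hasDerivAt_id t).smul_const v).const_add x
        simpa using h3
      have h4 := (h1.diff θ.cont (hin t ht)).comp_hasDerivAt t h2
      exact h4.const_sub (Real.pi / 2)
    have hρ : ContinuousOn (fun t : ℝ => gnorm (C.G (x + t • v)) v) (Icc 0 1) := by
      have h2 : ContinuousOn (fun t : ℝ => C.G (x + t • v)) (Icc 0 1) := hG.comp hlin hin
      unfold gnorm
      apply ContinuousOn.sqrt
      refine continuousOn_finsetSum _ fun i _ => continuousOn_finsetSum _ fun j _ => ?_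
      refine (continuousOn_const.mul ?_).mul continuousOn_const
      exact (continuous_apply_apply (ρ := fun _ _ => ℝ) i j).comp_continuousOn h2
    have hU : segment ℝ x y ⊆ C.U := fun z hz => (hxy hz).1
    have h5 := len_seg _ _ _ hk hh hρ (min (dist (C.map x) (C.map y)) Real.pi)
      (le_min dist_nonneg Real.pi_pos.le) ((min_le_left _ _).trans (C.dist_le x y hU))
    simp only [zero_smul, add_zero, one_smul] at h5
    have e1 : x + v = y := by rw [hv]; abel
    rw [e1] at h5
    refine h5.trans (le_of_eq ?_)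
    apply intervalIntegral.integral_congr
    intro t ht
    rw [uIcc_of_le zero_le_one] at ht
    have h6 : Real.sin (Real.pi / 2 - θ.f (C.map (x + t • v))) =
        Real.cos (θ.f (C.map (x + t • v))) := Real.sin_pi_div_two_sub _
    simp only [h6, neg_sq]
    unfold GT dvec
    rw [gnorm_rk (C.pos_G _ (hin t ht).1)]

end Pool.Agent.H37.CG
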