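import Mathlib

/-!
# The profile of the cone graph over a collar
-/

set_option autoImplicit false

open Set Filter Topology MeasureTheory

namespace Pool.Agent.H37.CG

/-- the inverse of the slope of the profile -/
noncomputable def wt (d : ℕ) (W t : ℝ) : ℝ :=
  |Real.cos t| ^ d / √(W ^ 2 - (Real.cos t ^ 2) ^ (d + 1))

/-- the width which is needed to reach the height `t` -/
noncomputable def Pf (d : ℕ) (W t : ℝ) : ℝ := ∫ x in (0:ℝ)..t, wt d W x

variable {d : ℕ} {W : ℝ}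

lemma cosp_le (t : ℝ) : (Real.cos t ^ 2) ^ (d + 1) ≤ 1 :=
  pow_le_one₀ (sq_nonneg _) (Real.cos_sq_le_one t)

lemma cosp_nonneg (t : ℝ) : 0 ≤ (Real.cos t ^ 2) ^ (d + 1) := by positivity

lemma rad_pos (hW : 1 < W) (t : ℝ) : 0 < W ^ 2 - (Real.cos t ^ 2) ^ (d + 1) := by
  have := cosp_le (d := d) t
  nlinarith

lemma wt_cont (hW : 1 < W) : Continuous (wt d W) := by
  unfold wt
  refine Continuous.div (by fun_prop) (by fun_prop) fun t => ?_
  exact (Real.sqrt_pos.2 (rad_pos hW t)).ne'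

lemma wt_nonneg (t : ℝ) : 0 ≤ wt d W t := by
  unfold wt
  positivity

lemma wt_pos (hW : 1 < W) {t : ℝ} (ht : Real.cos t ≠ 0) : 0 < wt d W t := by
  unfold wt
  have := Real.sqrt_pos.2 (rad_pos (d := d) hW t)
  positivity

lemma wt_neg (t : ℝ) : wt d W (-t) = wt d W t := by
  unfold wt
  rw [Real.cos_neg]

lemma wt_per : Function.Periodic (wt d W) Real.pi := by
  intro t
  unfold wt
  rw [Real.cos_add_pi, abs_neg, neg_sq]

lemma Pf_deriv (hW : 1 < W) (t : ℝ) : HasDerivAt (Pf d W) (wt d W t) t :=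
  intervalIntegral.integral_hasDerivAt_right ((wt_cont hW).intervalIntegrable _ _)
    ((wt_cont hW).stronglyMeasurableAtFilter _ _) (wt_cont hW).continuousAt

lemma Pf_zero : Pf d W 0 = 0 := intervalIntegral.integral_same

lemma Pf_neg (t : ℝ) : Pf d W (-t) = -Pf d W t := by
  unfold Pf
  have h := intervalIntegral.integral_comp_neg (a := 0) (b := -t) (fun x => wt d W x)
  simp only [wt_neg, neg_neg, neg_zero] at h
  rw [h, intervalIntegral.integral_symm]

lemma Pf_strictMono (hW : 1 < W) : StrictMono (Pf d W) := by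
  intro a b hab
  have e : Pf d W b - Pf d W a = ∫ x in a..b, wt d W x := by
    unfold Pf
    exact intervalIntegral.integral_interval_sub_left ((wt_cont hW).intervalIntegrable _ _)
      ((wt_cont hW).intervalIntegrable _ _)
  have h : 0 < ∫ x in a..b, wt d W x := by
    refine intervalIntegral.integral_pos hab (wt_cont hW).continuousOn
      (fun x _ => wt_nonneg x) ?_
    by_cases ha : Real.cos a = 0
    · set c := a + min (b - a) 1 with hc
      have h1 : 0 < min (b - a) 1 := lt_min (by linarith) one_pos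
      have h2 : min (b - a) 1 ≤ 1 := min_le_right _ _
      have h3 : min (b - a) 1 ≤ b - a := min_le_left _ _
      refine ⟨c, ⟨by linarith, by linarith⟩, wt_pos hW ?_⟩
      rw [hc, Real.cos_add, ha, zero_mul, zero_sub]
      have h4 : 0 < Real.sin (min (b - a) 1) :=
        Real.sin_pos_of_pos_of_lt_pi h1 (by linarith [Real.pi_gt_three])
      have h5 : Real.sin a ≠ 0 := by
        intro h
        have := Real.sin_sq_add_cos_sq a
        rw [h, ha] at this
        norm_num at this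
      exact neg_ne_zero.2 (mul_ne_zero h5 h4.ne')
    · exact ⟨a, ⟨le_rfl, hab.le⟩, wt_pos hW ha⟩
  linarith

lemma Pf_cont (hW : 1 < W) : Continuous (Pf d W) :=
  continuous_iff_continuousAt.2 fun t => (Pf_deriv hW t).continuousAt

lemma Pf_surj (hW : 1 < W) : Function.Surjective (Pf d W) := by
  have h0 : 0 < ∫ x in (0:ℝ)..Real.pi, wt d W x := by
    have := Pf_strictMono (d := d) hW Real.pi_pos
    rwa [Pf_zero] at this
  exact (Pf_cont hW).surjective
    (wt_per.tendsto_atTop_intervalIntegral_of_pos h0 Real.pi_pos)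
    (wt_per.tendsto_atBot_intervalIntegral_of_pos h0 Real.pi_pos)

/-- the inverse function -/
noncomputable def Qe (d : ℕ) (hW : 1 < W) : ℝ ≃o ℝ :=
  (Pf_strictMono (d := d) hW).orderIsoOfSurjective (Pf d W) (Pf_surj hW)

/-- the profile -/
noncomputable def Qf (d : ℕ) (hW : 1 < W) (y : ℝ) : ℝ := (Qe d hW).symm y

lemma Pf_Qf (hW : 1 < W) (y : ℝ) : Pf d W (Qf d hW y) = y := (Qe d hW).apply_symm_apply y

lemma Qf_Pf (hW : 1 < W) (t : ℝ) : Qf d hW (Pf d W t) = t := (Qe d hW).symm_apply_apply t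

lemma Qf_cont (hW : 1 < W) : Continuous (Qf d hW) := (Qe d hW).symm.continuous

lemma Qf_zero (hW : 1 < W) : Qf d hW 0 = 0 := by
  have h := Qf_Pf (d := d) hW 0
  rwa [Pf_zero] at h

/-- the width of the collar -/
noncomputable def wid (d : ℕ) (W : ℝ) : ℝ := Pf d W (Real.pi / 2)

lemma Qf_lt (hW : 1 < W) {y : ℝ} : |Qf d hW y| < Real.pi / 2 ↔ |y| < wid d W := by
  have hm := Pf_strictMono (d := d) hW
  rw [abs_lt, abs_lt]
  constructor
  · rintro ⟨h1, h2⟩
    have h3 := hm h1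
    have h4 := hm h2
    rw [Pf_Qf] at h3 h4
    rw [Pf_neg] at h3
    exact ⟨h3, h4⟩
  · rintro ⟨h1, h2⟩
    constructor
    · apply hm.lt_iff_lt.1
      rw [Pf_neg, Pf_Qf]
      exact h1
    · apply hm.lt_iff_lt.1
      rw [Pf_Qf]
      exact h2

lemma cos_Qf_pos (hW : 1 < W) {y : ℝ} (hy : |y| < wid d W) : 0 < Real.cos (Qf d hW y) := by
  have h := abs_lt.1 ((Qf_lt hW).2 hy)
  exact Real.cos_pos_of_mem_Ioo ⟨h.1, h.2⟩

lemma Pf_contDiff (hW : 1 < W) : ContDiff ℝ 1 (Pf d W) := by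
  rw [contDiff_one_iff_deriv]
  refine ⟨fun t => (Pf_deriv hW t).differentiableAt, ?_⟩
  have e : deriv (Pf d W) = wt d W := by
    funext t
    exact (Pf_deriv hW t).deriv
  rw [e]
  exact wt_cont hW

lemma Qf_contDiffAt (hW : 1 < W) {y : ℝ} (hy : |y| < wid d W) : ContDiffAt ℝ 1 (Qf d hW) y := by
  have hc := cos_Qf_pos hW hy
  exact (Qe d hW).toHomeomorph.toOpenPartialHomeomorph.contDiffAt_symm_deriv (a := y)
    (wt_pos hW hc.ne').ne' (mem_univ y) (Pf_deriv hW _) (Pf_contDiff hW).contDiffAt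

lemma Qf_deriv (hW : 1 < W) {y : ℝ} (hy : |y| < wid d W) :
    HasDerivAt (Qf d hW) (wt d W (Qf d hW y))⁻¹ y := by
  have hc := cos_Qf_pos hW hy
  exact HasDerivAt.of_local_left_inverse (Qf_cont hW).continuousAt (Pf_deriv hW _)
    (wt_pos hW hc.ne').ne' (Eventually.of_forall fun z => Pf_Qf hW z)

/-- the bound for the density -/
lemma prof_le (hW : 1 < W) {y g : ℝ} (hy : |y| < wid d W) (hg0 : 0 ≤ g) (hg : g ≤ 1) :
    Real.cos (Qf d hW y) ^ d * √(Real.cos (Qf d hW y) ^ 2 +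
      ((wt d W (Qf d hW y))⁻¹) ^ 2 * g) ≤ W := by
  have hc := cos_Qf_pos hW hy
  set c := Real.cos (Qf d hW y) with hcd
  have hr : 0 < W ^ 2 - (c ^ 2) ^ (d + 1) := rad_pos hW _
  have e1 : ((wt d W (Qf d hW y))⁻¹) ^ 2 = (W ^ 2 - (c ^ 2) ^ (d + 1)) / (c ^ d) ^ 2 := by
    unfold wt
    rw [← hcd, abs_of_pos hc, inv_div, div_pow, Real.sq_sqrt hr.le]
  rw [e1]
  apply le_of_sq_le_sq _ (by linarith)
  have h0 : 0 ≤ (W ^ 2 - (c ^ 2) ^ (d + 1)) / (c ^ d) ^ 2 := by positivity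
  rw [mul_pow, Real.sq_sqrt (by positivity)]
  have e2 : (c ^ d) ^ 2 * (c ^ 2 + (W ^ 2 - (c ^ 2) ^ (d + 1)) / (c ^ d) ^ 2 * g) =
      (c ^ 2) ^ (d + 1) + (W ^ 2 - (c ^ 2) ^ (d + 1)) * g := by
    field_simp
    ring
  rw [e2]
  nlinarith

/-- the simple estimate of the width -/
lemma wid_le (hW : 1 < W) : wid d W ≤ (∫ t in (0:ℝ)..(Real.pi / 2), Real.cos t ^ d) /
    √(W ^ 2 - 1) := by
  have h1 : 0 < W ^ 2 - 1 := by nlinarith
  have h2 : 0 < √(W ^ 2 - 1) := Real.sqrt_pos.2 h1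
  have hπ := Real.pi_pos
  unfold wid Pf
  rw [← intervalIntegral.integral_div]
  apply intervalIntegral.integral_mono_on (by positivity)
    ((wt_cont hW).intervalIntegrable _ _)
    ((by fun_prop : Continuous fun t : ℝ => Real.cos t ^ d / √(W ^ 2 - 1)).intervalIntegrable _ _)
  intro t ht
  unfold wt
  have hc : 0 ≤ Real.cos t := Real.cos_nonneg_of_mem_Icc ⟨by linarith [ht.1], ht.2⟩
  rw [abs_of_nonneg hc]
  apply div_le_div_of_nonneg_left (by positivity) h2
  apply Real.sqrt_le_sqrt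
  have := cosp_le (d := d) t
  linarith

end Pool.Agent.H37.CG
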