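import Pool.Agent.H37.CG.L2
import Pool.Agent.H37.CG.Profile

/-!
# The volume of collars
-/

set_option autoImplicit false

open MeasureTheory Metric Set Filter Topology Matrix InnerProductGeometry

namespace Pool.Agent.H37.CG

open Pool.Agent.H241R3.FV
open Pool.Agent.Results.MP_aeade1_gt.CompleteFillings (NoCollarRetraction hemisphere cst)

variable {M : Type} [MetricSpace M] {d : ℕ}

/-- `s` is a continuous function on the filling which is `0` on the boundary, and where `|s| < ρ` it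
is continuously differentiable in the charts with a gradient of norm at most one. -/
structure CollarFun (S : Fill d M) (s : M → ℝ) (ρ : ℝ) : Prop where
  cont : Continuous s
  zero : ∀ x, s (S.bd x) = 0
  smooth : ∀ i, ContDiffOn ℝ 1 (fun p => s ((S.chart i).map p)) (part (S.chart i) s ρ)
  grad : ∀ i, ∀ p ∈ part (S.chart i) s ρ, ∀ v : E (d + 1),
    |fderiv ℝ (fun z => s ((S.chart i).map z)) p v| ≤ gnorm ((S.chart i).G p) v

/-- The volume of a subset of the collar of width `π/2` which is given in the charts. -/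
noncomputable def nVol (S : Fill d M) (A : (i : S.ι) → Set (E (d + 1))) : ENNReal :=
  ∑' i, ∫⁻ p in nearD S i ∩ A i, ENNReal.ofReal √((S.chart i).G p).det

/-- the set of the zeros of `s` where the differential of `s` is zero, too -/
def flat (S : Fill d M) (s : M → ℝ) (i : S.ι) : Set (E (d + 1)) :=
  {p | s ((S.chart i).map p) = 0 ∧ fderiv ℝ (fun z => s ((S.chart i).map z)) p = 0}

/-- the set of all points with `|s| < ρ` which are not in `flat` -/
def band (S : Fill d M) (s : M → ℝ) (ρ : ℝ) (i : S.ι) : Set (E (d + 1)) :=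
  {p | |s ((S.chart i).map p)| < ρ} \ flat S s i

lemma CollarFun.mono {S : Fill d M} {s : M → ℝ} {ρ ρ' : ℝ} (h : CollarFun S s ρ)
    (hρ : ρ' ≤ ρ) : CollarFun S s ρ' where
  cont := h.cont
  zero := h.zero
  smooth := fun i => (h.smooth i).mono fun _ hp => ⟨hp.1, hp.2.trans_le hρ⟩
  grad := fun i p hp => h.grad i p ⟨hp.1, hp.2.trans_le hρ⟩

lemma dot_gnorm {G : Matrix (Fin (d + 1)) (Fin (d + 1)) ℝ} (hG : G.PosDef)
    (L : E (d + 1) →L[ℝ] ℝ) (h : ∀ v, |L v| ≤ gnorm G v) :
    (fun j => L (EuclideanSpace.single j 1)) ⬝ᵥ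
      (G⁻¹ *ᵥ fun j => L (EuclideanSpace.single j 1)) ≤ 1 := by
  apply grad_le hG _ zero_le_one
  intro v
  have h1 := h (WithLp.toLp 2 v)
  have h2 : L (WithLp.toLp 2 v) = (fun j => L (EuclideanSpace.single j 1)) ⬝ᵥ v := by
    rw [fderiv_eq L]
    rfl
  have h3 : gnorm G (WithLp.toLp 2 v) ^ 2 = v ⬝ᵥ (G *ᵥ v) := by
    rw [gnorm_sq hG]
    simp only [dotProduct, mulVec, Finset.mul_sum, mul_assoc]
  rw [one_mul, ← h2, ← h3]
  have h4 : 0 ≤ gnorm G (WithLp.toLp 2 v) := Real.sqrt_nonneg _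
  exact (sq_le_sq₀ (abs_nonneg _) h4).2 h1 |>.trans' (by rw [sq_abs])

lemma gradSq_le_one {S : Fill d M} {s : M → ℝ} {ρ : ℝ} (h : CollarFun S s ρ) {i : S.ι}
    {p : E (d + 1)} (hp : p ∈ part (S.chart i) s ρ) : gradSq (S.chart i) s p ≤ 1 :=
  dot_gnorm ((S.chart i).pos_G p hp.1) _ (h.grad i p hp)

/-- the chain rule for the norm of the gradient -/
lemma gradSq_comp (C : RChart (d + 1) M) {s : M → ℝ} {Q : ℝ → ℝ} {Q' : ℝ} {p : E (d + 1)}
    (h1 : HasFDerivAt (fun z => s (C.map z)) (fderiv ℝ (fun z => s (C.map z)) p) p)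
    (h2 : HasDerivAt Q Q' (s (C.map p))) :
    gradSq C (fun q => Q (s q)) p = Q' ^ 2 * gradSq C s p := by
  have h3 : dvec C (fun q => Q (s q)) p = Q' • dvec C s p := by
    funext j
    unfold dvec
    have h4 : HasFDerivAt (fun z => Q (s (C.map z))) (Q' • fderiv ℝ (fun z => s (C.map z)) p) p :=
      h2.comp_hasFDerivAt p h1
    rw [h4.fderiv]
    simp
  unfold gradSq
  rw [h3, Matrix.mulVec_smul, dotProduct_smul, smul_dotProduct, smul_eq_mul, smul_eq_mul]
  ring

lemma meas_flat {S : Fill d M} {s : M → ℝ} {ρ : ℝ} (h : CollarFun S s ρ) (i : S.ι) :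
    MeasurableSet (part (S.chart i) s ρ ∩ flat S s i) := by
  have ho := isOpen_part (S.chart i) h.cont ρ
  have hc1 : ContinuousOn (fun p => s ((S.chart i).map p)) (part (S.chart i) s ρ) :=
    (comp_cont (S.chart i) h.cont).mono fun p hp => hp.1
  have hc2 : ContinuousOn (fderiv ℝ fun z => s ((S.chart i).map z)) (part (S.chart i) s ρ) :=
    C1On.contFderiv (h.smooth i) h.cont
  have h3 : IsOpen (part (S.chart i) s ρ ∩
      (fun p => (s ((S.chart i).map p), fderiv ℝ (fun z => s ((S.chart i).map z)) p)) ⁻¹'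
        {((0 : ℝ), (0 : E (d + 1) →L[ℝ] ℝ))}ᶜ) :=
    (hc1.prodMk hc2).isOpen_inter_preimage ho isOpen_compl_singleton
  have e : part (S.chart i) s ρ ∩ flat S s i = part (S.chart i) s ρ \
      (part (S.chart i) s ρ ∩
      (fun p => (s ((S.chart i).map p), fderiv ℝ (fun z => s ((S.chart i).map z)) p)) ⁻¹'
        {((0 : ℝ), (0 : E (d + 1) →L[ℝ] ℝ))}ᶜ) := by
    ext p
    constructor
    · rintro ⟨hp, h4, h5⟩
      refine ⟨hp, fun h6 => h6.2 ?_⟩
      rw [mem_singleton_iff, Prod.mk.injEq]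
      exact ⟨h4, h5⟩
    · rintro ⟨hp, h4⟩
      refine ⟨hp, ?_⟩
      by_contra h5
      apply h4
      refine ⟨hp, fun h6 => h5 ?_⟩
      rw [mem_singleton_iff, Prod.mk.injEq] at h6
      exact h6
  rw [e]
  exact ho.measurableSet.diff h3.measurableSet

/-- The inequality for collars. -/
theorem collar {C : ENNReal} (hC : LowerBound d C) (S : Fill d M) (hS : S.NonShort)
    (ht : Top S) {W : ℝ} (hW : 1 < W) {s : M → ℝ} (hs : CollarFun S s (wid d W)) :
    C ≤ nVol S (flat S s) + ENNReal.ofReal W * nVol S (band S s (wid d W)) := by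
  have hpart : ∀ i, part (S.chart i) (fun q => Qf d hW (s q)) (Real.pi / 2) =
      part (S.chart i) s (wid d W) := by
    intro i
    ext p
    constructor
    · rintro ⟨h1, h2⟩
      exact ⟨h1, (Qf_lt hW).1 h2⟩
    · rintro ⟨h1, h2⟩
      exact ⟨h1, (Qf_lt hW).2 h2⟩
  have hcont : Continuous fun q => Qf d hW (s q) := (Qf_cont hW).comp hs.cont
  have hc1 : ∀ i, C1On (S.chart i) (fun q => Qf d hW (s q)) (Real.pi / 2) := by
    intro i
    unfold C1On
    rw [hpart]
    intro p hp
    have h1 : ContDiffAt ℝ 1 (fun p => s ((S.chart i).map p)) p :=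
      (hs.smooth i).contDiffAt ((isOpen_part (S.chart i) hs.cont _).mem_nhds hp)
    exact ((Qf_contDiffAt hW hp.2).comp p h1).contDiffWithinAt
  have hm := masterC hC S hS ht hcont hc1 (fun x => by
    simp only [hs.zero]
    exact Qf_zero hW)
  refine hm.trans ?_
  unfold grVolN nVol
  rw [← ENNReal.tsum_mul_left, ← ENNReal.tsum_add]
  refine ENNReal.tsum_le_tsum fun i => ?_
  rw [hpart]
  have ho := isOpen_part (S.chart i) hs.cont (wid d W)
  have hdiff : ∀ p ∈ part (S.chart i) s (wid d W), HasFDerivAt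
      (fun z => s ((S.chart i).map z)) (fderiv ℝ (fun z => s ((S.chart i).map z)) p) p :=
    fun p hp => C1On.diff (hs.smooth i) hs.cont hp
  rw [← lintegral_inter_add_sdiff _ _ (meas_flat hs i)]
  refine add_le_add ?_ ?_
  · -- the flat part
    have hsub : nearD S i ∩ part (S.chart i) s (wid d W) ∩
        (part (S.chart i) s (wid d W) ∩ flat S s i) ⊆ nearD S i ∩ flat S s i :=
      fun p hp => ⟨hp.1.1, hp.2.2⟩
    refine le_trans ?_ (lintegral_mono_set hsub)
    refine setLIntegral_mono' (((meas_nearD S i).inter ho.measurableSet).inter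
      (meas_flat hs i)) ?_
    intro p hp
    apply ENNReal.ofReal_le_ofReal
    have hp1 := hp.2.1
    have hz : s ((S.chart i).map p) = 0 := hp.2.2.1
    have hf : fderiv ℝ (fun z => s ((S.chart i).map z)) p = 0 := hp.2.2.2
    have hg : gradSq (S.chart i) s p = 0 := by
      have h3 : dvec (S.chart i) s p = 0 := by
        funext j
        unfold dvec
        rw [hf]
        simp
      unfold gradSq
      rw [h3]
      simp
    have e : (fun q => Qf d hW (s q)) ((S.chart i).map p) = 0 := by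
      simp only [hz]
      exact Qf_zero hW
    unfold dens
    rw [e, gradSq_comp (S.chart i) (hdiff p hp1) (Qf_deriv hW hp1.2), hg]
    simp
  · -- the band
    rw [← lintegral_const_mul' _ _ ENNReal.ofReal_ne_top]
    have hsub : (nearD S i ∩ part (S.chart i) s (wid d W)) \
        (part (S.chart i) s (wid d W) ∩ flat S s i) ⊆ nearD S i ∩ band S s (wid d W) i := by
      rintro p ⟨⟨h1, h2⟩, h3⟩
      exact ⟨h1, h2.2, fun h4 => h3 ⟨h2, h4⟩⟩
    refine le_trans ?_ (lintegral_mono_set hsub)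
    refine setLIntegral_mono' (((meas_nearD S i).inter ho.measurableSet).diff
      (meas_flat hs i)) ?_
    intro p hp
    have hp1 := hp.1.2
    rw [← ENNReal.ofReal_mul (by linarith)]
    apply ENNReal.ofReal_le_ofReal
    unfold dens
    apply mul_le_mul_of_nonneg_right _ (Real.sqrt_nonneg _)
    rw [gradSq_comp (S.chart i) (hdiff p hp1) (Qf_deriv hW hp1.2)]
    exact prof_le hW hp1.2 (gradSq_nonneg (S.chart i) s hp1.1) (gradSq_le_one hs hp1)

/-- the number `∫ cos^d` over `[0, π/2]`, which is `vol(S^(d+1)) / (2 vol(S^d))` -/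
noncomputable def Ac (d : ℕ) : ℝ := ∫ t in (0:ℝ)..(Real.pi / 2), Real.cos t ^ d

lemma Ac_pos (d : ℕ) : 0 < Ac d := by
  unfold Ac
  apply intervalIntegral.intervalIntegral_pos_of_pos_on
  · exact (by fun_prop : Continuous fun t : ℝ => Real.cos t ^ d).intervalIntegrable _ _
  · intro t ht
    exact pow_pos (Real.cos_pos_of_mem_Ioo ⟨by linarith [ht.1, Real.pi_pos], ht.2⟩) _
  · positivity

/-- the constant for the width `ρ` -/
noncomputable def Wc (d : ℕ) (ρ : ℝ) : ℝ := √(1 + (Ac d / ρ) ^ 2)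

lemma one_lt_Wc {ρ : ℝ} (hρ : 0 < ρ) : 1 < Wc d ρ := by
  unfold Wc
  have := Ac_pos d
  rw [Real.lt_sqrt zero_le_one]
  have h : 0 < (Ac d / ρ) ^ 2 := by positivity
  linarith

lemma wid_Wc {ρ : ℝ} (hρ : 0 < ρ) : wid d (Wc d ρ) ≤ ρ := by
  refine (wid_le (one_lt_Wc hρ)).trans ?_
  have hA := Ac_pos d
  have e : √(Wc d ρ ^ 2 - 1) = Ac d / ρ := by
    unfold Wc
    rw [Real.sq_sqrt (by positivity), add_sub_cancel_left, Real.sqrt_sq (by positivity)]
  rw [e]
  change Ac d / (Ac d / ρ) ≤ ρ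
  rw [div_div_cancel₀ hA.ne']

/-- The inequality for collars of all widths. -/
theorem collar' {C : ENNReal} (hC : LowerBound d C) (S : Fill d M) (hS : S.NonShort)
    (ht : Top S) {W ρ : ℝ} (hW : 1 < W) (hρ : wid d W ≤ ρ) {s : M → ℝ}
    (hs : CollarFun S s ρ) :
    C ≤ nVol S (flat S s) + ENNReal.ofReal W * nVol S (band S s ρ) := by
  refine (collar hC S hS ht hW (hs.mono hρ)).trans ?_
  gcongr
  unfold nVol
  refine ENNReal.tsum_le_tsum fun i => ?_
  apply lintegral_mono_set
  rintro p ⟨h1, h2, h3⟩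
  refine ⟨h1, ?_, h3⟩
  have h4 : |s ((S.chart i).map p)| < wid d W := h2
  exact h4.trans_le hρ

end Pool.Agent.H37.CG
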