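import Mathlib

/-!
# The profile of the cone graph over a collar, with a positive height of the boundary
-/

set_option autoImplicit false

open Set Filter Topology MeasureTheory

namespace Pool.Agent.H37.CG

/-- the inverse of the slope of the profile -/
noncomputable def wr (d : ℕ) (ρ W t : ℝ) : ℝ :=
  |Real.cos t| ^ d / √(W ^ 2 - (min (Real.cos t ^ 2) (Real.sin ρ ^ 2)) ^ (d + 1))

/-- the width which is needed to reach the height `t`, from the height `0` -/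
noncomputable def Pr0 (d : ℕ) (ρ W t : ℝ) : ℝ := ∫ x in (0:ℝ)..t, wr d ρ W x

/-- the width which is needed to reach the height `t`, from the height `π/2 - ρ` -/
noncomputable def Pr (d : ℕ) (ρ W t : ℝ) : ℝ := Pr0 d ρ W t - Pr0 d ρ W (Real.pi / 2 - ρ)

/-- The hypothesis on the parameters. -/
structure Par (d : ℕ) (ρ W : ℝ) : Prop where
  pos : 0 < ρ
  le : ρ ≤ Real.pi / 2
  lt : Real.sin ρ ^ (d + 1) < W

variable {d : ℕ} {ρ W : ℝ}

lemma Par.sin_pos (h : Par d ρ W) : 0 < Real.sin ρ :=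
  Real.sin_pos_of_pos_of_lt_pi h.pos (by linarith [h.le, Real.pi_pos])

lemma Par.W_pos (h : Par d ρ W) : 0 < W := lt_trans (pow_pos h.sin_pos _) h.lt

lemma mp_le (t : ℝ) : (min (Real.cos t ^ 2) (Real.sin ρ ^ 2)) ^ (d + 1) ≤
    (Real.sin ρ ^ (d + 1)) ^ 2 := by
  rw [← pow_mul, mul_comm (d + 1) 2, pow_mul]
  exact pow_le_pow_left₀ (le_min (sq_nonneg _) (sq_nonneg _)) (min_le_right _ _) _

lemma radr_pos (h : Par d ρ W) (t : ℝ) :
    0 < W ^ 2 - (min (Real.cos t ^ 2) (Real.sin ρ ^ 2)) ^ (d + 1) := by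
  have h1 := mp_le (d := d) (ρ := ρ) t
  have h2 : (Real.sin ρ ^ (d + 1)) ^ 2 < W ^ 2 :=
    pow_lt_pow_left₀ h.lt (pow_nonneg h.sin_pos.le _) two_ne_zero
  linarith

lemma wr_cont (h : Par d ρ W) : Continuous (wr d ρ W) := by
  unfold wr
  refine Continuous.div (by fun_prop) (by fun_prop) fun t => ?_
  exact (Real.sqrt_pos.2 (radr_pos h t)).ne'

lemma wr_nonneg (t : ℝ) : 0 ≤ wr d ρ W t := by
  unfold wr
  positivity

lemma wr_pos (h : Par d ρ W) {t : ℝ} (ht : Real.cos t ≠ 0) : 0 < wr d ρ W t := by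
  unfold wr
  have := Real.sqrt_pos.2 (radr_pos h t)
  positivity

lemma wr_per : Function.Periodic (wr d ρ W) Real.pi := by
  intro t
  unfold wr
  rw [Real.cos_add_pi, abs_neg, neg_sq]

lemma Pr0_deriv (h : Par d ρ W) (t : ℝ) : HasDerivAt (Pr0 d ρ W) (wr d ρ W t) t :=
  intervalIntegral.integral_hasDerivAt_right ((wr_cont h).intervalIntegrable _ _)
    ((wr_cont h).stronglyMeasurableAtFilter _ _) (wr_cont h).continuousAt

lemma Pr_deriv (h : Par d ρ W) (t : ℝ) : HasDerivAt (Pr d ρ W) (wr d ρ W t) t :=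
  (Pr0_deriv h t).sub_const _

lemma Pr_strictMono (h : Par d ρ W) : StrictMono (Pr d ρ W) := by
  intro a b hab
  have e : Pr d ρ W b - Pr d ρ W a = ∫ x in a..b, wr d ρ W x := by
    have e1 : Pr0 d ρ W b - Pr0 d ρ W a = ∫ x in a..b, wr d ρ W x :=
      intervalIntegral.integral_interval_sub_left ((wr_cont h).intervalIntegrable _ _)
        ((wr_cont h).intervalIntegrable _ _)
    unfold Pr
    linarith
  have h2 : 0 < ∫ x in a..b, wr d ρ W x := by
    refine intervalIntegral.integral_pos hab (wr_cont h).continuousOn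
      (fun x _ => wr_nonneg x) ?_
    by_cases ha : Real.cos a = 0
    · set c := a + min (b - a) 1 with hc
      have h1 : 0 < min (b - a) 1 := lt_min (by linarith) one_pos
      have h2 : min (b - a) 1 ≤ 1 := min_le_right _ _
      have h3 : min (b - a) 1 ≤ b - a := min_le_left _ _
      refine ⟨c, ⟨by linarith, by linarith⟩, wr_pos h ?_⟩
      rw [hc, Real.cos_add, ha, zero_mul, zero_sub]
      have h4 : 0 < Real.sin (min (b - a) 1) :=
        Real.sin_pos_of_pos_of_lt_pi h1 (by linarith [Real.pi_gt_three])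
      have h5 : Real.sin a ≠ 0 := by
        intro h
        have := Real.sin_sq_add_cos_sq a
        rw [h, ha] at this
        norm_num at this
      exact neg_ne_zero.2 (mul_ne_zero h5 h4.ne')
    · exact ⟨a, ⟨le_rfl, hab.le⟩, wr_pos h ha⟩
  linarith

lemma Pr_cont (h : Par d ρ W) : Continuous (Pr d ρ W) :=
  continuous_iff_continuousAt.2 fun t => (Pr_deriv h t).continuousAt

lemma Pr_surj (h : Par d ρ W) : Function.Surjective (Pr d ρ W) := by
  have h0 : 0 < ∫ x in (0:ℝ)..Real.pi, wr d ρ W x := by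
    have h1 := Pr_strictMono h Real.pi_pos
    unfold Pr Pr0 at h1
    rw [intervalIntegral.integral_same] at h1
    linarith
  have h1 : Function.Surjective (Pr0 d ρ W) :=
    (continuous_iff_continuousAt.2 fun t => (Pr0_deriv h t).continuousAt :
      Continuous (Pr0 d ρ W)).surjective
      (wr_per.tendsto_atTop_intervalIntegral_of_pos h0 Real.pi_pos)
      (wr_per.tendsto_atBot_intervalIntegral_of_pos h0 Real.pi_pos)
  intro y
  obtain ⟨t, ht⟩ := h1 (y + Pr0 d ρ W (Real.pi / 2 - ρ))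
  refine ⟨t, ?_⟩
  unfold Pr
  rw [ht]
  ring

/-- the inverse function -/
noncomputable def Qre (h : Par d ρ W) : ℝ ≃o ℝ :=
  (Pr_strictMono h).orderIsoOfSurjective (Pr d ρ W) (Pr_surj h)

/-- the profile -/
noncomputable def Qr (h : Par d ρ W) (y : ℝ) : ℝ := (Qre h).symm y

lemma Pr_Qr (h : Par d ρ W) (y : ℝ) : Pr d ρ W (Qr h y) = y := (Qre h).apply_symm_apply y

lemma Qr_Pr (h : Par d ρ W) (t : ℝ) : Qr h (Pr d ρ W t) = t := (Qre h).symm_apply_apply t

lemma Qr_mono (h : Par d ρ W) : StrictMono (Qr h) := (Qre h).symm.strictMono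

lemma Qr_cont (h : Par d ρ W) : Continuous (Qr h) := (Qre h).symm.continuous

lemma Qr_zero (h : Par d ρ W) : Qr h 0 = Real.pi / 2 - ρ := by
  have h1 := Qr_Pr h (Real.pi / 2 - ρ)
  unfold Pr at h1
  rwa [sub_self] at h1

/-- the width of the collar -/
noncomputable def wid2 (d : ℕ) (ρ W : ℝ) : ℝ := Pr d ρ W (Real.pi / 2)

lemma Qr_lt (h : Par d ρ W) {y : ℝ} (hy : 0 ≤ y) : |Qr h y| < Real.pi / 2 ↔ y < wid2 d ρ W := by
  have h0 : 0 ≤ Qr h y := by
    have h1 := (Qr_mono h).monotone hy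
    rw [Qr_zero] at h1
    linarith [h.le]
  rw [abs_of_nonneg h0]
  have hm := Pr_strictMono h
  constructor
  · intro h1
    have h2 := hm h1
    rwa [Pr_Qr] at h2
  · intro h1
    apply hm.lt_iff_lt.1
    rw [Pr_Qr]
    exact h1

lemma Qr_mem (h : Par d ρ W) {y : ℝ} (hy : 0 ≤ y) (hy2 : y < wid2 d ρ W) :
    Real.pi / 2 - ρ ≤ Qr h y ∧ Qr h y < Real.pi / 2 := by
  constructor
  · have h1 := (Qr_mono h).monotone hy
    rwa [Qr_zero] at h1
  · exact (abs_lt.1 ((Qr_lt h hy).2 hy2)).2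

lemma cos_Qr_pos (h : Par d ρ W) {y : ℝ} (hy : 0 ≤ y) (hy2 : y < wid2 d ρ W) :
    0 < Real.cos (Qr h y) := by
  have h1 := Qr_mem h hy hy2
  exact Real.cos_pos_of_mem_Ioo ⟨by linarith [h.le, Real.pi_pos], h1.2⟩

lemma cos_Qr_le (h : Par d ρ W) {y : ℝ} (hy : 0 ≤ y) (hy2 : y < wid2 d ρ W) :
    Real.cos (Qr h y) ≤ Real.sin ρ := by
  have h1 := Qr_mem h hy hy2
  rw [← Real.cos_pi_div_two_sub]
  exact Real.cos_le_cos_of_nonneg_of_le_pi (by linarith [h.le]) (by linarith [Real.pi_pos]) h1.1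

lemma Pr_contDiff (h : Par d ρ W) : ContDiff ℝ 1 (Pr d ρ W) := by
  rw [contDiff_one_iff_deriv]
  refine ⟨fun t => (Pr_deriv h t).differentiableAt, ?_⟩
  have e : deriv (Pr d ρ W) = wr d ρ W := by
    funext t
    exact (Pr_deriv h t).deriv
  rw [e]
  exact wr_cont h

lemma Qr_contDiffAt (h : Par d ρ W) {y : ℝ} (hy : 0 ≤ y) (hy2 : y < wid2 d ρ W) :
    ContDiffAt ℝ 1 (Qr h) y := by
  have hc := cos_Qr_pos h hy hy2
  exact (Qre h).toHomeomorph.toOpenPartialHomeomorph.contDiffAt_symm_deriv (a := y)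
    (wr_pos h hc.ne').ne' (mem_univ y) (Pr_deriv h _) (Pr_contDiff h).contDiffAt

lemma Qr_deriv (h : Par d ρ W) {y : ℝ} (hy : 0 ≤ y) (hy2 : y < wid2 d ρ W) :
    HasDerivAt (Qr h) (wr d ρ W (Qr h y))⁻¹ y := by
  have hc := cos_Qr_pos h hy hy2
  exact HasDerivAt.of_local_left_inverse (Qr_cont h).continuousAt (Pr_deriv h _)
    (wr_pos h hc.ne').ne' (Eventually.of_forall fun z => Pr_Qr h z)

/-- the bound for the density -/
lemma profr_le (h : Par d ρ W) {y g : ℝ} (hy : 0 ≤ y) (hy2 : y < wid2 d ρ W) (hg0 : 0 ≤ g)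
    (hg : g ≤ 1) : Real.cos (Qr h y) ^ d * √(Real.cos (Qr h y) ^ 2 +
      ((wr d ρ W (Qr h y))⁻¹) ^ 2 * g) ≤ W := by
  have hc := cos_Qr_pos h hy hy2
  have hcl := cos_Qr_le h hy hy2
  set c := Real.cos (Qr h y) with hcd
  have hm : min (c ^ 2) (Real.sin ρ ^ 2) = c ^ 2 :=
    min_eq_left (pow_le_pow_left₀ hc.le hcl 2)
  have hr : 0 < W ^ 2 - (c ^ 2) ^ (d + 1) := by
    have := radr_pos h (Qr h y)
    rwa [← hcd, hm] at this
  have e1 : ((wr d ρ W (Qr h y))⁻¹) ^ 2 = (W ^ 2 - (c ^ 2) ^ (d + 1)) / (c ^ d) ^ 2 := by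
    unfold wr
    rw [← hcd, hm, abs_of_pos hc, inv_div, div_pow, Real.sq_sqrt hr.le]
  rw [e1]
  apply le_of_sq_le_sq _ h.W_pos.le
  have h0 : 0 ≤ (W ^ 2 - (c ^ 2) ^ (d + 1)) / (c ^ d) ^ 2 := by positivity
  rw [mul_pow, Real.sq_sqrt (by positivity)]
  have e2 : (c ^ d) ^ 2 * (c ^ 2 + (W ^ 2 - (c ^ 2) ^ (d + 1)) / (c ^ d) ^ 2 * g) =
      (c ^ 2) ^ (d + 1) + (W ^ 2 - (c ^ 2) ^ (d + 1)) * g := by
    field_simp
    ring
  rw [e2]
  nlinarith

/-- the width as an integral of sines -/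
lemma wid2_eq (h : Par d ρ W) : wid2 d ρ W =
    ∫ t in (0:ℝ)..ρ, Real.sin t ^ d / √(W ^ 2 - Real.sin t ^ (2 * (d + 1))) := by
  have e1 : wid2 d ρ W = ∫ x in (Real.pi / 2 - ρ)..(Real.pi / 2), wr d ρ W x := by
    unfold wid2 Pr Pr0
    exact intervalIntegral.integral_interval_sub_left ((wr_cont h).intervalIntegrable _ _)
      ((wr_cont h).intervalIntegrable _ _)
  have e2 := intervalIntegral.integral_comp_sub_left (a := 0) (b := ρ)
    (fun x => wr d ρ W x) (Real.pi / 2)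
  rw [sub_zero] at e2
  rw [e1, ← e2]
  apply intervalIntegral.integral_congr
  intro t ht
  rw [uIcc_of_le h.pos.le] at ht
  simp only
  unfold wr
  have hs0 : 0 ≤ Real.sin t := Real.sin_nonneg_of_nonneg_of_le_pi ht.1
    (by linarith [ht.2, h.le, Real.pi_pos])
  have hs1 : Real.sin t ≤ Real.sin ρ := Real.sin_le_sin_of_le_of_le_pi_div_two
    (by linarith [ht.1, Real.pi_pos]) h.le ht.2
  rw [Real.cos_pi_div_two_sub, abs_of_nonneg hs0,
    min_eq_left (pow_le_pow_left₀ hs0 hs1 2), ← pow_mul]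

/-- the simple estimate of the width -/
lemma wid2_le (h : Par d ρ W) : wid2 d ρ W ≤ (∫ t in (0:ℝ)..ρ, Real.sin t ^ d) /
    √(W ^ 2 - Real.sin ρ ^ (2 * (d + 1))) := by
  have h1 : 0 < W ^ 2 - Real.sin ρ ^ (2 * (d + 1)) := by
    have h2 : (Real.sin ρ ^ (d + 1)) ^ 2 < W ^ 2 :=
      pow_lt_pow_left₀ h.lt (pow_nonneg h.sin_pos.le _) two_ne_zero
    rw [← pow_mul, mul_comm (d + 1) 2] at h2
    linarith
  have h2 : 0 < √(W ^ 2 - Real.sin ρ ^ (2 * (d + 1))) := Real.sqrt_pos.2 h1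
  rw [wid2_eq h, ← intervalIntegral.integral_div]
  have hle : ∀ t ∈ Icc 0 ρ, 0 ≤ Real.sin t ∧ Real.sin t ^ (2 * (d + 1)) ≤
      Real.sin ρ ^ (2 * (d + 1)) := by
    intro t ht
    have hs0 : 0 ≤ Real.sin t := Real.sin_nonneg_of_nonneg_of_le_pi ht.1
      (by linarith [ht.2, h.le, Real.pi_pos])
    have hs1 : Real.sin t ≤ Real.sin ρ := Real.sin_le_sin_of_le_of_le_pi_div_two
      (by linarith [ht.1, Real.pi_pos]) h.le ht.2
    exact ⟨hs0, pow_le_pow_left₀ hs0 hs1 _⟩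
  apply intervalIntegral.integral_mono_on h.pos.le
  · apply ContinuousOn.intervalIntegrable
    rw [uIcc_of_le h.pos.le]
    apply ContinuousOn.div (by fun_prop) (by fun_prop)
    intro t ht
    refine (Real.sqrt_pos.2 ?_).ne'
    linarith [(hle t ht).2]
  · exact (by fun_prop : Continuous fun t : ℝ => Real.sin t ^ d /
      √(W ^ 2 - Real.sin ρ ^ (2 * (d + 1)))).intervalIntegrable _ _
  · intro t ht
    apply div_le_div_of_nonneg_left (pow_nonneg (hle t ht).1 _) h2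
    apply Real.sqrt_le_sqrt
    linarith [(hle t ht).2]

end Pool.Agent.H37.CG
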