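import Pool.Agent.H37.CG.Collar
import Pool.Agent.H37.CG.Profile2
import Pool.Graph.R_pool_sql_team_seeded_35f281b4.K7.H34.FV.CapFin

/-!
# The volume of narrow collars
-/

set_option autoImplicit false

open MeasureTheory Metric Set Filter Topology Matrix InnerProductGeometry

namespace Pool.Agent.H37.CG

open Pool.Agent.H241R3.FV
open Pool.Agent.Results.MP_aeade1_gt.CompleteFillings (NoCollarRetraction hemisphere cst)

variable {M : Type} [MetricSpace M] {d : ℕ}

/-- `C` is a lower bound for the volumes of all compact fillings `M` of the boundary sphere of the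
ball of radius `ρ` of the round sphere of dimension `d + 1` such that the distances in `M` of the
boundary points are at least their distances in the round sphere. -/
def CapBound (d : ℕ) (ρ : ℝ) (C : ENNReal) : Prop :=
  ∀ (M : Type) [MetricSpace M] [CompactSpace M] (S : Fill d M),
    (∀ x y : Sph (d + 1), Real.arccos (Real.cos ρ ^ 2 +
      Real.sin ρ ^ 2 * inner ℝ (x : E (d + 1)) (y : E (d + 1))) ≤ dist (S.bd x) (S.bd y)) →
    (S.Triangulated ∨ S.NoRetraction) → C ≤ S.vol

lemma cap_gr (θ : Ht M) (S : Fill d M) (h1 : ∀ i, C1On (S.chart i) θ.f (Real.pi / 2))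
    (hS : S.NonShort) {ρ : ℝ} (hb : ∀ x, θ.f (S.bd x) = Real.pi / 2 - ρ)
    (x y : Sph (d + 1)) : Real.arccos (Real.cos ρ ^ 2 +
      Real.sin ρ ^ 2 * inner ℝ (x : E (d + 1)) (y : E (d + 1))) ≤
      dist ((grFill θ S h1).bd x) ((grFill θ S h1).bd y) := by
  change _ ≤ dist (mk θ (S.bd x)) (mk θ (S.bd y))
  rw [dist_mk, hb, hb, sub_sub_cancel]
  unfold Pool.Agent.TH599.SU.sd
  apply Real.arccos_le_arccos
  have h2 : Real.cos (min (dist (S.bd x) (S.bd y)) Real.pi) ≤
      inner ℝ (x : E (d + 1)) (y : E (d + 1)) := by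
    have h3 : angle (x : E (d + 1)) (y : E (d + 1)) ≤ min (dist (S.bd x) (S.bd y)) Real.pi :=
      le_min (hS x y) (angle_le_pi _ _)
    have h4 := Real.cos_le_cos_of_nonneg_of_le_pi (angle_nonneg _ _) (min_le_right _ _) h3
    rw [cos_angle, norm_sph, norm_sph, mul_one, div_one] at h4
    exact h4
  nlinarith [sq_nonneg (Real.sin ρ)]

/-- The inequality for the graph of a function with a positive value on the boundary. -/
theorem masterCap {C : ENNReal} {ρ : ℝ} (hC : CapBound d ρ C) (S : Fill d M)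
    (hS : S.NonShort) (θ : Ht M) (h1 : ∀ i, C1On (S.chart i) θ.f (Real.pi / 2))
    (hb : ∀ x, θ.f (S.bd x) = Real.pi / 2 - ρ)
    (ht : Topo S {q | θ.f q = Real.pi / 2}) : C ≤ grVol θ.f S := by
  rw [← vol_grFill θ S h1]
  rcases ht with ⟨hM, hT⟩ | ⟨⟨K, hK, hKF⟩, hr⟩
  · have hcs : CompactSpace (Gr θ) := by
      constructor
      have h2 : (univ : Set (Gr θ)) = mk θ '' univ := by
        rw [image_univ]
        symm
        rw [range_eq_univ]
        exact fun z => mk_surj θ z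
      rw [h2]
      exact isCompact_univ.image (continuous_mk θ)
    exact hC (Gr θ) (grFill θ S h1) (cap_gr θ S h1 hS hb) (Or.inl (triang_gr θ S h1 hT))
  · have hcs : CompactSpace (Gr θ) := compact_gr θ hK fun q hq => hKF hq
    refine hC (Gr θ) (grFill θ S h1) (cap_gr θ S h1 hS hb) (Or.inr ?_)
    rintro ⟨r, hrc, hrb⟩
    apply hr
    refine ⟨fun q => r (mk θ q), hrc.comp (continuous_mk θ), fun x => hrb x, ?_⟩
    by_cases he : ∃ q, θ.f q = Real.pi / 2
    · obtain ⟨q, hq⟩ := he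
      refine ⟨r (mk θ q), fun q' hq' => ?_⟩
      change r (mk θ q') = r (mk θ q)
      rw [mk_top θ hq' hq]
    · exact ⟨⟨EuclideanSpace.single 0 1, by simp⟩, fun q hq => absurd ⟨q, hq⟩ he⟩

/-- `s` is a continuous nonnegative function on the filling which is `0` on the boundary, and where
`s < r` it is continuously differentiable in the charts with a gradient of norm at most one. -/
structure CollarFn (S : Fill d M) (s : M → ℝ) (r : ℝ) : Prop where
  cont : Continuous s
  nonneg : ∀ q, 0 ≤ s q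
  zero : ∀ x, s (S.bd x) = 0
  smooth : ∀ i, ContDiffOn ℝ 1 (fun p => s ((S.chart i).map p))
    {p | p ∈ (S.chart i).U ∧ s ((S.chart i).map p) < r}
  grad : ∀ i, ∀ p ∈ (S.chart i).U, s ((S.chart i).map p) < r → ∀ v : E (d + 1),
    |fderiv ℝ (fun z => s ((S.chart i).map z)) p v| ≤ gnorm ((S.chart i).G p) v

/-- The volume of the set `{s < r}`. -/
noncomputable def collarVolume (S : Fill d M) (s : M → ℝ) (r : ℝ) : ENNReal :=
  ∑' i, ∫⁻ p in {p | p ∈ (S.chart i).D ∧ s ((S.chart i).map p) < r},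
    ENNReal.ofReal √((S.chart i).G p).det

/-- The inequality for collars. -/
theorem collarR {C : ENNReal} {ρ W r : ℝ} (hC : CapBound d ρ C) (hP : Par d ρ W)
    (S : Fill d M) (hS : S.NonShort) {s : M → ℝ} (hs : CollarFn S s r)
    (hr : wid2 d ρ W ≤ r) (ht : Topo S {q | r ≤ s q}) :
    C ≤ ENNReal.ofReal W * collarVolume S s r := by
  set w := wid2 d ρ W with hw
  have hcont : Continuous fun q => Qr hP (s q) := (Qr_cont hP).comp hs.cont
  have hlt : ∀ q, |Qr hP (s q)| < Real.pi / 2 ↔ s q < w := fun q => Qr_lt hP (hs.nonneg q)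
  have hpart : ∀ i, part (S.chart i) (fun q => Qr hP (s q)) (Real.pi / 2) =
      {p | p ∈ (S.chart i).U ∧ s ((S.chart i).map p) < w} := by
    intro i
    ext p
    constructor
    · rintro ⟨h1, h2⟩
      exact ⟨h1, (hlt _).1 h2⟩
    · rintro ⟨h1, h2⟩
      exact ⟨h1, (hlt _).2 h2⟩
  have hopen : ∀ i, IsOpen {p | p ∈ (S.chart i).U ∧ s ((S.chart i).map p) < w} := by
    intro i
    rw [← hpart]
    exact isOpen_part (S.chart i) hcont _
  have hat : ∀ i, ∀ p ∈ {p | p ∈ (S.chart i).U ∧ s ((S.chart i).map p) < w},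
      ContDiffAt ℝ 1 (fun p => s ((S.chart i).map p)) p := by
    intro i p hp
    exact ((hs.smooth i).mono fun z hz => ⟨hz.1, hz.2.trans_le hr⟩).contDiffAt
      ((hopen i).mem_nhds hp)
  have hc1 : ∀ i, C1On (S.chart i) (fun q => Qr hP (s q)) (Real.pi / 2) := by
    intro i
    unfold C1On
    rw [hpart]
    intro p hp
    exact ((Qr_contDiffAt hP (hs.nonneg _) hp.2).comp p (hat i p hp)).contDiffWithinAt
  have hm := masterCap hC S hS (clamp (fun q => Qr hP (s q)) hcont)
    (fun i => c1_clamp (S.chart i) hcont (hc1 i)) (fun x => by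
      have h0 : Qr hP (s (S.bd x)) = Real.pi / 2 - ρ := by rw [hs.zero, Qr_zero]
      have h1 : |Qr hP (s (S.bd x))| < Real.pi / 2 := by
        rw [h0, abs_lt]
        constructor <;> linarith [hP.pos, hP.le, Real.pi_pos]
      exact (clamp_eq (u := fun q => Qr hP (s q)) (hu := hcont) h1).trans h0) (by
      have hsub : {q | r ≤ s q} ⊆
          {q | (clamp (fun q => Qr hP (s q)) hcont).f q = Real.pi / 2} := by
        intro q hq
        change max (-(Real.pi / 2)) (min (Real.pi / 2) (Qr hP (s q))) = Real.pi / 2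
        have h1 : Real.pi / 2 ≤ Qr hP (s q) := by
          have h2 : w ≤ s q := hr.trans hq
          have h3 := (Qr_mono hP).monotone h2
          rw [hw] at h3
          unfold wid2 at h3
          rwa [Qr_Pr] at h3
        rw [min_eq_left h1, max_eq_right (by linarith [Real.pi_pos])]
      rcases ht with h | ⟨⟨K, hK, hKF⟩, hn⟩
      · exact Or.inl h
      · right
        refine ⟨⟨K, hK, hKF.trans hsub⟩, ?_⟩
        rintro ⟨f, hf, hfb, z, hz⟩
        exact hn ⟨f, hf, hfb, z, fun q hq => hz q (hsub hq)⟩)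
  refine hm.trans ?_
  unfold grVol collarVolume
  rw [← ENNReal.tsum_mul_left]
  refine ENNReal.tsum_le_tsum fun i => ?_
  rw [part_clamp, hpart, ← lintegral_const_mul' _ _ ENNReal.ofReal_ne_top]
  have hsub : (S.chart i).D ∩ {p | p ∈ (S.chart i).U ∧ s ((S.chart i).map p) < w} ⊆
      {p | p ∈ (S.chart i).D ∧ s ((S.chart i).map p) < r} :=
    fun p hp => ⟨hp.1, hp.2.2.trans_le hr⟩
  refine le_trans ?_ (lintegral_mono_set hsub)
  refine setLIntegral_mono' ((S.chart i).meas_D.inter (hopen i).measurableSet) ?_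
  intro p hp
  have hp1 := hp.2
  have hp2 : p ∈ part (S.chart i) (fun q => Qr hP (s q)) (Real.pi / 2) := by
    rw [hpart]; exact hp1
  rw [← ENNReal.ofReal_mul hP.W_pos.le, dens_clamp (S.chart i) hcont hp2]
  apply ENNReal.ofReal_le_ofReal
  unfold dens
  apply mul_le_mul_of_nonneg_right _ (Real.sqrt_nonneg _)
  have hd : HasFDerivAt (fun z => s ((S.chart i).map z))
      (fderiv ℝ (fun z => s ((S.chart i).map z)) p) p :=
    ((hat i p hp1).differentiableAt one_ne_zero).hasFDerivAt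
  rw [gradSq_comp (S.chart i) hd (Qr_deriv hP (hs.nonneg _) hp1.2)]
  refine profr_le hP (hs.nonneg _) hp1.2 (gradSq_nonneg (S.chart i) s hp1.1) ?_
  exact dot_gnorm ((S.chart i).pos_G p hp1.1) _
    (hs.grad i p hp1.1 (hp1.2.trans_le hr))

/-- The volume `vol(S^d)` of the unit sphere. -/
noncomputable def sphVol (d : ℕ) : ℝ := (d + 1 : ℕ) * om (d + 1)

/-- the number `∫ sin^d` over `[0, ρ]`; the ball of radius `ρ` of the round sphere of dimension
`d + 1` has the volume `vol(S^d)` times this number -/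
noncomputable def Ar (d : ℕ) (ρ : ℝ) : ℝ := ∫ t in (0:ℝ)..ρ, Real.sin t ^ d

lemma Ar_pos {ρ : ℝ} (h0 : 0 < ρ) (h1 : ρ ≤ Real.pi / 2) : 0 < Ar d ρ := by
  unfold Ar
  apply intervalIntegral.intervalIntegral_pos_of_pos_on
  · exact (by fun_prop : Continuous fun t : ℝ => Real.sin t ^ d).intervalIntegrable _ _
  · intro t ht
    exact pow_pos (Real.sin_pos_of_pos_of_lt_pi ht.1 (by linarith [ht.2, Real.pi_pos])) _
  · exact h0

lemma Ar_ge {ρ : ℝ} (h0 : 0 < ρ) (h1 : ρ ≤ Real.pi / 2) :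
    Real.sin ρ ^ (d + 1) ≤ (d + 1) * Ar d ρ := by
  have hd : ∀ t, HasDerivAt (fun t => Real.sin t ^ (d + 1))
      (((d + 1 : ℕ) : ℝ) * Real.sin t ^ d * Real.cos t) t := by
    intro t
    have h := (Real.hasDerivAt_sin t).fun_pow (d + 1)
    simpa using h
  have e1 : ∫ t in (0:ℝ)..ρ, ((d + 1 : ℕ) : ℝ) * Real.sin t ^ d * Real.cos t =
      Real.sin ρ ^ (d + 1) := by
    rw [intervalIntegral.integral_eq_sub_of_hasDerivAt (fun t _ => hd t)]
    · rw [Real.sin_zero, zero_pow (Nat.succ_ne_zero d), sub_zero]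
    · exact (by fun_prop : Continuous fun t : ℝ =>
        ((d + 1 : ℕ) : ℝ) * Real.sin t ^ d * Real.cos t).intervalIntegrable _ _
  rw [← e1]
  unfold Ar
  rw [← intervalIntegral.integral_const_mul]
  apply intervalIntegral.integral_mono_on h0.le
  · exact (by fun_prop : Continuous fun t : ℝ =>
        ((d + 1 : ℕ) : ℝ) * Real.sin t ^ d * Real.cos t).intervalIntegrable _ _
  · exact (by fun_prop : Continuous fun t : ℝ =>
        ((d : ℝ) + 1) * Real.sin t ^ d).intervalIntegrable _ _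
  · intro t ht
    have hs : 0 ≤ Real.sin t ^ d := pow_nonneg (Real.sin_nonneg_of_nonneg_of_le_pi ht.1
      (by linarith [ht.2, Real.pi_pos])) _
    push_cast
    have hc := Real.cos_le_one t
    calc ((d : ℝ) + 1) * Real.sin t ^ d * Real.cos t ≤
        ((d : ℝ) + 1) * Real.sin t ^ d * 1 := by gcongr
      _ = ((d : ℝ) + 1) * Real.sin t ^ d := by ring

/-- the constant -/
noncomputable def Wcr (d : ℕ) (ρ r : ℝ) : ℝ := √(Real.sin ρ ^ (2 * (d + 1)) + (Ar d ρ / r) ^ 2)

lemma par_Wcr {ρ r : ℝ} (h0 : 0 < ρ) (h1 : ρ ≤ Real.pi / 2) (hr : 0 < r) :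
    Par d ρ (Wcr d ρ r) where
  pos := h0
  le := h1
  lt := by
    have hA := Ar_pos (d := d) h0 h1
    have hs : 0 < Real.sin ρ := Real.sin_pos_of_pos_of_lt_pi h0 (by linarith [Real.pi_pos])
    unfold Wcr
    rw [Real.lt_sqrt (by positivity)]
    have e : (Real.sin ρ ^ (d + 1)) ^ 2 = Real.sin ρ ^ (2 * (d + 1)) := by
      rw [← pow_mul, mul_comm]
    rw [e]
    have : 0 < (Ar d ρ / r) ^ 2 := by positivity
    linarith

lemma wid2_Wcr {ρ r : ℝ} (h0 : 0 < ρ) (h1 : ρ ≤ Real.pi / 2) (hr : 0 < r) :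
    wid2 d ρ (Wcr d ρ r) ≤ r := by
  refine (wid2_le (par_Wcr h0 h1 hr)).trans ?_
  have hA := Ar_pos (d := d) h0 h1
  have hs : 0 < Real.sin ρ := Real.sin_pos_of_pos_of_lt_pi h0 (by linarith [Real.pi_pos])
  have e : √(Wcr d ρ r ^ 2 - Real.sin ρ ^ (2 * (d + 1))) = Ar d ρ / r := by
    unfold Wcr
    rw [Real.sq_sqrt (by positivity), add_sub_cancel_left, Real.sqrt_sq (by positivity)]
  rw [e]
  change Ar d ρ / (Ar d ρ / r) ≤ r
  rw [div_div_cancel₀ hA.ne']

/-- The closed form of the inequality for collars. -/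
theorem collarC {κ ρ r : ℝ} (h0 : 0 < ρ) (h1 : ρ ≤ Real.pi / 2) (hr : 0 < r)
    (hC : CapBound d ρ (ENNReal.ofReal (κ * (sphVol d * Ar d ρ))))
    (S : Fill d M) (hS : S.NonShort) {s : M → ℝ} (hs : CollarFn S s r)
    (ht : Topo S {q | r ≤ s q}) :
    ENNReal.ofReal (κ * (sphVol d * r)) ≤
      ENNReal.ofReal √(1 + (Real.sin ρ ^ (d + 1) / Ar d ρ * r) ^ 2) * collarVolume S s r := by
  have hA := Ar_pos (d := d) h0 h1
  have h := collarR hC (par_Wcr h0 h1 hr) S hS hs (wid2_Wcr h0 h1 hr) ht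
  have hsv : 0 ≤ sphVol d := by
    unfold sphVol om
    positivity
  have e1 : ENNReal.ofReal (κ * (sphVol d * r)) =
      ENNReal.ofReal (r / Ar d ρ) * ENNReal.ofReal (κ * (sphVol d * Ar d ρ)) := by
    rw [← ENNReal.ofReal_mul (by positivity)]
    congr 1
    field_simp
  have e2 : ENNReal.ofReal √(1 + (Real.sin ρ ^ (d + 1) / Ar d ρ * r) ^ 2) =
      ENNReal.ofReal (r / Ar d ρ) * ENNReal.ofReal (Wcr d ρ r) := by
    rw [← ENNReal.ofReal_mul (by positivity)]
    congr 1
    unfold Wcr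
    have e3 : r / Ar d ρ = √((r / Ar d ρ) ^ 2) := (Real.sqrt_sq (by positivity)).symm
    rw [e3, ← Real.sqrt_mul (by positivity)]
    congr 1
    have e4 : Real.sin ρ ^ (2 * (d + 1)) = (Real.sin ρ ^ (d + 1)) ^ 2 := by
      rw [← pow_mul, mul_comm]
    rw [e4]
    field_simp
    ring
  rw [e1, e2, mul_assoc]
  gcongr

end Pool.Agent.H37.CG
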