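import Pool.Agent.H37.CG.Chart
import Pool.Graph.R_seed8.H241R3.FV.Stmts2

/-!
# The graph of a function over a filling is a filling
-/

set_option autoImplicit false

open MeasureTheory Metric Set Filter Topology Matrix InnerProductGeometry

namespace Pool.Agent.H37.CG

open Pool.Agent.H241R3.FV Pool.Agent.TH599.SU

variable {M : Type} [MetricSpace M] {d : ℕ}

/-- a chart whose used part is one point -/
noncomputable def ptChart {N : Type} [MetricSpace N] (n : ℕ) (z : N) : RChart n N where
  U := univ
  isOpen_U := isOpen_univ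
  D := {0}
  meas_D := measurableSet_singleton _
  D_sub := fun p _ => mem_univ p
  map := fun _ => z
  G := fun _ => 1
  cont_G := continuousOn_const
  pos_G := fun _ _ => Matrix.PosDef.one
  dist_le := fun x y _ => by
    rw [dist_self]
    refine intervalIntegral.integral_nonneg zero_le_one fun t _ => ?_
    unfold gnorm
    exact Real.sqrt_nonneg _

/-- the heights of the two poles -/
noncomputable def pole (b : Bool) : ℝ := if b then Real.pi / 2 else -(Real.pi / 2)

/-- the filling by the graph -/
noncomputable def grFill (θ : Ht M) (S : Fill d M)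
    (h1 : ∀ i, C1On (S.chart i) θ.f (Real.pi / 2)) : Fill d (Gr θ) where
  ι := {b : Bool // ∃ p, θ.f p = pole b} ⊕ S.ι
  countable := by
    have := S.countable
    infer_instance
  chart := Sum.elim (fun b => ptChart (d + 1) (mk θ b.2.choose))
    (fun i => grChart θ (S.chart i) (h1 i))
  bd := fun x => mk θ (S.bd x)
  cover := by
    intro z
    obtain ⟨q, rfl⟩ := mk_surj θ z
    rcases lt_or_eq_of_le (θ.bdd q) with hq | hq
    · rcases S.cover q with ⟨x, hx⟩ | ⟨i, p, hp, hpq⟩
      · left
        exact ⟨x, by rw [hx]⟩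
      · right
        refine ⟨Sum.inr i, p, ⟨hp, (S.chart i).D_sub hp, ?_⟩, ?_⟩
        · rw [hpq]; exact hq
        · change mk θ ((S.chart i).map p) = mk θ q
          rw [hpq]
    · right
      rcases abs_choice (θ.f q) with h | h
      · rw [h] at hq
        have hb : ∃ p, θ.f p = pole true := ⟨q, by simpa [pole] using hq⟩
        refine ⟨Sum.inl ⟨true, hb⟩, 0, rfl, ?_⟩
        change mk θ hb.choose = mk θ q
        have h2 := hb.choose_spec
        simp only [pole, if_true] at h2
        exact mk_top θ h2 hq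
      · rw [h] at hq
        have hq' : θ.f q = -(Real.pi / 2) := by linarith
        have hb : ∃ p, θ.f p = pole false := ⟨q, by simpa [pole] using hq'⟩
        refine ⟨Sum.inl ⟨false, hb⟩, 0, rfl, ?_⟩
        change mk θ hb.choose = mk θ q
        have h2 := hb.choose_spec
        simp only [pole, Bool.false_eq_true, if_false] at h2
        exact mk_bot θ h2 hq'

/-- the density of the volume of the graph in a chart -/
noncomputable def dens (d : ℕ) (f : M → ℝ) (C : RChart (d + 1) M) (p : E (d + 1)) : ℝ :=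
  Real.cos (f (C.map p)) ^ d * √(Real.cos (f (C.map p)) ^ 2 + gradSq C f p) * √(C.G p).det

/-- the volume of the graph -/
noncomputable def grVol (f : M → ℝ) (S : Fill d M) : ENNReal :=
  ∑' i, ∫⁻ p in (S.chart i).D ∩ part (S.chart i) f (Real.pi / 2),
    ENNReal.ofReal (dens d f (S.chart i) p)

lemma det_GT (θ : Ht M) (C : RChart (d + 1) M) {p : E (d + 1)}
    (hp : p ∈ part C θ.f (Real.pi / 2)) : √(GT θ C p).det = dens d θ.f C p := by
  have hc := cos_pos_part θ C hp
  unfold GT dens
  rw [rk_det hc.ne' (C.pos_G p hp.1)]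
  have h1 : 0 ≤ gradSq C θ.f p := grad_nonneg (C.pos_G p hp.1) _
  have e : Real.cos (θ.f (C.map p)) ^ (2 * d) = (Real.cos (θ.f (C.map p)) ^ d) ^ 2 := by
    rw [← pow_mul, mul_comm]
  change √(Real.cos (θ.f (C.map p)) ^ (2 * d) * (Real.cos (θ.f (C.map p)) ^ 2 +
    gradSq C θ.f p) * (C.G p).det) = _
  rw [Real.sqrt_mul (by positivity), Real.sqrt_mul (by positivity), e,
    Real.sqrt_sq (by positivity)]

lemma vol_grFill (θ : Ht M) (S : Fill d M) (h1 : ∀ i, C1On (S.chart i) θ.f (Real.pi / 2)) :
    (grFill θ S h1).vol = grVol θ.f S := by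
  have e : (grFill θ S h1).vol =
      ∑' i : {b : Bool // ∃ p, θ.f p = pole b} ⊕ S.ι,
        Sum.elim (fun _ => ∫⁻ p in ({0} : Set (E (d + 1))),
        ENNReal.ofReal √((1 : Matrix (Fin (d + 1)) (Fin (d + 1)) ℝ)).det)
        (fun i => ∫⁻ p in (S.chart i).D ∩ part (S.chart i) θ.f (Real.pi / 2),
          ENNReal.ofReal √(GT θ (S.chart i) p).det) i := by
    unfold Fill.vol
    refine tsum_congr fun i => ?_
    rcases i with i | i <;> rfl
  rw [e, Summable.tsum_sum ENNReal.summable ENNReal.summable]
  simp only [Sum.elim_inl, Sum.elim_inr]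
  have h0 : ∫⁻ p in ({0} : Set (E (d + 1))),
      ENNReal.ofReal √((1 : Matrix (Fin (d + 1)) (Fin (d + 1)) ℝ)).det = 0 := by
    have h1 : (volume : Measure (E (d + 1))) {0} = 0 := measure_singleton 0
    rw [Measure.restrict_eq_zero.2 h1, lintegral_zero_measure]
  simp only [h0, tsum_zero, zero_add]
  unfold grVol
  refine tsum_congr fun i => ?_
  refine setLIntegral_congr_fun
    ((S.chart i).meas_D.inter (isOpen_part (S.chart i) θ.cont _).measurableSet) ?_
  intro p hp
  simp only [det_GT θ (S.chart i) hp.2]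

lemma nonShort_gr (θ : Ht M) (S : Fill d M) (h1 : ∀ i, C1On (S.chart i) θ.f (Real.pi / 2))
    (hS : S.NonShort) (hb : ∀ x, θ.f (S.bd x) = 0) : (grFill θ S h1).NonShort := by
  intro x y
  change angle (x : E (d + 1)) (y : E (d + 1)) ≤ dist (mk θ (S.bd x)) (mk θ (S.bd y))
  rw [dist_mk, hb, hb]
  unfold sd
  rw [sub_zero, Real.cos_pi_div_two, Real.sin_pi_div_two]
  have e : (0 : ℝ) * 0 + 1 * 1 * Real.cos (min (dist (S.bd x) (S.bd y)) Real.pi) =
      Real.cos (min (dist (S.bd x) (S.bd y)) Real.pi) := by ring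
  rw [e, Real.arccos_cos (le_min dist_nonneg Real.pi_pos.le) (min_le_right _ _)]
  exact le_min (hS x y) (angle_le_pi _ _)

lemma triang_gr [CompactSpace M] (θ : Ht M) (S : Fill d M)
    (h1 : ∀ i, C1On (S.chart i) θ.f (Real.pi / 2)) (hT : S.Triangulated) :
    (grFill θ S h1).Triangulated := by
  intro ε hε
  have hu : UniformContinuous (mk θ) := CompactSpace.uniformContinuous_of_continuous
    (continuous_mk θ)
  obtain ⟨δ, hδ, h⟩ := Metric.uniformContinuous_iff.1 hu ε hε
  obtain ⟨T⟩ := hT δ hδ
  exact ⟨{ V := T.V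
           fin := T.fin
           dec := T.dec
           pos := fun v => mk θ (T.pos v)
           T := T.T
           card_T := T.card_T
           mesh := fun σ hσ v hv w hw => h (T.mesh σ hσ v hv w hw)
           B := T.B
           B_sub := T.B_sub
           face := T.face
           b := T.b
           b_spec := fun F hF v hv => congrArg (mk θ) (T.b_spec F hF v hv)
           tile := T.tile }⟩

/-- `C` is a lower bound for the volumes of all compact nonshortcutting fillings of `S^d`. -/
def LowerBound (d : ℕ) (C : ENNReal) : Prop :=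
  ∀ (M : Type) [MetricSpace M] [CompactSpace M] (S : Fill d M), S.NonShort →
    (S.Triangulated ∨ S.NoRetraction) → C ≤ S.vol

/-- The topological hypothesis: `M` is compact and triangulated, or all points outside of a compact
set are in `F`, and no continuous map `M → S^d` which is constant on `F` is the identity on the
boundary. -/
def Topo (S : Fill d M) (F : Set M) : Prop :=
  (CompactSpace M ∧ S.Triangulated) ∨ ((∃ K : Set M, IsCompact K ∧ Kᶜ ⊆ F) ∧
    ¬ ∃ r : M → Sph (d + 1), Continuous r ∧ (∀ x, r (S.bd x) = x) ∧ ∃ z, ∀ q ∈ F, r q = z)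

/-- The main inequality. -/
theorem master {C : ENNReal} (hC : LowerBound d C) (S : Fill d M) (hS : S.NonShort)
    (θ : Ht M) (h1 : ∀ i, C1On (S.chart i) θ.f (Real.pi / 2)) (hb : ∀ x, θ.f (S.bd x) = 0)
    (ht : Topo S {q | θ.f q = Real.pi / 2}) : C ≤ grVol θ.f S := by
  rw [← vol_grFill θ S h1]
  rcases ht with ⟨hM, hT⟩ | ⟨⟨K, hK, hKF⟩, hr⟩
  · have hcs : CompactSpace (Gr θ) := by
      constructor
      have h2 : (univ : Set (Gr θ)) = mk θ '' univ := by
        rw [image_univ]
        symm
        rw [range_eq_univ]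
        exact fun z => mk_surj θ z
      rw [h2]
      exact isCompact_univ.image (continuous_mk θ)
    exact hC (Gr θ) (grFill θ S h1) (nonShort_gr θ S h1 hS hb) (Or.inl (triang_gr θ S h1 hT))
  · have hcs : CompactSpace (Gr θ) := compact_gr θ hK fun q hq => hKF hq
    refine hC (Gr θ) (grFill θ S h1) (nonShort_gr θ S h1 hS hb) (Or.inr ?_)
    rintro ⟨r, hrc, hrb⟩
    apply hr
    refine ⟨fun q => r (mk θ q), hrc.comp (continuous_mk θ), fun x => hrb x, ?_⟩
    by_cases he : ∃ q, θ.f q = Real.pi / 2
    · obtain ⟨q, hq⟩ := he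
      refine ⟨r (mk θ q), fun q' hq' => ?_⟩
      change r (mk θ q') = r (mk θ q)
      rw [mk_top θ hq' hq]
    · exact ⟨⟨EuclideanSpace.single 0 1, by simp⟩, fun q hq => absurd ⟨q, hq⟩ he⟩

end Pool.Agent.H37.CG
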