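import Mathlib

/-!
# Continuously differentiable step functions with slopes close to one
-/

set_option autoImplicit false

open Set Filter Topology MeasureTheory

namespace Pool.Agent.H37.CG

/-- the slope, before normalisation -/
noncomputable def kp (η y : ℝ) : ℝ := max 0 (min 1 (min (y / η) ((1 - y) / η)))

/-- the normalising constant -/
noncomputable def kc (η : ℝ) : ℝ := ∫ y in (0:ℝ)..1, kp η y

/-- the step function -/
noncomputable def ks (η x : ℝ) : ℝ := (∫ y in (0:ℝ)..x, kp η y) / kc η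

variable {η : ℝ}

lemma kp_cont : Continuous (kp η) := by
  unfold kp
  fun_prop

lemma kp_nonneg (y : ℝ) : 0 ≤ kp η y := le_max_left _ _

lemma kp_le (y : ℝ) : kp η y ≤ 1 := max_le zero_le_one (min_le_left _ _)

lemma kp_zero_left (hη : 0 < η) {y : ℝ} (hy : y ≤ 0) : kp η y = 0 := by
  unfold kp
  apply max_eq_left
  refine (min_le_right _ _).trans ((min_le_left _ _).trans ?_)
  exact div_nonpos_of_nonpos_of_nonneg hy hη.le

lemma kp_zero_right (hη : 0 < η) {y : ℝ} (hy : 1 ≤ y) : kp η y = 0 := by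
  unfold kp
  apply max_eq_left
  refine (min_le_right _ _).trans ((min_le_right _ _).trans ?_)
  exact div_nonpos_of_nonpos_of_nonneg (by linarith) hη.le

lemma kc_ge (hη : 0 < η) (hη2 : η < 1 / 2) : 1 - 2 * η ≤ kc η := by
  unfold kc
  have hi : ∀ a b : ℝ, IntervalIntegrable (kp η) volume a b := fun a b =>
    kp_cont.intervalIntegrable a b
  have e : ∫ y in (0:ℝ)..1, kp η y = (∫ y in (0:ℝ)..η, kp η y) +
      (∫ y in η..(1 - η), kp η y) + ∫ y in (1 - η)..1, kp η y := by
    rw [intervalIntegral.integral_add_adjacent_intervals (hi _ _) (hi _ _),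
      intervalIntegral.integral_add_adjacent_intervals (hi _ _) (hi _ _)]
  have h1 : 0 ≤ ∫ y in (0:ℝ)..η, kp η y :=
    intervalIntegral.integral_nonneg hη.le fun y _ => kp_nonneg y
  have h2 : 0 ≤ ∫ y in (1 - η)..1, kp η y :=
    intervalIntegral.integral_nonneg (by linarith) fun y _ => kp_nonneg y
  have h3 : ∫ y in η..(1 - η), (1:ℝ) ≤ ∫ y in η..(1 - η), kp η y := by
    apply intervalIntegral.integral_mono_on (by linarith)
      (continuous_const.intervalIntegrable _ _) (hi _ _)
    intro y hy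
    unfold kp
    refine le_max_of_le_right (le_min le_rfl (le_min ?_ ?_))
    · rw [le_div_iff₀ hη]
      linarith [hy.1]
    · rw [le_div_iff₀ hη]
      linarith [hy.2]
  have h4 : ∫ y in η..(1 - η), (1:ℝ) = 1 - 2 * η := by
    rw [intervalIntegral.integral_const, smul_eq_mul]
    ring
  rw [e]
  linarith

lemma kc_pos (hη : 0 < η) (hη2 : η < 1 / 2) : 0 < kc η := by
  have := kc_ge hη hη2
  linarith

lemma ks_deriv (x : ℝ) : HasDerivAt (ks η) (kp η x / kc η) x :=
  (intervalIntegral.integral_hasDerivAt_right (kp_cont.intervalIntegrable _ _)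
    (kp_cont.stronglyMeasurableAtFilter _ _) kp_cont.continuousAt).div_const _

lemma ks_contDiff : ContDiff ℝ 1 (ks η) := by
  rw [contDiff_one_iff_deriv]
  refine ⟨fun t => (ks_deriv t).differentiableAt, ?_⟩
  have e : deriv (ks η) = fun x => kp η x / kc η := by
    funext t
    exact (ks_deriv t).deriv
  rw [e]
  exact kp_cont.div_const _

lemma ks_zero (hη : 0 < η) {x : ℝ} (hx : x ≤ 0) : ks η x = 0 := by
  unfold ks
  have e : ∫ y in (0:ℝ)..x, kp η y = 0 := by
    rw [intervalIntegral.integral_symm]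
    have : ∫ y in x..(0:ℝ), kp η y = ∫ y in x..(0:ℝ), (0:ℝ) := by
      apply intervalIntegral.integral_congr
      intro y hy
      rw [uIcc_of_le hx] at hy
      exact kp_zero_left hη hy.2
    rw [this]
    simp
  rw [e, zero_div]

lemma ks_one (hη : 0 < η) (hη2 : η < 1 / 2) {x : ℝ} (hx : 1 ≤ x) : ks η x = 1 := by
  unfold ks
  have e : ∫ y in (0:ℝ)..x, kp η y = kc η := by
    unfold kc
    rw [← intervalIntegral.integral_add_adjacent_intervals
      (kp_cont.intervalIntegrable (0:ℝ) 1) (kp_cont.intervalIntegrable 1 x)]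
    have : ∫ y in (1:ℝ)..x, kp η y = ∫ y in (1:ℝ)..x, (0:ℝ) := by
      apply intervalIntegral.integral_congr
      intro y hy
      rw [uIcc_of_le hx] at hy
      exact kp_zero_right hη hy.1
    rw [this]
    simp
  rw [e, div_self (kc_pos hη hη2).ne']

lemma ks_mono (hη : 0 < η) (hη2 : η < 1 / 2) : Monotone (ks η) := by
  apply monotone_of_deriv_nonneg (fun t => (ks_deriv t).differentiableAt)
  intro t
  rw [(ks_deriv t).deriv]
  exact div_nonneg (kp_nonneg t) (kc_pos hη hη2).le

lemma ks_nonneg (hη : 0 < η) (hη2 : η < 1 / 2) (x : ℝ) : 0 ≤ ks η x := by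
  rcases le_total x 0 with h | h
  · rw [ks_zero hη h]
  · have := ks_mono hη hη2 h
    rwa [ks_zero hη le_rfl] at this

lemma ks_le (hη : 0 < η) (hη2 : η < 1 / 2) (x : ℝ) : ks η x ≤ 1 := by
  rcases le_total x 1 with h | h
  · have := ks_mono hη hη2 h
    rwa [ks_one hη hη2 le_rfl] at this
  · rw [ks_one hη hη2 h]

/-- the even step function between the values `k` and `k + 1` of `|y|` -/
noncomputable def kb (η : ℝ) (k : ℕ) (y : ℝ) : ℝ := ks η (y - k) + ks η (-y - k)

/-- its derivative -/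
noncomputable def kb' (η : ℝ) (k : ℕ) (y : ℝ) : ℝ :=
  kp η (y - k) / kc η - kp η (-y - k) / kc η

lemma kb_contDiff (k : ℕ) : ContDiff ℝ 1 (kb η k) := by
  unfold kb
  exact (ks_contDiff.comp (contDiff_id.sub contDiff_const)).add
    (ks_contDiff.comp (contDiff_id.neg.sub contDiff_const))

lemma kb_deriv (k : ℕ) (y : ℝ) : HasDerivAt (kb η k) (kb' η k y) y := by
  have h1 : HasDerivAt (fun y : ℝ => y - k) 1 y := (hasDerivAt_id y).sub_const _
  have h2 : HasDerivAt (fun y : ℝ => -y - k) (-1) y := (hasDerivAt_id y).neg.sub_const _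
  have h3 := ((ks_deriv (η := η) (y - k)).comp y h1).add ((ks_deriv (η := η) (-y - k)).comp y h2)
  refine h3.congr_deriv ?_
  unfold kb'
  ring

lemma kb_zero (hη : 0 < η) (k : ℕ) : kb η k 0 = 0 := by
  unfold kb
  have h : (0:ℝ) ≤ k := Nat.cast_nonneg k
  rw [ks_zero hη (by linarith), ks_zero hη (by linarith), add_zero]

lemma kb_abs (hη : 0 < η) (k : ℕ) (y : ℝ) : kb η k y = ks η (|y| - k) := by
  unfold kb
  have h : (0:ℝ) ≤ k := Nat.cast_nonneg k
  rcases le_total 0 y with hy | hy
  · rw [abs_of_nonneg hy, ks_zero hη (x := -y - k) (by linarith), add_zero]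
  · rw [abs_of_nonpos hy, ks_zero hη (x := y - k) (by linarith), zero_add]

lemma kb_nonneg (hη : 0 < η) (hη2 : η < 1 / 2) (k : ℕ) (y : ℝ) : 0 ≤ kb η k y := by
  rw [kb_abs hη]
  exact ks_nonneg hη hη2 _

lemma kb_lt {k : ℕ} (hη : 0 < η) (hη2 : η < 1 / 2) {y : ℝ} (h : |kb η k y| < 1) :
    |y| < k + 1 := by
  by_contra hcon
  rw [not_lt] at hcon
  rw [kb_abs hη, ks_one hη hη2 (by linarith), abs_one] at h
  exact lt_irrefl _ h

lemma kb'_abs_le (hη : 0 < η) (hη2 : η < 1 / 2) (k : ℕ) (y : ℝ) :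
    |kb' η k y| ≤ if k = ⌊|y|⌋₊ then 1 / kc η else 0 := by
  have h : (0:ℝ) ≤ k := Nat.cast_nonneg k
  have hc := kc_pos hη hη2
  have e : |kb' η k y| = kp η (|y| - k) / kc η := by
    unfold kb'
    rcases le_total 0 y with hy | hy
    · rw [abs_of_nonneg hy, kp_zero_left hη (y := -y - k) (by linarith), zero_div, sub_zero,
        abs_of_nonneg (div_nonneg (kp_nonneg _) hc.le)]
    · rw [abs_of_nonpos hy, kp_zero_left hη (y := y - k) (by linarith), zero_div, zero_sub,
        abs_neg, abs_of_nonneg (div_nonneg (kp_nonneg _) hc.le)]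
  rw [e]
  split_ifs with hk
  · exact div_le_div_of_nonneg_right (kp_le _) hc.le
  · have h1 : kp η (|y| - k) = 0 := by
      rcases le_or_gt (|y| - k) 0 with h2 | h2
      · exact kp_zero_left hη h2
      · rcases le_or_gt 1 (|y| - k) with h3 | h3
        · exact kp_zero_right hη h3
        · exfalso
          apply hk
          symm
          rw [Nat.floor_eq_iff (abs_nonneg y)]
          constructor <;> linarith
    rw [h1, zero_div]

lemma sum_kb' (hη : 0 < η) (hη2 : η < 1 / 2) (K : ℕ) (y : ℝ) :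
    ∑ k ∈ Finset.range K, |kb' η k y| ≤ 1 / kc η := by
  have hc := kc_pos hη hη2
  refine (Finset.sum_le_sum fun k _ => kb'_abs_le hη hη2 k y).trans ?_
  rw [Finset.sum_ite_eq']
  split_ifs
  · exact le_rfl
  · positivity

lemma sum_ind (K : ℕ) {y : ℝ} (hy0 : 0 ≤ y) (hy : y ≤ K) :
    ∑ k ∈ Finset.range K, (if y < k + 1 then (1:ℝ) else 0) ≤ K + 1 - y := by
  have h1 : ∀ k ∈ Finset.range K, (if y < (k:ℝ) + 1 then (1:ℝ) else 0) ≤
      if ⌊y⌋₊ ≤ k then 1 else 0 := by
    intro k _
    split_ifs with h1 h2 h2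
    · exact le_rfl
    · exfalso
      apply h2
      have h3 : ⌊y⌋₊ < k + 1 := by
        rw [Nat.floor_lt hy0]
        push_cast
        exact h1
      omega
    · exact zero_le_one
    · exact le_rfl
  refine (Finset.sum_le_sum h1).trans ?_
  rw [Finset.sum_ite, Finset.sum_const_zero, add_zero, Finset.sum_const, nsmul_eq_mul, mul_one]
  have h2 : (Finset.filter (fun k => ⌊y⌋₊ ≤ k) (Finset.range K)).card = K - ⌊y⌋₊ := by
    have e : Finset.filter (fun k => ⌊y⌋₊ ≤ k) (Finset.range K) = Finset.Ico ⌊y⌋₊ K := by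
      ext k
      simp only [Finset.mem_filter, Finset.mem_range, Finset.mem_Ico]
      tauto
    rw [e, Nat.card_Ico]
  rw [h2]
  have h3 : ⌊y⌋₊ ≤ K := Nat.floor_le_of_le hy
  rw [Nat.cast_sub h3]
  have h4 := Nat.lt_floor_add_one y
  linarith

end Pool.Agent.H37.CG
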