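import Pool.Agent.H37.CG.Collar
import Pool.Agent.H37.CG.Step

/-!
# The inequality for the total variation
-/

set_option autoImplicit false

open MeasureTheory Metric Set Filter Topology Matrix InnerProductGeometry

namespace Pool.Agent.H37.CG

open Pool.Agent.H241R3.FV
open Pool.Agent.Results.MP_aeade1_gt.CompleteFillings (NoCollarRetraction hemisphere cst)

variable {M : Type} [MetricSpace M] {d : ℕ}

lemma nInt_add_le (S : Fill d M) {v w : (i : S.ι) → E (d + 1) → ℝ}
    (hv0 : ∀ i, ∀ p ∈ (S.chart i).U, 0 ≤ v i p) (hw0 : ∀ i, ∀ p ∈ (S.chart i).U, 0 ≤ w i p) :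
    nInt S v + nInt S w ≤ nInt S (fun i p => v i p + w i p) := by
  unfold nInt
  rw [← ENNReal.tsum_add]
  refine ENNReal.tsum_le_tsum fun i => ?_
  refine (le_lintegral_add _ _).trans (le_of_eq ?_)
  refine setLIntegral_congr_fun (meas_nearD S i) ?_
  intro p hp
  have hp' := nearD_sub S i hp
  have h1 := det_nonneg (S.chart i) p
  simp only
  rw [← ENNReal.ofReal_add (mul_nonneg (hv0 i p hp') h1) (mul_nonneg (hw0 i p hp') h1), add_mul]

lemma nInt_sum_le (S : Fill d M) {F : ℕ → (i : S.ι) → E (d + 1) → ℝ}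
    (hF : ∀ k i, ∀ p ∈ (S.chart i).U, 0 ≤ F k i p) (K : ℕ) :
    ∑ k ∈ Finset.range K, nInt S (F k) ≤
      nInt S (fun i p => ∑ k ∈ Finset.range K, F k i p) := by
  induction K with
  | zero => simp
  | succ K ih =>
    rw [Finset.sum_range_succ]
    have h := nInt_add_le S (v := fun i p => ∑ k ∈ Finset.range K, F k i p) (w := F K)
      (fun i p hp => Finset.sum_nonneg fun k _ => hF k i p hp) (hF K)
    refine (add_le_add ih le_rfl).trans (h.trans (le_of_eq ?_))
    congr 1
    funext i p
    rw [Finset.sum_range_succ]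

lemma wid_pos {W : ℝ} (hW : 1 < W) : 0 < wid d W := by
  have := Pf_strictMono (d := d) hW (show (0:ℝ) < Real.pi / 2 by positivity)
  rwa [Pf_zero] at this

/-- the bound for the density -/
lemma prof_le2 {W : ℝ} (hW : 1 < W) {y X : ℝ} (hy : |y| < wid d W) (hX : 0 ≤ X) :
    Real.cos (Qf d hW y) ^ d * √(Real.cos (Qf d hW y) ^ 2 +
      ((wt d W (Qf d hW y))⁻¹ * X) ^ 2) ≤ 1 + W * X := by
  have hc := cos_Qf_pos hW hy
  set c := Real.cos (Qf d hW y) with hcd
  have hr : 0 < W ^ 2 - (c ^ 2) ^ (d + 1) := rad_pos hW _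
  have h1 : (c ^ 2) ^ (d + 1) ≤ 1 := cosp_le _
  have e1 : ((wt d W (Qf d hW y))⁻¹) ^ 2 = (W ^ 2 - (c ^ 2) ^ (d + 1)) / (c ^ d) ^ 2 := by
    unfold wt
    rw [← hcd, abs_of_pos hc, inv_div, div_pow, Real.sq_sqrt hr.le]
  rw [mul_pow, e1]
  apply le_of_sq_le_sq _ (by positivity)
  have h0 : 0 ≤ (W ^ 2 - (c ^ 2) ^ (d + 1)) / (c ^ d) ^ 2 := by positivity
  rw [mul_pow, Real.sq_sqrt (by positivity)]
  have e2 : (c ^ d) ^ 2 * (c ^ 2 + (W ^ 2 - (c ^ 2) ^ (d + 1)) / (c ^ d) ^ 2 * X ^ 2) =
      (c ^ 2) ^ (d + 1) + (W ^ 2 - (c ^ 2) ^ (d + 1)) * X ^ 2 := by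
    field_simp
    ring
  rw [e2]
  have h2 : 0 ≤ (c ^ 2) ^ (d + 1) * X ^ 2 := by positivity
  have h3 : 0 ≤ W * X := by positivity
  nlinarith

/-- one step -/
lemma step {C : ENNReal} (hC : LowerBound d C) (S : Fill d M) (hS : S.NonShort)
    (ht : Top S) {f : M → ℝ} (hf : TestFun S f) {W η a : ℝ} (hW : 1 < W) (hη : 0 < η)
    (hη2 : η < 1 / 2) (ha : 0 < a) (k : ℕ) :
    C ≤ nInt S (fun i p => (if |f ((S.chart i).map p) * a| < k + 1 then (1:ℝ) else 0) +
      W * (wid d W * |kb' η k (f ((S.chart i).map p) * a)| * a * √(gradSq (S.chart i) f p))) := by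
  have hw := wid_pos (d := d) hW
  set g : ℝ → ℝ := fun x => Qf d hW (wid d W * kb η k (x * a)) with hg
  have hkc : Continuous (kb η k) := (kb_contDiff k).continuous
  have hgc : Continuous g := (Qf_cont hW).comp (continuous_const.mul
    (hkc.comp (continuous_id.mul continuous_const)))
  have hlt : ∀ x : ℝ, |g x| < Real.pi / 2 ↔ |kb η k (x * a)| < 1 := by
    intro x
    rw [hg]
    simp only
    rw [Qf_lt hW, abs_mul, abs_of_pos hw]
    constructor
    · intro h
      by_contra hcon
      rw [not_lt] at hcon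
      nlinarith
    · intro h
      nlinarith
  have hlt2 : ∀ x : ℝ, |g x| < Real.pi / 2 → |wid d W * kb η k (x * a)| < wid d W := by
    intro x hx
    rw [hg] at hx
    simp only at hx
    rwa [Qf_lt hW] at hx
  have hcont : Continuous fun q => g (f q) := hgc.comp hf.cont
  have hgC : ∀ x : ℝ, |g x| < Real.pi / 2 → ContDiffAt ℝ 1 g x := by
    intro x hx
    have h1 : ContDiffAt ℝ 1 (fun x : ℝ => wid d W * kb η k (x * a)) x := by
      have h2 : ContDiff ℝ 1 (fun x : ℝ => wid d W * kb η k (x * a)) :=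
        contDiff_const.mul ((kb_contDiff k).comp (contDiff_id.mul contDiff_const))
      exact h2.contDiffAt
    exact (Qf_contDiffAt hW (hlt2 x hx)).comp x h1
  have hgD : ∀ x : ℝ, |g x| < Real.pi / 2 → HasDerivAt g
      ((wt d W (g x))⁻¹ * (wid d W * (kb' η k (x * a) * a))) x := by
    intro x hx
    have h1 : HasDerivAt (fun x : ℝ => x * a) a x := by
      simpa using (hasDerivAt_id x).mul_const a
    have h4 : HasDerivAt (kb η k) (kb' η k (x * a)) (x * a) := kb_deriv k (x * a)
    have h5 := HasDerivAt.comp (h := fun x : ℝ => x * a) x h4 h1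
    have h3 : HasDerivAt (fun x : ℝ => kb η k (x * a)) (kb' η k (x * a) * a) x := h5
    have h2 : HasDerivAt (fun x : ℝ => wid d W * kb η k (x * a))
        (wid d W * (kb' η k (x * a) * a)) x := h3.const_mul (wid d W)
    exact (Qf_deriv hW (hlt2 x hx)).comp x h2
  have hc1 : ∀ i, C1On (S.chart i) (fun q => g (f q)) (Real.pi / 2) := by
    intro i p hp
    have h1 : ContDiffAt ℝ 1 (fun p => f ((S.chart i).map p)) p :=
      (hf.smooth i).contDiffAt ((S.chart i).isOpen_U.mem_nhds hp.1)
    exact ((hgC _ hp.2).comp p h1).contDiffWithinAt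
  have hm := masterC hC S hS ht hcont hc1 (fun x => by
    simp only [hf.zero, hg, zero_mul]
    rw [kb_zero hη, mul_zero, Qf_zero])
  refine hm.trans (grVolN_le S ?_ hcont)
  intro i p hp
  have hd : HasFDerivAt (fun z => f ((S.chart i).map z))
      (fderiv ℝ (fun z => f ((S.chart i).map z)) p) p :=
    (((hf.smooth i).differentiableOn one_ne_zero).differentiableAt
      ((S.chart i).isOpen_U.mem_nhds hp.1)).hasFDerivAt
  set x := f ((S.chart i).map p) with hx
  have hgx : |g x| < Real.pi / 2 := hp.2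
  have hG := gradSq_nonneg (S.chart i) f hp.1
  rw [gradSq_comp (S.chart i) hd (hgD x hgx)]
  have hind : |x * a| < k + 1 := kb_lt hη hη2 ((hlt x).1 hgx)
  rw [if_pos hind]
  set X := wid d W * |kb' η k (x * a)| * a * √(gradSq (S.chart i) f p) with hX
  have hX0 : 0 ≤ X := by positivity
  have h5 := prof_le2 hW (hlt2 x hgx) hX0
  refine le_trans (le_of_eq ?_) h5
  have e1 : ((wt d W (g x))⁻¹ * (wid d W * (kb' η k (x * a) * a))) ^ 2 *
      gradSq (S.chart i) f p = ((wt d W (g x))⁻¹ * X) ^ 2 := by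
    rw [hX, mul_pow, mul_pow _ (wid d W * |kb' η k (x * a)| * a * √(gradSq (S.chart i) f p)),
      mul_pow (wid d W * |kb' η k (x * a)| * a), Real.sq_sqrt hG, mul_pow (wid d W * |kb' η k (x * a)|),
      mul_pow (wid d W) |kb' η k (x * a)|, sq_abs]
    ring
  rw [e1]

/-- the inequality with parameters -/
lemma l1_param {C : ENNReal} (hC : LowerBound d C) (S : Fill d M) (hS : S.NonShort)
    (ht : Top S) {f : M → ℝ} (hf : TestFun S f) {m : ℝ} (hm : 0 < m) (hfm : ∀ q, |f q| ≤ m)
    {W η : ℝ} (hW : 1 < W) (hη : 0 < η) (hη2 : η < 1 / 2) {K : ℕ} (hK : 0 < K) :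
    ENNReal.ofReal m * C + nInt S (fun i p => |f ((S.chart i).map p)|) ≤
      ENNReal.ofReal (m + m / K) * nInt S (fun _ _ => 1) +
      ENNReal.ofReal (W * wid d W / kc η) * nInt S (fun i p => √(gradSq (S.chart i) f p)) := by
  have hK' : (0:ℝ) < K := Nat.cast_pos.2 hK
  have hw := wid_pos (d := d) hW
  have hkc := kc_pos hη hη2
  set a : ℝ := K / m with ha
  have ha0 : 0 < a := by positivity
  set F : ℕ → (i : S.ι) → E (d + 1) → ℝ := fun k i p =>
    (if |f ((S.chart i).map p) * a| < k + 1 then (1:ℝ) else 0) +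
      W * (wid d W * |kb' η k (f ((S.chart i).map p) * a)| * a * √(gradSq (S.chart i) f p))
    with hF
  have hF0 : ∀ k i, ∀ p ∈ (S.chart i).U, 0 ≤ F k i p := by
    intro k i p _
    simp only [hF]
    have h1 : (0:ℝ) ≤ if |f ((S.chart i).map p) * a| < k + 1 then (1:ℝ) else 0 := by
      split_ifs <;> norm_num
    positivity
  have h1 : (K : ENNReal) * C ≤ nInt S (fun i p => ∑ k ∈ Finset.range K, F k i p) := by
    refine le_trans ?_ (nInt_sum_le S hF0 K)
    have h2 : ∑ _k ∈ Finset.range K, C ≤ ∑ k ∈ Finset.range K, nInt S (F k) :=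
      Finset.sum_le_sum fun k _ => step hC S hS ht hf hW hη hη2 ha0 k
    rwa [Finset.sum_const, Finset.card_range, nsmul_eq_mul] at h2
  set H : (i : S.ι) → E (d + 1) → ℝ := fun i p => m + m / K - |f ((S.chart i).map p)| +
    W * wid d W / kc η * √(gradSq (S.chart i) f p) with hH
  have hH0 : ∀ i, ∀ p ∈ (S.chart i).U, 0 ≤ H i p := by
    intro i p _
    simp only [hH]
    have h3 := hfm ((S.chart i).map p)
    have h4 : 0 ≤ m / K := by positivity
    have h5 : 0 ≤ W * wid d W / kc η * √(gradSq (S.chart i) f p) := by positivity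
    linarith
  have h2 : ∀ i, ∀ p ∈ (S.chart i).U, ∑ k ∈ Finset.range K, F k i p ≤ (K / m) * H i p := by
    intro i p hp
    set x := f ((S.chart i).map p) with hx
    have hxm : |x| ≤ m := hfm _
    have e1 : |x * a| = |x| * a := by rw [abs_mul, abs_of_pos ha0]
    have h3 : |x * a| ≤ K := by
      rw [e1, ha]
      calc |x| * (K / m) ≤ m * (K / m) := by gcongr
        _ = K := by field_simp
    have h4 := sum_ind K (abs_nonneg (x * a)) h3
    have h5 := sum_kb' hη hη2 K (x * a)
    have h6 : ∑ k ∈ Finset.range K, F k i p =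
        ∑ k ∈ Finset.range K, (if |x * a| < k + 1 then (1:ℝ) else 0) +
        (∑ k ∈ Finset.range K, |kb' η k (x * a)|) *
          (W * (wid d W * a * √(gradSq (S.chart i) f p))) := by
      simp only [hF]
      rw [Finset.sum_add_distrib, Finset.sum_mul]
      congr 1
      refine Finset.sum_congr rfl fun k _ => ?_
      ring
    rw [h6]
    have h7 : (∑ k ∈ Finset.range K, |kb' η k (x * a)|) *
          (W * (wid d W * a * √(gradSq (S.chart i) f p))) ≤
        1 / kc η * (W * (wid d W * a * √(gradSq (S.chart i) f p))) :=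
      mul_le_mul_of_nonneg_right h5 (by positivity)
    have e2 : (K / m) * H i p = (K + 1 - |x * a|) +
        1 / kc η * (W * (wid d W * a * √(gradSq (S.chart i) f p))) := by
      rw [e1]
      simp only [hH, ha, ← hx]
      field_simp
      try ring
    rw [e2]
    linarith
  have h3 : (K : ENNReal) * C ≤ ENNReal.ofReal (K / m) * nInt S H := by
    refine h1.trans ?_
    rw [← nInt_smul S (by positivity)]
    exact nInt_mono S h2
  have h4 : ENNReal.ofReal m * C ≤ nInt S H := by
    have e1 : ENNReal.ofReal m * C = ENNReal.ofReal (m / K) * ((K : ENNReal) * C) := by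
      rw [← mul_assoc]
      congr 1
      rw [← ENNReal.ofReal_natCast, ← ENNReal.ofReal_mul (by positivity)]
      congr 1
      field_simp
    have e2 : nInt S H = ENNReal.ofReal (m / K) * (ENNReal.ofReal (K / m) * nInt S H) := by
      rw [← mul_assoc, ← ENNReal.ofReal_mul (by positivity)]
      have : m / K * (K / m) = 1 := by field_simp
      rw [this, ENNReal.ofReal_one, one_mul]
    rw [e1, e2]
    gcongr
  have hfc : ∀ i, ContinuousOn (fun p => |f ((S.chart i).map p)|) (S.chart i).U := fun i =>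
    (comp_cont (S.chart i) hf.cont).abs
  have h5 : nInt S (fun i p => |f ((S.chart i).map p)|) + nInt S H =
      nInt S (fun i p => |f ((S.chart i).map p)| + H i p) :=
    (nInt_add S hfc (fun _ _ _ => abs_nonneg _) hH0).symm
  have h6 : nInt S (fun i p => |f ((S.chart i).map p)| + H i p) =
      nInt S (fun i p => (m + m / K) * 1 + W * wid d W / kc η * √(gradSq (S.chart i) f p)) := by
    congr 1
    funext i p
    simp only [hH]
    ring
  have h7 : nInt S (fun i p => (m + m / K) * 1 +
      W * wid d W / kc η * √(gradSq (S.chart i) f p)) =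
      nInt S (fun _ _ => (m + m / K) * 1) +
      nInt S (fun i p => W * wid d W / kc η * √(gradSq (S.chart i) f p)) :=
    nInt_add S (fun _ => continuousOn_const) (fun _ _ _ => by positivity)
      (fun _ _ _ => by positivity)
  rw [h6, h7, nInt_smul S (by positivity), nInt_smul S (by positivity)] at h5
  rw [← h5, add_comm]
  gcongr

/-- The inequality for the total variation. -/
theorem l1 {C : ENNReal} (hC : LowerBound d C) (S : Fill d M) (hS : S.NonShort)
    (ht : Top S) {f : M → ℝ} (hf : TestFun S f) {m : ℝ} (hm : 0 < m) (hfm : ∀ q, |f q| ≤ m) :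
    ENNReal.ofReal m * C + nInt S (fun i p => |f ((S.chart i).map p)|) ≤
      ENNReal.ofReal m * nInt S (fun _ _ => 1) +
      ENNReal.ofReal (Ac d) * nInt S (fun i p => √(gradSq (S.chart i) f p)) := by
  set V := nInt S (fun _ _ => (1:ℝ)) with hV
  set G := nInt S (fun i p => √(gradSq (S.chart i) f p)) with hG
  have hA := Ac_pos d
  by_cases hVt : V = ⊤
  · rw [hVt, ENNReal.mul_top (by rw [Ne, ENNReal.ofReal_eq_zero, not_le]; exact hm), top_add]
    exact le_top
  by_cases hGt : G = ⊤
  · rw [hGt, ENNReal.mul_top (by rw [Ne, ENNReal.ofReal_eq_zero, not_le]; exact hA), add_top]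
    exact le_top
  have key : ∀ ε : ℝ, 0 < ε →
      ENNReal.ofReal m * C + nInt S (fun i p => |f ((S.chart i).map p)|) ≤
      ENNReal.ofReal (m * (1 + ε)) * V + ENNReal.ofReal (Ac d * (1 + ε) ^ 2) * G := by
    intro ε hε
    obtain ⟨K, hK⟩ := exists_nat_gt (1 / ε)
    have hK0 : (0:ℝ) < K := lt_trans (by positivity) hK
    have hKn : 0 < K := by exact_mod_cast hK0
    set W := √(1 + 1 / ε) with hWd
    have hW2 : W ^ 2 = 1 + 1 / ε := Real.sq_sqrt (by positivity)
    have hW : 1 < W := by
      rw [hWd, Real.lt_sqrt zero_le_one]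
      have : 0 < 1 / ε := by positivity
      linarith
    set η := ε / (2 * (1 + ε)) with hηd
    have hη : 0 < η := by positivity
    have hη2 : η < 1 / 2 := by
      rw [hηd, div_lt_div_iff₀ (by positivity) (by norm_num)]
      linarith
    have h := l1_param hC S hS ht hf hm hfm hW hη hη2 hKn
    refine h.trans ?_
    have h1 : m + m / K ≤ m * (1 + ε) := by
      have h2 : 1 / K ≤ ε := by
        rw [div_le_iff₀ hK0]
        rw [div_lt_iff₀ hε] at hK
        linarith
      have e : m + m / K = m * (1 + 1 / K) := by ring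
      rw [e]
      gcongr
    have h2 : W * wid d W / kc η ≤ Ac d * (1 + ε) ^ 2 := by
      have hk := kc_ge hη hη2
      have hk' : 1 / (1 + ε) ≤ kc η := by
        refine le_trans (le_of_eq ?_) hk
        rw [hηd]
        field_simp
        ring
      have hk0 := kc_pos hη hη2
      have h3 : W * wid d W ≤ Ac d * (1 + ε) := by
        have h4 := wid_le (d := d) hW
        have h5 : 0 < W ^ 2 - 1 := by rw [hW2]; have : 0 < 1 / ε := by positivity
                                      linarith
        have h6 : W / √(W ^ 2 - 1) ≤ 1 + ε := by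
          rw [div_le_iff₀ (Real.sqrt_pos.2 h5)]
          apply le_of_sq_le_sq _ (by positivity)
          rw [mul_pow, Real.sq_sqrt h5.le, hW2]
          have e : (1 + ε) ^ 2 * (1 + 1 / ε - 1) = 1 / ε + 2 + ε := by
            field_simp
            ring
          rw [e]
          linarith
        calc W * wid d W ≤ W * (Ac d / √(W ^ 2 - 1)) := by
              apply mul_le_mul_of_nonneg_left h4 (by linarith)
          _ = Ac d * (W / √(W ^ 2 - 1)) := by ring
          _ ≤ Ac d * (1 + ε) := by gcongr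
      rw [div_le_iff₀ hk0]
      have h7 : 1 ≤ (1 + ε) * kc η := by
        rw [div_le_iff₀ (by positivity)] at hk'
        linarith
      calc W * wid d W ≤ Ac d * (1 + ε) * 1 := by linarith
        _ ≤ Ac d * (1 + ε) * ((1 + ε) * kc η) := by gcongr
        _ = Ac d * (1 + ε) ^ 2 * kc η := by ring
    gcongr
  have hlim : Tendsto (fun ε : ℝ => ENNReal.ofReal (m * (1 + ε)) * V +
      ENNReal.ofReal (Ac d * (1 + ε) ^ 2) * G) (𝓝[>] 0)
      (𝓝 (ENNReal.ofReal m * V + ENNReal.ofReal (Ac d) * G)) := by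
    have h1 : Tendsto (fun ε : ℝ => m * (1 + ε)) (𝓝[>] 0) (𝓝 m) := by
      have h2 : Continuous fun ε : ℝ => m * (1 + ε) := by fun_prop
      have h3 := (h2.tendsto 0).mono_left (nhdsWithin_le_nhds (s := Ioi 0))
      simpa using h3
    have h2 : Tendsto (fun ε : ℝ => Ac d * (1 + ε) ^ 2) (𝓝[>] 0) (𝓝 (Ac d)) := by
      have h2 : Continuous fun ε : ℝ => Ac d * (1 + ε) ^ 2 := by fun_prop
      have h3 := (h2.tendsto 0).mono_left (nhdsWithin_le_nhds (s := Ioi 0))
      simpa using h3
    exact (ENNReal.Tendsto.mul_const (ENNReal.tendsto_ofReal h1) (Or.inr hVt)).add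
      (ENNReal.Tendsto.mul_const (ENNReal.tendsto_ofReal h2) (Or.inr hGt))
  refine ge_of_tendsto hlim ?_
  filter_upwards [self_mem_nhdsWithin] with ε hε
  exact key ε hε

end Pool.Agent.H37.CG
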