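import Pool.Agent.H37.CG.Near
import Pool.Agent.H37.CG.Calc

/-!
# The Poincaré inequality for the filling
-/

set_option autoImplicit false

open MeasureTheory Metric Set Filter Topology Matrix InnerProductGeometry

namespace Pool.Agent.H37.CG

open Pool.Agent.H241R3.FV
open Pool.Agent.Results.MP_aeade1_gt.CompleteFillings (NoCollarRetraction hemisphere cst)

variable {M : Type} [MetricSpace M] {d : ℕ}

/-- The integral over the collar of width `π/2` of the boundary of a function which is given in the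
charts, with respect to the Riemannian volume. -/
noncomputable def nInt (S : Fill d M) (w : (i : S.ι) → E (d + 1) → ℝ) : ENNReal :=
  ∑' i, ∫⁻ p in nearD S i, ENNReal.ofReal (w i p * √((S.chart i).G p).det)

/-- `u` is continuous, continuously differentiable in all charts, and `0` on the boundary. -/
structure TestFun (S : Fill d M) (u : M → ℝ) : Prop where
  cont : Continuous u
  smooth : ∀ i, ContDiffOn ℝ 1 (fun p => u ((S.chart i).map p)) (S.chart i).U
  zero : ∀ x, u (S.bd x) = 0

/-- the function clamped to `[-π/2, π/2]` -/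
noncomputable def clamp (u : M → ℝ) (hu : Continuous u) : Ht M where
  f := fun q => max (-(Real.pi / 2)) (min (Real.pi / 2) (u q))
  cont := by fun_prop
  bdd := fun q => by
    have hπ := Real.pi_pos
    rw [abs_le]
    exact ⟨le_max_left _ _, max_le (by linarith) (min_le_left _ _)⟩

lemma clamp_eq {u : M → ℝ} {hu : Continuous u} {q : M} (h : |u q| < Real.pi / 2) :
    (clamp u hu).f q = u q := by
  have h1 := abs_lt.1 h
  change max (-(Real.pi / 2)) (min (Real.pi / 2) (u q)) = u q
  rw [min_eq_right h1.2.le, max_eq_right h1.1.le]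

lemma clamp_lt {u : M → ℝ} {hu : Continuous u} {q : M} (h : |(clamp u hu).f q| < Real.pi / 2) :
    |u q| < Real.pi / 2 := by
  have hπ := Real.pi_pos
  have h1 := abs_lt.1 h
  change -(Real.pi / 2) < max (-(Real.pi / 2)) (min (Real.pi / 2) (u q)) ∧
    max (-(Real.pi / 2)) (min (Real.pi / 2) (u q)) < Real.pi / 2 at h1
  rw [abs_lt]
  constructor
  · rcases lt_max_iff.1 h1.1 with h2 | h2
    · exact absurd h2 (lt_irrefl _)
    · exact (lt_min_iff.1 h2).2
  · rcases min_lt_iff.1 (max_lt_iff.1 h1.2).2 with h2 | h2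
    · exact absurd h2 (lt_irrefl _)
    · exact h2

lemma part_clamp (C : RChart (d + 1) M) {u : M → ℝ} (hu : Continuous u) :
    part C (clamp u hu).f (Real.pi / 2) = part C u (Real.pi / 2) := by
  ext p
  constructor
  · rintro ⟨h1, h2⟩
    exact ⟨h1, clamp_lt h2⟩
  · rintro ⟨h1, h2⟩
    refine ⟨h1, ?_⟩
    rw [clamp_eq h2]
    exact h2

lemma c1_clamp (C : RChart (d + 1) M) {u : M → ℝ} (hu : Continuous u)
    (h : C1On C u (Real.pi / 2)) : C1On C (clamp u hu).f (Real.pi / 2) := by
  unfold C1On at h ⊢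
  rw [part_clamp]
  exact h.congr fun p hp => clamp_eq hp.2

lemma dvec_clamp (C : RChart (d + 1) M) {u : M → ℝ} (hu : Continuous u) {p : E (d + 1)}
    (hp : p ∈ part C u (Real.pi / 2)) : dvec C (clamp u hu).f p = dvec C u p := by
  have h1 : (fun z => (clamp u hu).f (C.map z)) =ᶠ[𝓝 p] fun z => u (C.map z) := by
    filter_upwards [(isOpen_part C hu _).mem_nhds hp] with z hz
    exact clamp_eq hz.2
  unfold dvec
  rw [h1.fderiv_eq]

lemma dens_clamp (C : RChart (d + 1) M) {u : M → ℝ} (hu : Continuous u) {p : E (d + 1)}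
    (hp : p ∈ part C u (Real.pi / 2)) : dens d (clamp u hu).f C p = dens d u C p := by
  unfold dens gradSq
  rw [dvec_clamp C hu hp, clamp_eq hp.2]

/-- the main inequality for functions which are not bounded -/
theorem masterC {C : ENNReal} (hC : LowerBound d C) (S : Fill d M) (hS : S.NonShort)
    (ht : Top S) {u : M → ℝ} (hu : Continuous u) (h1 : ∀ i, C1On (S.chart i) u (Real.pi / 2))
    (hb : ∀ x, u (S.bd x) = 0) : C ≤ grVolN u S := by
  have hπ := Real.pi_pos
  have h := masterN hC S hS ht (clamp u hu) (fun i => c1_clamp (S.chart i) hu (h1 i))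
    (fun x => by
      rw [clamp_eq (by rw [hb, abs_zero]; positivity)]
      exact hb x)
  refine h.trans (le_of_eq ?_)
  unfold grVolN
  refine tsum_congr fun i => ?_
  rw [part_clamp]
  refine setLIntegral_congr_fun
    ((meas_nearD S i).inter (isOpen_part (S.chart i) hu _).measurableSet) ?_
  intro p hp
  simp only [dens_clamp (S.chart i) hu hp.2]

lemma det_nonneg (C : RChart (d + 1) M) (p : E (d + 1)) : 0 ≤ √(C.G p).det :=
  Real.sqrt_nonneg _

lemma gradSq_nonneg (C : RChart (d + 1) M) (u : M → ℝ) {p : E (d + 1)} (hp : p ∈ C.U) :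
    0 ≤ gradSq C u p := grad_nonneg (C.pos_G p hp) _

lemma sqrtdet_cont (C : RChart (d + 1) M) : ContinuousOn (fun p => √(C.G p).det) C.U := by
  apply ContinuousOn.sqrt
  exact (continuous_id.matrix_det).comp_continuousOn C.cont_G

lemma comp_cont (C : RChart (d + 1) M) {u : M → ℝ} (hu : Continuous u) :
    ContinuousOn (fun p => u (C.map p)) C.U :=
  hu.comp_continuousOn (Pool.Agent.W716.FV.Asm.map_contOn C)

lemma aem (S : Fill d M) (i : S.ι) {F : E (d + 1) → ℝ} (hF : ContinuousOn F (S.chart i).U) :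
    AEMeasurable (fun p => ENNReal.ofReal (F p * √((S.chart i).G p).det))
      (volume.restrict (nearD S i)) := by
  apply AEMeasurable.ennreal_ofReal
  exact ((hF.mul (sqrtdet_cont (S.chart i))).mono (nearD_sub S i)).aemeasurable (meas_nearD S i)

/-- sums of integrals -/
lemma nInt_add (S : Fill d M) {v w : (i : S.ι) → E (d + 1) → ℝ}
    (hv : ∀ i, ContinuousOn (v i) (S.chart i).U)
    (hv0 : ∀ i, ∀ p ∈ (S.chart i).U, 0 ≤ v i p) (hw0 : ∀ i, ∀ p ∈ (S.chart i).U, 0 ≤ w i p) :
    nInt S (fun i p => v i p + w i p) = nInt S v + nInt S w := by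
  unfold nInt
  rw [← ENNReal.tsum_add]
  refine tsum_congr fun i => ?_
  rw [← lintegral_add_left' (aem S i (hv i))]
  refine setLIntegral_congr_fun (meas_nearD S i) ?_
  intro p hp
  have hp' := nearD_sub S i hp
  have h1 := det_nonneg (S.chart i) p
  simp only
  rw [← ENNReal.ofReal_add (mul_nonneg (hv0 i p hp') h1) (mul_nonneg (hw0 i p hp') h1), add_mul]

lemma nInt_smul (S : Fill d M) {c : ℝ} (hc : 0 ≤ c) (w : (i : S.ι) → E (d + 1) → ℝ) :
    nInt S (fun i p => c * w i p) = ENNReal.ofReal c * nInt S w := by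
  unfold nInt
  rw [← ENNReal.tsum_mul_left]
  refine tsum_congr fun i => ?_
  rw [← lintegral_const_mul' _ _ ENNReal.ofReal_ne_top]
  congr 1
  ext p
  rw [mul_assoc, ENNReal.ofReal_mul hc]

lemma nInt_mono (S : Fill d M) {v w : (i : S.ι) → E (d + 1) → ℝ}
    (h : ∀ i, ∀ p ∈ (S.chart i).U, v i p ≤ w i p) : nInt S v ≤ nInt S w := by
  unfold nInt
  refine ENNReal.tsum_le_tsum fun i => ?_
  refine setLIntegral_mono' (meas_nearD S i) ?_
  intro p hp
  apply ENNReal.ofReal_le_ofReal
  exact mul_le_mul_of_nonneg_right (h i p (nearD_sub S i hp)) (Real.sqrt_nonneg _)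

/-- bounds for the volume of the graph -/
lemma grVolN_le (S : Fill d M) {u : M → ℝ} {w : (i : S.ι) → E (d + 1) → ℝ}
    (h : ∀ i, ∀ p ∈ part (S.chart i) u (Real.pi / 2),
      Real.cos (u ((S.chart i).map p)) ^ d * √(Real.cos (u ((S.chart i).map p)) ^ 2 +
        gradSq (S.chart i) u p) ≤ w i p) (hu : Continuous u) : grVolN u S ≤ nInt S w := by
  unfold grVolN nInt
  refine ENNReal.tsum_le_tsum fun i => ?_
  refine le_trans ?_ (lintegral_mono_set (μ := volume)
    (inter_subset_left : nearD S i ∩ part (S.chart i) u (Real.pi / 2) ⊆ nearD S i))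
  refine setLIntegral_mono'
    ((meas_nearD S i).inter (isOpen_part (S.chart i) hu _).measurableSet) ?_
  intro p hp
  apply ENNReal.ofReal_le_ofReal
  unfold dens
  exact mul_le_mul_of_nonneg_right (h i p hp.2) (Real.sqrt_nonneg _)

lemma fderiv_smul_fun (C : RChart (d + 1) M) {u : M → ℝ} {ε : ℝ}
    (h : ContDiffOn ℝ 1 (fun p => u (C.map p)) C.U) {p : E (d + 1)} (hp : p ∈ C.U) :
    gradSq C (fun q => ε * u q) p = ε ^ 2 * gradSq C u p := by
  have h1 : HasFDerivAt (fun z => u (C.map z)) (fderiv ℝ (fun z => u (C.map z)) p) p :=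
    ((h.differentiableOn one_ne_zero).differentiableAt (C.isOpen_U.mem_nhds hp)).hasFDerivAt
  have h2 : dvec C (fun q => ε * u q) p = ε • dvec C u p := by
    funext j
    unfold dvec
    rw [(h1.const_mul ε).fderiv]
    simp
  unfold gradSq
  rw [h2, Matrix.mulVec_smul, dotProduct_smul, smul_dotProduct, smul_eq_mul, smul_eq_mul]
  ring

/-- the inequality with a parameter -/
lemma param (hd : 1 ≤ d) {C : ENNReal} (hC : LowerBound d C) (S : Fill d M) (hS : S.NonShort)
    (ht : Top S) {u : M → ℝ} (hu : TestFun S u) {t : ℝ} (ht0 : 0 < t) :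
    C + ENNReal.ofReal ((d + 1) / 2 * t) * nInt S (fun i p => u ((S.chart i).map p) ^ 2) ≤
      nInt S (fun _ _ => 1) + (ENNReal.ofReal ((d + 1) ^ 2 / 8 * t ^ 2) *
        nInt S (fun i p => u ((S.chart i).map p) ^ 4) +
        ENNReal.ofReal (t / 2) * nInt S (fun i p => gradSq (S.chart i) u p)) := by
  set ε := √t with hε
  have hε2 : ε ^ 2 = t := Real.sq_sqrt ht0.le
  have hcont : Continuous fun q => ε * u q := continuous_const.mul hu.cont
  have h1 : ∀ i, C1On (S.chart i) (fun q => ε * u q) (Real.pi / 2) := fun i =>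
    (contDiffOn_const.mul (hu.smooth i)).mono fun p hp => hp.1
  have hm := masterC hC S hS ht hcont h1 (fun x => by
    change ε * u (S.bd x) = 0
    rw [hu.zero, mul_zero])
  set F : (i : S.ι) → E (d + 1) → ℝ := fun i p =>
    1 - (d + 1) / 2 * (ε * u ((S.chart i).map p)) ^ 2 +
      (d + 1) ^ 2 / 8 * ((ε * u ((S.chart i).map p)) ^ 2) ^ 2 +
      (t * gradSq (S.chart i) u p) / 2 with hF
  have h2 : grVolN (fun q => ε * u q) S ≤ nInt S F := by
    refine grVolN_le S ?_ hcont
    intro i p hp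
    have h3 := dens_le hd hp.2.le (y := gradSq (S.chart i) (fun q => ε * u q) p)
      (gradSq_nonneg (S.chart i) _ hp.1)
    refine h3.trans (le_of_eq ?_)
    rw [hF]
    simp only
    rw [fderiv_smul_fun (S.chart i) (hu.smooth i) hp.1, hε2]
  have hF0 : ∀ i, ∀ p ∈ (S.chart i).U, 0 ≤ F i p := by
    intro i p hp
    exact quad_nonneg d _ _ (mul_nonneg ht0.le (gradSq_nonneg _ _ hp))
  set a : (i : S.ι) → E (d + 1) → ℝ := fun i p => (d + 1) / 2 * t * u ((S.chart i).map p) ^ 2
    with ha
  have hac : ∀ i, ContinuousOn (a i) (S.chart i).U := fun i =>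
    continuousOn_const.mul ((comp_cont (S.chart i) hu.cont).pow 2)
  have ha0 : ∀ i, ∀ p ∈ (S.chart i).U, 0 ≤ a i p := fun i p _ => by
    simp only [ha]
    positivity
  have h4 : C + nInt S a ≤ nInt S (fun i p => a i p + F i p) := by
    rw [nInt_add S hac ha0 hF0, add_comm C]
    gcongr
    exact hm.trans h2
  have h5 : nInt S (fun i p => a i p + F i p) =
      nInt S (fun i p => 1 + ((d + 1) ^ 2 / 8 * t ^ 2 * u ((S.chart i).map p) ^ 4 +
        t / 2 * gradSq (S.chart i) u p)) := by
    congr 1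
    funext i p
    simp only [ha, hF]
    have e1 : (ε * u ((S.chart i).map p)) ^ 2 = t * u ((S.chart i).map p) ^ 2 := by
      rw [mul_pow, hε2]
    rw [e1]
    ring
  have e6 : nInt S (fun i p => (d + 1) ^ 2 / 8 * t ^ 2 * u ((S.chart i).map p) ^ 4 +
      t / 2 * gradSq (S.chart i) u p) =
      nInt S (fun i p => (d + 1) ^ 2 / 8 * t ^ 2 * u ((S.chart i).map p) ^ 4) +
      nInt S (fun i p => t / 2 * gradSq (S.chart i) u p) :=
    nInt_add S (fun i => continuousOn_const.mul ((comp_cont (S.chart i) hu.cont).pow 4))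
      (fun _ _ _ => by positivity) (fun i p hp => by
      have := gradSq_nonneg (S.chart i) u hp
      positivity)
  rw [h5, nInt_add S (fun i => continuousOn_const) (fun _ _ _ => zero_le_one) (fun i p hp => by
      have := gradSq_nonneg (S.chart i) u hp
      positivity), e6, nInt_smul S (by positivity), nInt_smul S (by positivity)] at h4
  rw [nInt_smul S (by positivity)] at h4
  exact h4

lemma ofReal_mul_toReal {a : ℝ} (ha : 0 ≤ a) {x : ENNReal} (hx : x ≠ ⊤) :
    ENNReal.ofReal (a * x.toReal) = ENNReal.ofReal a * x := by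
  rw [ENNReal.ofReal_mul ha, ENNReal.ofReal_toReal hx]

/-- The Poincaré inequality. -/
theorem poincare (hd : 1 ≤ d) {C : ENNReal} (hC : LowerBound d C) (S : Fill d M)
    (hS : S.NonShort) (ht : Top S) {u : M → ℝ} (hu : TestFun S u)
    (hV : nInt S (fun _ _ => 1) ≠ ⊤)
    (h4 : nInt S (fun i p => u ((S.chart i).map p) ^ 4) ≠ ⊤) :
    C ≤ nInt S (fun _ _ => 1) ∧
    ENNReal.ofReal (d + 1) * nInt S (fun i p => u ((S.chart i).map p) ^ 2) ≤
      nInt S (fun i p => gradSq (S.chart i) u p) +
      ENNReal.ofReal ((d + 1) * √(2 * ((nInt S (fun _ _ => 1)).toReal - C.toReal) *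
        (nInt S (fun i p => u ((S.chart i).map p) ^ 4)).toReal)) := by
  have hCV : C ≤ nInt S (fun _ _ => 1) := by
    have hm := masterC hC S hS ht (u := fun _ => 0) continuous_const
      (fun i => contDiffOn_const) (fun _ => rfl)
    refine hm.trans (grVolN_le S ?_ continuous_const)
    intro i p hp
    have h1 := gradSq_nonneg (S.chart i) (fun _ : M => (0:ℝ)) hp.1
    have h2 : gradSq (S.chart i) (fun _ : M => (0:ℝ)) p = 0 := by
      have h3 : dvec (S.chart i) (fun _ : M => (0:ℝ)) p = 0 := by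
        funext j
        unfold dvec
        simp
      unfold gradSq
      rw [h3]
      simp
    rw [h2]
    simp
  refine ⟨hCV, ?_⟩
  set V := nInt S (fun _ _ => (1:ℝ)) with hVd
  set I2 := nInt S (fun i p => u ((S.chart i).map p) ^ 2) with hI2
  set I4 := nInt S (fun i p => u ((S.chart i).map p) ^ 4) with hI4
  set G := nInt S (fun i p => gradSq (S.chart i) u p) with hG
  by_cases hGt : G = ⊤
  · rw [hGt, top_add]
    exact le_top
  have hCt : C ≠ ⊤ := ne_top_of_le_ne_top hV hCV
  have hp := fun t (ht0 : 0 < t) => param hd hC S hS ht hu (t := t) ht0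
  have hI2t : I2 ≠ ⊤ := by
    intro h
    have h1 := hp 1 one_pos
    rw [← hI2, ← hI4, ← hG, ← hVd, h, ENNReal.mul_top (by
      rw [Ne, ENNReal.ofReal_eq_zero, not_le]; positivity)] at h1
    have h2 : V + (ENNReal.ofReal ((d + 1) ^ 2 / 8 * 1 ^ 2) * I4 +
        ENNReal.ofReal (1 / 2) * G) ≠ ⊤ := by
      refine ENNReal.add_ne_top.2 ⟨hV, ENNReal.add_ne_top.2 ⟨?_, ?_⟩⟩
      · exact ENNReal.mul_ne_top ENNReal.ofReal_ne_top h4
      · exact ENNReal.mul_ne_top ENNReal.ofReal_ne_top hGt
    rw [add_top, top_le_iff] at h1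
    exact h2 h1
  have hreal : ∀ t : ℝ, 0 < t → ((d + 1) / 2 * I2.toReal - G.toReal / 2) * t ≤
      (V.toReal - C.toReal) + ((d + 1) ^ 2 / 8 * I4.toReal) * t ^ 2 := by
    intro t ht0
    have h1 := hp t ht0
    rw [← hI2, ← hI4, ← hG, ← hVd] at h1
    have e1 : C + ENNReal.ofReal ((d + 1) / 2 * t) * I2 =
        ENNReal.ofReal (C.toReal + (d + 1) / 2 * t * I2.toReal) := by
      rw [ENNReal.ofReal_add ENNReal.toReal_nonneg (by positivity), ENNReal.ofReal_toReal hCt,
        ofReal_mul_toReal (by positivity) hI2t]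
    have e2 : V + (ENNReal.ofReal ((d + 1) ^ 2 / 8 * t ^ 2) * I4 + ENNReal.ofReal (t / 2) * G) =
        ENNReal.ofReal (V.toReal + ((d + 1) ^ 2 / 8 * t ^ 2 * I4.toReal +
          t / 2 * G.toReal)) := by
      rw [ENNReal.ofReal_add ENNReal.toReal_nonneg (by positivity),
        ENNReal.ofReal_add (by positivity) (by positivity), ENNReal.ofReal_toReal hV,
        ofReal_mul_toReal (by positivity) h4, ofReal_mul_toReal (by positivity) hGt]
    rw [e1, e2, ENNReal.ofReal_le_ofReal_iff (by positivity)] at h1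
    nlinarith
  have hδ : 0 ≤ V.toReal - C.toReal := by
    have := ENNReal.toReal_mono hV hCV
    linarith
  have h5 := opt (by positivity) hδ hreal
  have h6 : 2 * √((V.toReal - C.toReal) * ((d + 1) ^ 2 / 8 * I4.toReal)) =
      (d + 1) * √(2 * (V.toReal - C.toReal) * I4.toReal) / 2 := by
    have e3 : (V.toReal - C.toReal) * ((d + 1) ^ 2 / 8 * I4.toReal) =
        ((d + 1) / 4) ^ 2 * (2 * (V.toReal - C.toReal) * I4.toReal) := by ring
    rw [e3, Real.sqrt_mul (by positivity), Real.sqrt_sq (by positivity)]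
    ring
  rw [h6] at h5
  have h7 : (d + 1) * I2.toReal ≤ G.toReal +
      (d + 1) * √(2 * (V.toReal - C.toReal) * I4.toReal) := by linarith
  have e4 : ENNReal.ofReal (d + 1) * I2 = ENNReal.ofReal ((d + 1) * I2.toReal) := by
    rw [ENNReal.ofReal_mul (by positivity), ENNReal.ofReal_toReal hI2t]
  have e5 : G + ENNReal.ofReal ((d + 1) * √(2 * (V.toReal - C.toReal) * I4.toReal)) =
      ENNReal.ofReal (G.toReal + (d + 1) * √(2 * (V.toReal - C.toReal) * I4.toReal)) := by
    rw [ENNReal.ofReal_add ENNReal.toReal_nonneg (by positivity), ENNReal.ofReal_toReal hGt]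
  rw [e4, e5]
  exact ENNReal.ofReal_le_ofReal h7

end Pool.Agent.H37.CG
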