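import Pool.Graph.R_seed8.TH599.SU.Trig

/-!
# Lengths of curves in the spherical suspension, with variable heights
-/

set_option autoImplicit false

open Real Set MeasureTheory Filter Topology

namespace Pool.Agent.H37.CG

open Pool.Agent.TH599.SU

/-- spherical distances are at most the lengths of curves -/
lemma len_cont (h k ρ : ℝ → ℝ) (hk : Continuous k) (hh : ∀ t, HasDerivAt h (k t) t)
    (hρ : Continuous ρ) (a : ℝ)
    (ha0 : 0 ≤ a) (ha : a ≤ ∫ t in (0:ℝ)..1, ρ t) :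
    sd (h 0) (h 1) a ≤ ∫ t in (0:ℝ)..1, √(k t ^ 2 + sin (h t) ^ 2 * ρ t ^ 2) := by
  set R := ∫ t in (0:ℝ)..1, ρ t with hR
  obtain ⟨l, hl0, hl1, hlR⟩ : ∃ l : ℝ, 0 ≤ l ∧ l ≤ 1 ∧ l * R = a := by
    rcases eq_or_ne R 0 with h | h
    · exact ⟨0, le_rfl, zero_le_one, by rw [h] at ha; rw [zero_mul]; linarith⟩
    · have hRp : 0 < R := lt_of_le_of_ne (ha0.trans ha) (Ne.symm h)
      exact ⟨a / R, div_nonneg ha0 hRp.le, (div_le_one hRp).2 ha, div_mul_cancel₀ _ h⟩
  set r : ℝ → ℝ := fun t => l * ∫ u in (0:ℝ)..t, ρ u with hr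
  set c : ℝ → ℝ := fun t => cos (h 0) * cos (h t) + sin (h 0) * sin (h t) * cos (r t) with hc
  set v : ℝ → ℝ := fun t => √(k t ^ 2 + sin (h t) ^ 2 * ρ t ^ 2) with hv
  have hhc : Continuous h := continuous_iff_continuousAt.2 fun t => (hh t).continuousAt
  have hrd : ∀ t, HasDerivAt r (l * ρ t) t := by
    intro t
    exact (intervalIntegral.integral_hasDerivAt_right (hρ.intervalIntegrable _ _)
      (hρ.stronglyMeasurableAtFilter _ _) hρ.continuousAt).const_mul l
  have hcd : ∀ t, HasDerivAt c (k t * (-(cos (h 0) * sin (h t)) + sin (h 0) * cos (h t) *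
      cos (r t)) - (l * ρ t * sin (h t)) * (sin (h 0) * sin (r t))) t := by
    intro t
    have h1 := ((hh t).cos.const_mul (cos (h 0))).add
      (((hh t).sin.const_mul (sin (h 0))).mul (hrd t).cos)
    refine h1.congr_deriv ?_
    ring
  have hvc : Continuous v :=
    ((hk.pow 2).add (((continuous_sin.comp hhc).pow 2).mul (hρ.pow 2))).sqrt
  have hv0 : ∀ t, 0 ≤ v t := fun t => sqrt_nonneg _
  have hvd : ∀ t, HasDerivAt (fun t => ∫ u in (0:ℝ)..t, v u) (v t) t := by
    intro t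
    exact intervalIntegral.integral_hasDerivAt_right (hvc.intervalIntegrable _ _)
      (hvc.stronglyMeasurableAtFilter _ _) hvc.continuousAt
  -- the main estimate
  have hest : ∀ t, (k t * (-(cos (h 0) * sin (h t)) + sin (h 0) * cos (h t) *
      cos (r t)) - (l * ρ t * sin (h t)) * (sin (h 0) * sin (r t))) ^ 2 ≤
      (1 - c t ^ 2) * v t ^ 2 := by
    intro t
    have h1 := key_id (h 0) (h t) (r t)
    have h2 : v t ^ 2 = k t ^ 2 + sin (h t) ^ 2 * ρ t ^ 2 := by
      rw [hv]; exact sq_sqrt (by positivity)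
    have h3 : 1 - c t ^ 2 = (-(cos (h 0) * sin (h t)) + sin (h 0) * cos (h t) * cos (r t)) ^ 2 +
        (sin (h 0) * sin (r t)) ^ 2 := by
      rw [hc]; linarith
    rw [h2, h3]
    set A := -(cos (h 0) * sin (h t)) + sin (h 0) * cos (h t) * cos (r t)
    set B := sin (h 0) * sin (r t)
    have h4 : (k t * A - (l * ρ t * sin (h t)) * B) ^ 2 ≤
        (A ^ 2 + B ^ 2) * (k t ^ 2 + (l * ρ t * sin (h t)) ^ 2) := by
      nlinarith [sq_nonneg (k t * B + (l * ρ t * sin (h t)) * A)]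
    refine h4.trans (mul_le_mul_of_nonneg_left ?_ (by positivity))
    have h5 : l ^ 2 ≤ 1 := by nlinarith
    have h6 : (l * ρ t * sin (h t)) ^ 2 = l ^ 2 * (sin (h t) ^ 2 * ρ t ^ 2) := by ring
    rw [h6]
    have h7 : 0 ≤ sin (h t) ^ 2 * ρ t ^ 2 := by positivity
    nlinarith
  have hc1 : ∀ t, c t ^ 2 ≤ 1 := fun t => arg_sq_le _ _ _
  have hk' : ∀ κ : ℝ, 0 < κ → κ < 1 → arccos (κ * c 1) ≤ arccos κ + ∫ u in (0:ℝ)..1, v u := by
    intro κ hκ0 hκ1
    set Φ : ℝ → ℝ := fun t => arccos (κ * c t) - ∫ u in (0:ℝ)..t, v u with hΦ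
    have hkc : ∀ t, (κ * c t) ^ 2 < 1 := by
      intro t
      have := hc1 t
      have h1 : κ ^ 2 < 1 := by nlinarith
      nlinarith [sq_nonneg (c t)]
    have hΦd : ∀ t, HasDerivAt Φ (-(1 / √(1 - (κ * c t) ^ 2)) *
        (κ * (k t * (-(cos (h 0) * sin (h t)) + sin (h 0) * cos (h t) * cos (r t)) -
      (l * ρ t * sin (h t)) * (sin (h 0) * sin (r t)))) - v t) t := by
      intro t
      have h1 : κ * c t ≠ -1 := by
        intro h; have := hkc t; rw [h] at this; norm_num at this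
      have h2 : κ * c t ≠ 1 := by
        intro h; have := hkc t; rw [h] at this; norm_num at this
      exact ((hasDerivAt_arccos h1 h2).comp t ((hcd t).const_mul κ)).sub (hvd t)
    have hΦn : ∀ t, deriv Φ t ≤ 0 := by
      intro t
      rw [(hΦd t).deriv]
      set D := k t * (-(cos (h 0) * sin (h t)) + sin (h 0) * cos (h t) * cos (r t)) -
        (l * ρ t * sin (h t)) * (sin (h 0) * sin (r t)) with hD
      have h1 : D ^ 2 ≤ (1 - c t ^ 2) * v t ^ 2 := hest t
      have h2 : 0 < 1 - (κ * c t) ^ 2 := by linarith [hkc t]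
      set q := √(1 - (κ * c t) ^ 2) with hq
      have hq0 : 0 < q := sqrt_pos.2 h2
      have hq2 : q ^ 2 = 1 - (κ * c t) ^ 2 := sq_sqrt h2.le
      have h3 : |κ * D| ≤ q * v t := by
        apply abs_le_of_sq_le_sq _ (mul_nonneg hq0.le (hv0 t))
        have h4 : (κ * D) ^ 2 = κ ^ 2 * D ^ 2 := by ring
        rw [h4, mul_pow, hq2]
        have h5 : κ ^ 2 * D ^ 2 ≤ κ ^ 2 * ((1 - c t ^ 2) * v t ^ 2) :=
          mul_le_mul_of_nonneg_left h1 (sq_nonneg κ)
        have h6 : κ ^ 2 * ((1 - c t ^ 2) * v t ^ 2) ≤ (1 - (κ * c t) ^ 2) * v t ^ 2 := by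
          have h7 : κ ^ 2 ≤ 1 := by nlinarith
          nlinarith [sq_nonneg (v t)]
        exact h5.trans h6
      have h4 : -(1 / q) * (κ * D) ≤ v t := by
        have h5 : -(κ * D) ≤ q * v t := (neg_le_abs _).trans h3
        calc -(1 / q) * (κ * D) = (1 / q) * (-(κ * D)) := by ring
          _ ≤ (1 / q) * (q * v t) := mul_le_mul_of_nonneg_left h5 (by positivity)
          _ = v t := by field_simp
      linarith
    have hanti : Antitone Φ := antitone_of_deriv_nonpos (fun t => (hΦd t).differentiableAt) hΦn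
    have h1 := hanti (zero_le_one (α := ℝ))
    have e0 : c 0 = 1 := by
      rw [hc, hr]
      simp only [intervalIntegral.integral_same, mul_zero, cos_zero, mul_one]
      nlinarith [sin_sq_add_cos_sq (h 0)]
    simp only [hΦ, e0, mul_one, intervalIntegral.integral_same, sub_zero] at h1
    linarith
  have e1 : c 1 = cos (h 0) * cos (h 1) + sin (h 0) * sin (h 1) * cos a := by
    have h2 : r 1 = a := hlR
    rw [hc]
    simp only [h2]
  have hlim : Tendsto (fun k : ℝ => arccos (k * c 1)) (𝓝[<] 1) (𝓝 (arccos (c 1))) := by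
    have : ContinuousAt (fun k : ℝ => arccos (k * c 1)) 1 := by fun_prop
    have h2 := this.tendsto
    rw [one_mul] at h2
    exact h2.mono_left nhdsWithin_le_nhds
  have hlim2 : Tendsto (fun k : ℝ => arccos k + ∫ u in (0:ℝ)..1, v u) (𝓝[<] 1)
      (𝓝 (∫ u in (0:ℝ)..1, v u)) := by
    have : ContinuousAt (fun k : ℝ => arccos k + ∫ u in (0:ℝ)..1, v u) 1 := by fun_prop
    have h2 := this.tendsto
    rw [arccos_one, zero_add] at h2
    exact h2.mono_left nhdsWithin_le_nhds
  have hfin := le_of_tendsto_of_tendsto hlim hlim2 (by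
    have h1 : ∀ᶠ k : ℝ in 𝓝[<] 1, k ∈ Ioo (0:ℝ) 1 := Ioo_mem_nhdsLT zero_lt_one
    filter_upwards [h1] with k hk''
    exact hk' k hk''.1 hk''.2)
  unfold sd
  rw [← e1]
  exact hfin

/-- the same for curves which are given on the unit interval only -/
lemma len_seg (h k ρ : ℝ → ℝ) (hk : ContinuousOn k (Icc 0 1))
    (hh : ∀ t ∈ Icc (0:ℝ) 1, HasDerivAt h (k t) t) (hρ : ContinuousOn ρ (Icc 0 1)) (a : ℝ)
    (ha0 : 0 ≤ a) (ha : a ≤ ∫ t in (0:ℝ)..1, ρ t) :
    sd (h 0) (h 1) a ≤ ∫ t in (0:ℝ)..1, √(k t ^ 2 + sin (h t) ^ 2 * ρ t ^ 2) := by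
  set p : ℝ → ℝ := fun t => max 0 (min t 1) with hp
  have hpc : Continuous p := by fun_prop
  have hpm : ∀ t, p t ∈ Icc (0:ℝ) 1 := fun t =>
    ⟨le_max_left _ _, max_le zero_le_one (min_le_right _ _)⟩
  have hpe : ∀ t ∈ Icc (0:ℝ) 1, p t = t := by
    rintro t ⟨h0, h1⟩
    rw [hp]; simp only [min_eq_left h1, max_eq_right h0]
  have hcρ : Continuous (fun t => ρ (p t)) := hρ.comp_continuous hpc hpm
  have hck : Continuous (fun t => k (p t)) := hk.comp_continuous hpc hpm
  set g : ℝ → ℝ := fun t => h 0 + ∫ u in (0:ℝ)..t, k (p u) with hg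
  have hgd : ∀ t, HasDerivAt g (k (p t)) t := by
    intro t
    exact (intervalIntegral.integral_hasDerivAt_right (hck.intervalIntegrable _ _)
      (hck.stronglyMeasurableAtFilter _ _) hck.continuousAt).const_add _
  have hge : ∀ t ∈ Icc (0:ℝ) 1, g t = h t := by
    rintro t ⟨h0, h1⟩
    have e1 : ∫ u in (0:ℝ)..t, k (p u) = ∫ u in (0:ℝ)..t, k u := by
      apply intervalIntegral.integral_congr
      intro u hu
      rw [uIcc_of_le h0] at hu
      simp only [hpe u ⟨hu.1, hu.2.trans h1⟩]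
    have e2 : ∫ u in (0:ℝ)..t, k u = h t - h 0 := by
      apply intervalIntegral.integral_eq_sub_of_hasDerivAt
      · intro u hu
        rw [uIcc_of_le h0] at hu
        exact hh u ⟨hu.1, hu.2.trans h1⟩
      · apply ContinuousOn.intervalIntegrable
        rw [uIcc_of_le h0]
        exact hk.mono (Icc_subset_Icc le_rfl h1)
    rw [hg]
    simp only
    rw [e1, e2]
    ring
  have e1 : ∫ t in (0:ℝ)..1, ρ (p t) = ∫ t in (0:ℝ)..1, ρ t := by
    apply intervalIntegral.integral_congr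
    intro t ht
    rw [uIcc_of_le zero_le_one] at ht
    simp only [hpe t ht]
  have h := len_cont g (fun t => k (p t)) (fun t => ρ (p t)) hck hgd hcρ a ha0 (by
    rw [e1]; exact ha)
  rw [hge 0 ⟨le_rfl, zero_le_one⟩, hge 1 ⟨zero_le_one, le_rfl⟩] at h
  refine h.trans (le_of_eq ?_)
  apply intervalIntegral.integral_congr
  intro t ht
  rw [uIcc_of_le zero_le_one] at ht
  simp only [hpe t ht, hge t ht]

end Pool.Agent.H37.CG
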