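import Pool.Agent.H37.CG.Tilt
import Pool.Agent.H37.CG.L2

/-!
# Functions with linear boundary values
-/

set_option autoImplicit false

open MeasureTheory Metric Set Filter Topology Matrix InnerProductGeometry

namespace Pool.Agent.H37.CG

open Pool.Agent.H241R3.FV

variable {M : Type} [MetricSpace M] {d : ℕ}

/-- The integral over the filling of a function which is given in the charts, with respect to the
Riemannian volume. -/
noncomputable def mInt (S : Fill d M) (w : (i : S.ι) → E (d + 1) → ℝ) : ENNReal :=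
  ∑' i, ∫⁻ p in (S.chart i).D, ENNReal.ofReal (w i p * √((S.chart i).G p).det)

/-- `u` is continuous, continuously differentiable in all charts, and has the value `⟨a, x⟩` at the
boundary point `x`. -/
structure LinFun (S : Fill d M) (a : E (d + 1)) (u : M → ℝ) : Prop where
  cont : Continuous u
  smooth : ∀ i, ContDiffOn ℝ 1 (fun p => u ((S.chart i).map p)) (S.chart i).U
  value : ∀ x, u (S.bd x) = inner ℝ a (x : E (d + 1))

/-- the height of the graph -/
noncomputable def atn (u : M → ℝ) (hu : Continuous u) : Ht M where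
  f := fun q => Real.arctan (u q)
  cont := Real.continuous_arctan.comp hu
  bdd := fun _ => abs_le.2 ⟨(Real.neg_pi_div_two_lt_arctan _).le, (Real.arctan_lt_pi_div_two _).le⟩

lemma part_atn (C : RChart (d + 1) M) {u : M → ℝ} (hu : Continuous u) :
    part C (atn u hu).f (Real.pi / 2) = C.U := by
  ext p
  refine ⟨fun h => h.1, fun h => ⟨h, ?_⟩⟩
  exact abs_lt.2 ⟨Real.neg_pi_div_two_lt_arctan _, Real.arctan_lt_pi_div_two _⟩

lemma c1_atn (C : RChart (d + 1) M) {u : M → ℝ} (hu : Continuous u)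
    (h : ContDiffOn ℝ 1 (fun p => u (C.map p)) C.U) : C1On C (atn u hu).f (Real.pi / 2) := by
  unfold C1On
  rw [part_atn]
  exact h.arctan

/-- the density of the volume of the graph of `arctan u` -/
noncomputable def tdens (d : ℕ) (u : M → ℝ) (C : RChart (d + 1) M) (p : E (d + 1)) : ℝ :=
  √(1 + u (C.map p) ^ 2 + gradSq C u p) / √(1 + u (C.map p) ^ 2) ^ (d + 2)

lemma gradSq_atn (C : RChart (d + 1) M) {u : M → ℝ}
    (h : ContDiffOn ℝ 1 (fun p => u (C.map p)) C.U) {p : E (d + 1)} (hp : p ∈ C.U) :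
    gradSq C (fun q => Real.arctan (u q)) p =
      (1 / (1 + u (C.map p) ^ 2)) ^ 2 * gradSq C u p := by
  have h1 : HasFDerivAt (fun z => u (C.map z)) (fderiv ℝ (fun z => u (C.map z)) p) p :=
    ((h.differentiableOn one_ne_zero).differentiableAt (C.isOpen_U.mem_nhds hp)).hasFDerivAt
  have h2 : dvec C (fun q => Real.arctan (u q)) p =
      (1 / (1 + u (C.map p) ^ 2)) • dvec C u p := by
    funext j
    unfold dvec
    rw [h1.arctan.fderiv]
    simp
  unfold gradSq
  rw [h2, Matrix.mulVec_smul, dotProduct_smul, smul_dotProduct, smul_eq_mul, smul_eq_mul]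
  ring

lemma dens_atn (C : RChart (d + 1) M) {u : M → ℝ}
    (h : ContDiffOn ℝ 1 (fun p => u (C.map p)) C.U) {p : E (d + 1)} (hp : p ∈ C.U) :
    dens d (fun q => Real.arctan (u q)) C p = tdens d u C p * √(C.G p).det := by
  unfold dens tdens
  rw [gradSq_atn C h hp]
  simp only
  rw [Real.cos_arctan]
  congr 1
  set x := u (C.map p) ^ 2 with hx
  set y := gradSq C u p with hy
  have hx0 : 0 ≤ x := by positivity
  have hy0 : 0 ≤ y := gradSq_nonneg C u hp
  have hs : 0 < √(1 + x) := by positivity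
  have hs2 : √(1 + x) ^ 2 = 1 + x := Real.sq_sqrt (by positivity)
  have e : (1 / √(1 + x)) ^ 2 + (1 / (1 + x)) ^ 2 * y = (1 + x + y) / (√(1 + x) ^ 2) ^ 2 := by
    rw [div_pow, hs2]
    field_simp
  rw [e, Real.sqrt_div (by positivity), Real.sqrt_sq (by positivity), div_pow, one_pow]
  field_simp
  ring

/-- The inequality for the graphs of functions with linear boundary values. -/
theorem graphLinear [CompactSpace M] {C : ENNReal} (hC : LowerBound d C) (S : Fill d M)
    (hS : S.NonShort) (hT : S.Triangulated ∨ S.NoRetraction) {a : E (d + 1)} {u : M → ℝ}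
    (hu : LinFun S a u) : C ≤ mInt S (fun i p => tdens d u (S.chart i) p) := by
  have h := masterTilt hC S hS hT a (atn u hu.cont) (fun i => c1_atn _ hu.cont (hu.smooth i))
    (fun x => by
      change Real.arctan (u (S.bd x)) = _
      rw [hu.value])
  refine h.trans (le_of_eq ?_)
  unfold grVol mInt
  refine tsum_congr fun i => ?_
  have e : (S.chart i).D ∩ part (S.chart i) (atn u hu.cont).f (Real.pi / 2) = (S.chart i).D := by
    rw [part_atn]
    exact inter_eq_left.2 (S.chart i).D_sub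
  rw [e]
  refine setLIntegral_congr_fun (S.chart i).meas_D ?_
  intro p hp
  have h1 := dens_atn (S.chart i) (hu.smooth i) ((S.chart i).D_sub hp)
  change ENNReal.ofReal (dens d (fun q => Real.arctan (u q)) (S.chart i) p) = _
  rw [h1]

lemma log_bound {x : ℝ} (hx : 0 ≤ x) : x - x ^ 2 / 2 ≤ Real.log (1 + x) := by
  refine le_trans ?_ (Real.le_log_one_add_of_nonneg hx)
  rw [le_div_iff₀ (by positivity)]
  nlinarith [pow_nonneg hx 3]

lemma pow_bound {x : ℝ} (hx : 0 ≤ x) (m : ℕ) :
    (√(1 + x) ^ m)⁻¹ ≤ 1 - m / 2 * x + m * (m + 2) / 8 * x ^ 2 := by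
  set L := Real.log (1 + x) with hL
  have h1 := log_bound hx
  have h2 : L ≤ x := by
    have := Real.log_le_sub_one_of_pos (show 0 < 1 + x by positivity)
    linarith
  have h0 : 0 ≤ L := Real.log_nonneg (by linarith)
  have e : (√(1 + x) ^ m)⁻¹ = Real.exp (-(m / 2 * L)) := by
    have e1 : √(1 + x) = Real.exp (L / 2) := by
      rw [Real.sqrt_eq_iff_mul_self_eq (by positivity) (Real.exp_pos _).le, ← Real.exp_add,
        add_halves, hL, Real.exp_log (by positivity)]
    rw [e1, ← Real.exp_nat_mul, ← Real.exp_neg]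
    congr 1
    ring
  rw [e]
  have h3 := exp_neg_le (y := m / 2 * L) (by positivity)
  refine h3.trans ?_
  have hm : (0 : ℝ) ≤ m := Nat.cast_nonneg m
  have h4 : L ^ 2 ≤ x ^ 2 := pow_le_pow_left₀ h0 h2 2
  have h5 : (m : ℝ) / 2 * (x - L) ≤ m / 2 * (x ^ 2 / 2) :=
    mul_le_mul_of_nonneg_left (by linarith) (by positivity)
  have h6 : (m : ℝ) ^ 2 / 8 * L ^ 2 ≤ m ^ 2 / 8 * x ^ 2 :=
    mul_le_mul_of_nonneg_left h4 (by positivity)
  nlinarith

/-- the bound for the density -/
lemma tdens_le {d : ℕ} {x y : ℝ} (hx : 0 ≤ x) (hy : 0 ≤ y) :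
    √(1 + x + y) / √(1 + x) ^ (d + 2) ≤
      1 - (d + 1) / 2 * x + (d + 1) * (d + 3) / 8 * x ^ 2 + y / 2 := by
  have hs : 1 ≤ √(1 + x) := by
    rw [Real.one_le_sqrt]
    linarith
  have hs2 : √(1 + x) ^ 2 = 1 + x := Real.sq_sqrt (by positivity)
  set s := √(1 + x) with hsd
  have hs0 : 0 < s := by linarith
  have h1 : √(1 + x + y) ≤ s + y / (2 * s) := by
    rw [Real.sqrt_le_left (by positivity)]
    have e : (s + y / (2 * s)) ^ 2 = s ^ 2 + y + (y / (2 * s)) ^ 2 := by
      field_simp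
      ring
    rw [e, hs2]
    nlinarith [sq_nonneg (y / (2 * s))]
  have h2 : √(1 + x + y) / s ^ (d + 2) ≤ (s + y / (2 * s)) / s ^ (d + 2) := by
    gcongr
  have h3 : (s + y / (2 * s)) / s ^ (d + 2) = (s ^ (d + 1))⁻¹ + y / 2 * (s ^ (d + 3))⁻¹ := by
    field_simp
    ring
  have h4 : (s ^ (d + 3))⁻¹ ≤ 1 := inv_le_one_of_one_le₀ (one_le_pow₀ hs)
  have h5 := pow_bound hx (d + 1)
  rw [← hsd] at h5
  push_cast at h5
  have h6 : y / 2 * (s ^ (d + 3))⁻¹ ≤ y / 2 := mul_le_of_le_one_right (by positivity) h4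
  have e2 : ((d : ℝ) + 1) * (d + 1 + 2) / 8 * x ^ 2 = (d + 1) * (d + 3) / 8 * x ^ 2 := by ring
  rw [e2] at h5
  linarith

lemma tquad_nonneg (d : ℕ) {x y : ℝ} (hx : 0 ≤ x) (hy : 0 ≤ y) :
    0 ≤ 1 - (d + 1) / 2 * x + (d + 1) * (d + 3) / 8 * x ^ 2 + y / 2 :=
  le_trans (by positivity) (tdens_le (d := d) hx hy)

lemma aemM (S : Fill d M) (i : S.ι) {F : E (d + 1) → ℝ} (hF : ContinuousOn F (S.chart i).U) :
    AEMeasurable (fun p => ENNReal.ofReal (F p * √((S.chart i).G p).det))
      (volume.restrict (S.chart i).D) := by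
  apply AEMeasurable.ennreal_ofReal
  exact ((hF.mul (sqrtdet_cont (S.chart i))).mono (S.chart i).D_sub).aemeasurable
    (S.chart i).meas_D

/-- sums of integrals -/
lemma mInt_add (S : Fill d M) {v w : (i : S.ι) → E (d + 1) → ℝ}
    (hv : ∀ i, ContinuousOn (v i) (S.chart i).U)
    (hv0 : ∀ i, ∀ p ∈ (S.chart i).U, 0 ≤ v i p) (hw0 : ∀ i, ∀ p ∈ (S.chart i).U, 0 ≤ w i p) :
    mInt S (fun i p => v i p + w i p) = mInt S v + mInt S w := by
  unfold mInt
  rw [← ENNReal.tsum_add]
  refine tsum_congr fun i => ?_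
  rw [← lintegral_add_left' (aemM S i (hv i))]
  refine setLIntegral_congr_fun (S.chart i).meas_D ?_
  intro p hp
  have hp' := (S.chart i).D_sub hp
  have h1 := det_nonneg (S.chart i) p
  simp only
  rw [← ENNReal.ofReal_add (mul_nonneg (hv0 i p hp') h1) (mul_nonneg (hw0 i p hp') h1), add_mul]

lemma mInt_smul (S : Fill d M) {c : ℝ} (hc : 0 ≤ c) (w : (i : S.ι) → E (d + 1) → ℝ) :
    mInt S (fun i p => c * w i p) = ENNReal.ofReal c * mInt S w := by
  unfold mInt
  rw [← ENNReal.tsum_mul_left]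
  refine tsum_congr fun i => ?_
  rw [← lintegral_const_mul' _ _ ENNReal.ofReal_ne_top]
  congr 1
  ext p
  rw [mul_assoc, ENNReal.ofReal_mul hc]

lemma mInt_mono (S : Fill d M) {v w : (i : S.ι) → E (d + 1) → ℝ}
    (h : ∀ i, ∀ p ∈ (S.chart i).U, v i p ≤ w i p) : mInt S v ≤ mInt S w := by
  unfold mInt
  refine ENNReal.tsum_le_tsum fun i => ?_
  refine setLIntegral_mono' (S.chart i).meas_D ?_
  intro p hp
  apply ENNReal.ofReal_le_ofReal
  exact mul_le_mul_of_nonneg_right (h i p ((S.chart i).D_sub hp)) (Real.sqrt_nonneg _)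

lemma mInt_one (S : Fill d M) : mInt S (fun _ _ => 1) = S.vol := by
  unfold mInt Fill.vol
  refine tsum_congr fun i => ?_
  congr 1
  ext p
  rw [one_mul]

/-- the inequality with a parameter -/
lemma paramL [CompactSpace M] {C : ENNReal} (hC : LowerBound d C) (S : Fill d M)
    (hS : S.NonShort) (hT : S.Triangulated ∨ S.NoRetraction) {a : E (d + 1)} {u : M → ℝ}
    (hu : LinFun S a u) {t : ℝ} (ht0 : 0 < t) :
    C + ENNReal.ofReal ((d + 1) / 2 * t) * mInt S (fun i p => u ((S.chart i).map p) ^ 2) ≤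
      S.vol + (ENNReal.ofReal ((d + 1) * (d + 3) / 8 * t ^ 2) *
        mInt S (fun i p => u ((S.chart i).map p) ^ 4) +
        ENNReal.ofReal (t / 2) * mInt S (fun i p => gradSq (S.chart i) u p)) := by
  set ε := √t with hε
  have hε2 : ε ^ 2 = t := Real.sq_sqrt ht0.le
  have hlin : LinFun S (ε • a) (fun q => ε * u q) :=
    ⟨continuous_const.mul hu.cont, fun i => contDiffOn_const.mul (hu.smooth i), fun x => by
      rw [hu.value, real_inner_smul_left]⟩
  have hm := graphLinear hC S hS hT hlin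
  set F : (i : S.ι) → E (d + 1) → ℝ := fun i p =>
    1 - (d + 1) / 2 * (ε * u ((S.chart i).map p)) ^ 2 +
      (d + 1) * (d + 3) / 8 * ((ε * u ((S.chart i).map p)) ^ 2) ^ 2 +
      (t * gradSq (S.chart i) u p) / 2 with hF
  have h2 : mInt S (fun i p => tdens d (fun q => ε * u q) (S.chart i) p) ≤ mInt S F := by
    refine mInt_mono S ?_
    intro i p hp
    have h3 := tdens_le (d := d) (x := (ε * u ((S.chart i).map p)) ^ 2)
      (y := gradSq (S.chart i) (fun q => ε * u q) p) (by positivity)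
      (gradSq_nonneg (S.chart i) _ hp)
    refine h3.trans (le_of_eq ?_)
    rw [hF]
    simp only
    rw [fderiv_smul_fun (S.chart i) (hu.smooth i) hp, hε2]
  have hF0 : ∀ i, ∀ p ∈ (S.chart i).U, 0 ≤ F i p := by
    intro i p hp
    exact tquad_nonneg d (by positivity) (mul_nonneg ht0.le (gradSq_nonneg _ _ hp))
  set b : (i : S.ι) → E (d + 1) → ℝ := fun i p => (d + 1) / 2 * t * u ((S.chart i).map p) ^ 2
    with hb
  have hbc : ∀ i, ContinuousOn (b i) (S.chart i).U := fun i =>
    continuousOn_const.mul ((comp_cont (S.chart i) hu.cont).pow 2)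
  have hb0 : ∀ i, ∀ p ∈ (S.chart i).U, 0 ≤ b i p := fun i p _ => by
    simp only [hb]
    positivity
  have h4 : C + mInt S b ≤ mInt S (fun i p => b i p + F i p) := by
    rw [mInt_add S hbc hb0 hF0, add_comm C]
    gcongr
    exact hm.trans h2
  have h5 : mInt S (fun i p => b i p + F i p) =
      mInt S (fun i p => 1 + ((d + 1) * (d + 3) / 8 * t ^ 2 * u ((S.chart i).map p) ^ 4 +
        t / 2 * gradSq (S.chart i) u p)) := by
    congr 1
    funext i p
    simp only [hb, hF]
    have e1 : (ε * u ((S.chart i).map p)) ^ 2 = t * u ((S.chart i).map p) ^ 2 := by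
      rw [mul_pow, hε2]
    rw [e1]
    ring
  have e6 : mInt S (fun i p => (d + 1) * (d + 3) / 8 * t ^ 2 * u ((S.chart i).map p) ^ 4 +
      t / 2 * gradSq (S.chart i) u p) =
      mInt S (fun i p => (d + 1) * (d + 3) / 8 * t ^ 2 * u ((S.chart i).map p) ^ 4) +
      mInt S (fun i p => t / 2 * gradSq (S.chart i) u p) :=
    mInt_add S (fun i => continuousOn_const.mul ((comp_cont (S.chart i) hu.cont).pow 4))
      (fun _ _ _ => by positivity) (fun i p hp => by
      have := gradSq_nonneg (S.chart i) u hp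
      positivity)
  rw [h5, mInt_add S (fun i => continuousOn_const) (fun _ _ _ => zero_le_one) (fun i p hp => by
      have := gradSq_nonneg (S.chart i) u hp
      positivity), e6, mInt_smul S (by positivity), mInt_smul S (by positivity), mInt_one] at h4
  rw [mInt_smul S (by positivity)] at h4
  exact h4

/-- The inequality of Poincaré for functions with linear boundary values. -/
theorem poincareLinear [CompactSpace M] {C : ENNReal} (hC : LowerBound d C) (S : Fill d M)
    (hS : S.NonShort) (hT : S.Triangulated ∨ S.NoRetraction) {a : E (d + 1)} {u : M → ℝ}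
    (hu : LinFun S a u) (hV : S.vol ≠ ⊤) (h4 : mInt S (fun i p => u ((S.chart i).map p) ^ 4) ≠ ⊤) :
    ENNReal.ofReal (d + 1) * mInt S (fun i p => u ((S.chart i).map p) ^ 2) ≤
      mInt S (fun i p => gradSq (S.chart i) u p) +
      ENNReal.ofReal (√(2 * (d + 1) * (d + 3) * (S.vol.toReal - C.toReal) *
        (mInt S (fun i p => u ((S.chart i).map p) ^ 4)).toReal)) := by
  have hCV : C ≤ S.vol := hC M S hS hT
  set V := S.vol with hVd
  set I2 := mInt S (fun i p => u ((S.chart i).map p) ^ 2) with hI2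
  set I4 := mInt S (fun i p => u ((S.chart i).map p) ^ 4) with hI4
  set G := mInt S (fun i p => gradSq (S.chart i) u p) with hG
  by_cases hGt : G = ⊤
  · rw [hGt, top_add]
    exact le_top
  have hCt : C ≠ ⊤ := ne_top_of_le_ne_top hV hCV
  have hp := fun t (ht0 : 0 < t) => paramL hC S hS hT hu (t := t) ht0
  have hI2t : I2 ≠ ⊤ := by
    intro h
    have h1 := hp 1 one_pos
    rw [← hI2, ← hI4, ← hG, ← hVd, h, ENNReal.mul_top (by
      rw [Ne, ENNReal.ofReal_eq_zero, not_le]; positivity)] at h1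
    have h2 : V + (ENNReal.ofReal ((d + 1) * (d + 3) / 8 * 1 ^ 2) * I4 +
        ENNReal.ofReal (1 / 2) * G) ≠ ⊤ := by
      refine ENNReal.add_ne_top.2 ⟨hV, ENNReal.add_ne_top.2 ⟨?_, ?_⟩⟩
      · exact ENNReal.mul_ne_top ENNReal.ofReal_ne_top h4
      · exact ENNReal.mul_ne_top ENNReal.ofReal_ne_top hGt
    rw [add_top, top_le_iff] at h1
    exact h2 h1
  have hreal : ∀ t : ℝ, 0 < t → ((d + 1) / 2 * I2.toReal - G.toReal / 2) * t ≤
      (V.toReal - C.toReal) + ((d + 1) * (d + 3) / 8 * I4.toReal) * t ^ 2 := by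
    intro t ht0
    have h1 := hp t ht0
    rw [← hI2, ← hI4, ← hG, ← hVd] at h1
    have e1 : C + ENNReal.ofReal ((d + 1) / 2 * t) * I2 =
        ENNReal.ofReal (C.toReal + (d + 1) / 2 * t * I2.toReal) := by
      rw [ENNReal.ofReal_add ENNReal.toReal_nonneg (by positivity), ENNReal.ofReal_toReal hCt,
        ofReal_mul_toReal (by positivity) hI2t]
    have e2 : V + (ENNReal.ofReal ((d + 1) * (d + 3) / 8 * t ^ 2) * I4 +
        ENNReal.ofReal (t / 2) * G) =
        ENNReal.ofReal (V.toReal + ((d + 1) * (d + 3) / 8 * t ^ 2 * I4.toReal +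
          t / 2 * G.toReal)) := by
      rw [ENNReal.ofReal_add ENNReal.toReal_nonneg (by positivity),
        ENNReal.ofReal_add (by positivity) (by positivity), ENNReal.ofReal_toReal hV,
        ofReal_mul_toReal (by positivity) h4, ofReal_mul_toReal (by positivity) hGt]
    rw [e1, e2, ENNReal.ofReal_le_ofReal_iff (by positivity)] at h1
    nlinarith
  have hδ : 0 ≤ V.toReal - C.toReal := by
    have := ENNReal.toReal_mono hV hCV
    linarith
  have h5 := opt (by positivity) hδ hreal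
  have h6 : 2 * √((V.toReal - C.toReal) * ((d + 1) * (d + 3) / 8 * I4.toReal)) =
      √(2 * (d + 1) * (d + 3) * (V.toReal - C.toReal) * I4.toReal) / 2 := by
    have e3 : 2 * (d + 1) * (d + 3) * (V.toReal - C.toReal) * I4.toReal =
        4 ^ 2 * ((V.toReal - C.toReal) * ((d + 1) * (d + 3) / 8 * I4.toReal)) := by ring
    rw [e3, Real.sqrt_mul (show (0:ℝ) ≤ 4 ^ 2 by norm_num) (_ * _),
      Real.sqrt_sq (show (0:ℝ) ≤ 4 by norm_num)]
    ring
  rw [h6] at h5
  have h7 : (d + 1) * I2.toReal ≤ G.toReal +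
      √(2 * (d + 1) * (d + 3) * (V.toReal - C.toReal) * I4.toReal) := by linarith
  have e4 : ENNReal.ofReal (d + 1) * I2 = ENNReal.ofReal ((d + 1) * I2.toReal) := by
    rw [ENNReal.ofReal_mul (by positivity), ENNReal.ofReal_toReal hI2t]
  have e5 : G + ENNReal.ofReal (√(2 * (d + 1) * (d + 3) * (V.toReal - C.toReal) * I4.toReal)) =
      ENNReal.ofReal (G.toReal +
        √(2 * (d + 1) * (d + 3) * (V.toReal - C.toReal) * I4.toReal)) := by
    rw [ENNReal.ofReal_add ENNReal.toReal_nonneg (by positivity), ENNReal.ofReal_toReal hGt]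
  rw [e4, e5]
  exact ENNReal.ofReal_le_ofReal h7

end Pool.Agent.H37.CG
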