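import Pool.Agent.H37.CG.GFill
import Pool.Graph.R_pool_sql_team_seeded_2aa45f1a.Q146.FVC.Main
import Pool.Graph.R_pool_sql_team_seeded_3997aac3.Results.MP_aeade1_gt.CompleteFillings

/-!
# The part of the graph near the boundary
-/

set_option autoImplicit false

open MeasureTheory Metric Set Filter Topology Matrix InnerProductGeometry

namespace Pool.Agent.H37.CG

open Pool.Agent.H241R3.FV Pool.Agent.TH599.SU Pool.Agent.Q146.FVC
open Pool.Agent.Results.MP_aeade1_gt.CompleteFillings (NoCollarRetraction hemisphere cst)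

variable {M : Type} [MetricSpace M] {d : ℕ}

/-- The topological hypothesis: `M` is compact and triangulated, or the closed collars of the
boundary of width less than `π/2` are compact and every continuous map `M → S^d` which is constant
on the set of all points at distance at least `π/2` from the boundary fails to be the identity on
the boundary. -/
def Top (S : Fill d M) : Prop :=
  (CompactSpace M ∧ S.Triangulated) ∨
    ((∀ r : ℝ, r < Real.pi / 2 → IsCompact {q : M | infDist q (range S.bd) ≤ r}) ∧
      NoCollarRetraction S)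

/-- the part of a chart at distance less than `π/2` from the boundary -/
def nearD (S : Fill d M) (i : S.ι) : Set (E (d + 1)) :=
  {p | p ∈ (S.chart i).D ∧ infDist ((S.chart i).map p) (range S.bd) < Real.pi / 2}

lemma meas_nearD (S : Fill d M) (i : S.ι) : MeasurableSet (nearD S i) :=
  Pool.Agent.Q183.CF.meas_near S i

lemma nearD_sub (S : Fill d M) (i : S.ι) : nearD S i ⊆ (S.chart i).U := fun _ hp =>
  (S.chart i).D_sub hp.1

/-- the volume of the part of the graph over the collar of width `π/2` -/
noncomputable def grVolN (f : M → ℝ) (S : Fill d M) : ENNReal :=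
  ∑' i, ∫⁻ p in nearD S i ∩ part (S.chart i) f (Real.pi / 2),
    ENNReal.ofReal (dens d f (S.chart i) p)

lemma reduceT {X : Type} [MetricSpace X] [CompactSpace X] {C : ENNReal} (hC : LowerBound d C)
    (S : Fill d X) (hS : S.NonShort) (hT : S.Triangulated) : C ≤ posVol S (depth S) :=
  reduce (fun M _ _ S hS hT => hC M S hS (Or.inl hT)) hS (height_depth S)
    (nearCompact_of (height_depth S) hT)

lemma reduceN {X : Type} [MetricSpace X] {C : ENNReal} (hC : LowerBound d C)
    (S : Fill d X) (hS : S.NonShort) (hc : ∀ δ : ℝ, 0 < δ → IsCompact {q | δ ≤ depth S q})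
    (hR : ¬ ∃ r : X → Sph (d + 1), Continuous r ∧ (∀ x, r (S.bd x) = x) ∧
      ∃ z, ∀ q, depth S q ≤ 0 → r q = z) : C ≤ posVol S (depth S) := by
  have hh := height_depth S
  have h1 := @hC (Col (depth S)) (colMetric hh.lip) (col_compact hh.lip hc) (colFill hh.lip S)
    (nonShort_col hh.lip S hS hh.sum) (Or.inr (by
      letI := colMetric hh.lip
      rintro ⟨r, hr, hr'⟩
      refine hR ⟨fun q => r (pj (depth S) q), hr.comp (pj_lip hh.lip).continuous, hr',
        r Col.far, fun q hq => ?_⟩
      change r (pj (depth S) q) = r Col.far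
      rw [pj_neg (not_lt.2 hq)]))
  rwa [vol_colFill] at h1

lemma dist_lt {θ : Ht M} {q x : M} (hx : θ.f x = 0) {t : ℝ} (ht : t ≤ Real.pi / 2)
    (h : dist (mk θ q) (mk θ x) < t) : dist q x < t := by
  have h0 : 0 ≤ dist (mk θ q) (mk θ x) := dist_nonneg
  rw [dist_mk, hx] at h
  unfold sd at h
  rw [sub_zero, Real.cos_pi_div_two, Real.sin_pi_div_two, Real.sin_pi_div_two_sub, mul_zero,
    zero_add, mul_one] at h
  have ht0 : 0 < t := by
    rw [dist_mk, hx] at h0
    unfold sd at h0
    rw [sub_zero, Real.cos_pi_div_two, Real.sin_pi_div_two, Real.sin_pi_div_two_sub, mul_zero,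
      zero_add, mul_one] at h0
    linarith
  set m := min (dist q x) Real.pi with hm
  have hm0 : 0 ≤ m := le_min dist_nonneg Real.pi_pos.le
  have hmπ : m ≤ Real.pi := min_le_right _ _
  have hb := abs_le.1 (θ.bdd q)
  have hc0 : 0 ≤ Real.cos (θ.f q) := Real.cos_nonneg_of_mem_Icc ⟨hb.1, hb.2⟩
  have hc1 : Real.cos (θ.f q) ≤ 1 := Real.cos_le_one _
  have h2 : Real.cos t < Real.cos (θ.f q) * Real.cos m := by
    by_contra hcon
    rw [not_lt] at hcon
    have h3 := Real.arccos_le_arccos hcon
    rw [Real.arccos_cos ht0.le (by linarith [Real.pi_pos])] at h3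
    linarith
  have h4 : 0 ≤ Real.cos t := Real.cos_nonneg_of_mem_Icc ⟨by linarith [Real.pi_pos], ht⟩
  have h5 : 0 < Real.cos m := by
    by_contra hcon
    rw [not_lt] at hcon
    nlinarith
  have h6 : Real.cos t < Real.cos m := by nlinarith
  have h7 : m < t := by
    by_contra hcon
    rw [not_lt] at hcon
    have := Real.cos_le_cos_of_nonneg_of_le_pi ht0.le hmπ hcon
    linarith
  rcases min_choice (dist q x) Real.pi with h8 | h8
  · rw [← h8]; exact h7
  · rw [hm, h8] at h7
    linarith [Real.pi_pos]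

lemma range_bd_nonempty (S : Fill d M) : (range S.bd).Nonempty :=
  ⟨S.bd ⟨EuclideanSpace.single 0 1, by simp⟩, mem_range_self _⟩

lemma infDist_lt {θ : Ht M} (S : Fill d M) (h1 : ∀ i, C1On (S.chart i) θ.f (Real.pi / 2))
    (hb : ∀ x, θ.f (S.bd x) = 0) {q : M} {t : ℝ} (ht : t ≤ Real.pi / 2)
    (h : infDist (mk θ q) (range (grFill θ S h1).bd) < t) : infDist q (range S.bd) < t := by
  rw [infDist_lt_iff (range_bd_nonempty _)] at h
  obtain ⟨_, ⟨x, rfl⟩, hx⟩ := h
  rw [infDist_lt_iff (range_bd_nonempty _)]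
  exact ⟨S.bd x, mem_range_self x, dist_lt (hb x) ht hx⟩

lemma posVol_gr (θ : Ht M) (S : Fill d M) (h1 : ∀ i, C1On (S.chart i) θ.f (Real.pi / 2))
    (hb : ∀ x, θ.f (S.bd x) = 0) :
    posVol (grFill θ S h1) (depth (grFill θ S h1)) ≤ grVolN θ.f S := by
  set h : Gr θ → ℝ := depth (grFill θ S h1) with hh
  have e : posVol (grFill θ S h1) h =
      ∑' i : {b : Bool // ∃ p, θ.f p = pole b} ⊕ S.ι,
        Sum.elim (fun b : {b : Bool // ∃ p, θ.f p = pole b} =>
          ∫⁻ p in ({0} : Set (E (d + 1))) ∩ {_p | 0 < h (mk θ b.2.choose)},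
        ENNReal.ofReal √((1 : Matrix (Fin (d + 1)) (Fin (d + 1)) ℝ)).det)
        (fun i => ∫⁻ p in ((S.chart i).D ∩ part (S.chart i) θ.f (Real.pi / 2)) ∩
          {p | 0 < h (mk θ ((S.chart i).map p))},
          ENNReal.ofReal √(GT θ (S.chart i) p).det) i := by
    unfold posVol
    refine tsum_congr fun i => ?_
    rcases i with i | i <;> rfl
  rw [e, Summable.tsum_sum ENNReal.summable ENNReal.summable]
  simp only [Sum.elim_inl, Sum.elim_inr]
  have h0 : ∀ b : {b : Bool // ∃ p, θ.f p = pole b},
      ∫⁻ p in ({0} : Set (E (d + 1))) ∩ {_p | 0 < h (mk θ b.2.choose)},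
      ENNReal.ofReal √((1 : Matrix (Fin (d + 1)) (Fin (d + 1)) ℝ)).det = 0 := by
    intro b
    have h1 : (volume : Measure (E (d + 1)))
        (({0} : Set (E (d + 1))) ∩ {_p | 0 < h (mk θ b.2.choose)}) = 0 :=
      measure_mono_null inter_subset_left (measure_singleton 0)
    rw [Measure.restrict_eq_zero.2 h1, lintegral_zero_measure]
  simp only [h0, tsum_zero, zero_add]
  unfold grVolN
  refine ENNReal.tsum_le_tsum fun i => ?_
  have hsub : ((S.chart i).D ∩ part (S.chart i) θ.f (Real.pi / 2)) ∩
      {p | 0 < h (mk θ ((S.chart i).map p))} ⊆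
      nearD S i ∩ part (S.chart i) θ.f (Real.pi / 2) := by
    rintro p ⟨⟨hp1, hp2⟩, hp3⟩
    refine ⟨⟨hp1, ?_⟩, hp2⟩
    have h3 : 0 < Real.pi / 2 - infDist (mk θ ((S.chart i).map p))
        (range (grFill θ S h1).bd) := hp3
    exact infDist_lt S h1 hb le_rfl (by linarith)
  refine (lintegral_mono_set hsub).trans (le_of_eq ?_)
  refine setLIntegral_congr_fun
    ((meas_nearD S i).inter (isOpen_part (S.chart i) θ.cont _).measurableSet) ?_
  intro p hp
  simp only [det_GT θ (S.chart i) hp.2]

/-- The main inequality, for the part of the filling near the boundary. -/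
theorem masterN {C : ENNReal} (hC : LowerBound d C) (S : Fill d M) (hS : S.NonShort)
    (ht : Top S) (θ : Ht M) (h1 : ∀ i, C1On (S.chart i) θ.f (Real.pi / 2))
    (hb : ∀ x, θ.f (S.bd x) = 0) : C ≤ grVolN θ.f S := by
  refine le_trans ?_ (posVol_gr θ S h1 hb)
  have hns := nonShort_gr θ S h1 hS hb
  rcases ht with ⟨hM, hT⟩ | ⟨hc, hr⟩
  · have hcs : CompactSpace (Gr θ) := by
      constructor
      have h2 : (univ : Set (Gr θ)) = mk θ '' univ := by
        rw [image_univ]
        symm
        rw [range_eq_univ]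
        exact fun z => mk_surj θ z
      rw [h2]
      exact isCompact_univ.image (continuous_mk θ)
    exact reduceT hC (grFill θ S h1) hns (triang_gr θ S h1 hT)
  · refine reduceN hC (grFill θ S h1) hns ?_ ?_
    · intro δ hδ
      have h2 : IsCompact (mk θ '' {q : M | infDist q (range S.bd) ≤ Real.pi / 2 - δ / 2}) :=
        (hc _ (by linarith)).image (continuous_mk θ)
      refine h2.of_isClosed_subset
        (isClosed_le continuous_const (height_depth (grFill θ S h1)).lip.continuous) ?_
      intro z hz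
      obtain ⟨q, rfl⟩ := mk_surj θ z
      refine ⟨q, ?_, rfl⟩
      have h3 : δ ≤ Real.pi / 2 - infDist (mk θ q) (range (grFill θ S h1).bd) := hz
      exact (infDist_lt S h1 hb (by linarith) (by linarith)).le
    · rintro ⟨r, hrc, hrb, z, hz⟩
      apply hr
      refine ⟨fun q => r (mk θ q), hrc.comp (continuous_mk θ), fun x => hrb x, z, ?_⟩
      intro q hq
      apply hz
      by_contra hcon
      rw [not_le] at hcon
      have h3 : 0 < Real.pi / 2 - infDist (mk θ q) (range (grFill θ S h1).bd) := hcon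
      have h4 := infDist_lt S h1 hb le_rfl (q := q) (by linarith)
      linarith

/-- the constants of the library -/
theorem lowerBound_cst (hd : 1 ≤ d) : LowerBound d (ENNReal.ofReal (cst d) * hemisphere d) := by
  intro M _ _ S hS hT
  have h := Pool.Agent.Results.MP_aeade1_gt.CompleteFillings.result d hd M S hS (by
    rcases hT with h1 | h1
    · exact Or.inl ⟨inferInstance, h1⟩
    · right
      rintro ⟨r, hr, hb, -⟩
      exact h1 ⟨r, hr, hb⟩)
  exact h.1.trans h.2

end Pool.Agent.H37.CG
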