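import Pool.Agent.H37.CG.GFill

/-!
# Tilting the boundary sphere
-/

set_option autoImplicit false

open MeasureTheory Metric Set Filter Topology InnerProductGeometry

namespace Pool.Agent.H37.CG

open Pool.Agent.H241R3.FV Pool.Agent.TH599.SU

variable {n : ℕ}

/-- the number `1 / √(1 + |a|²)` -/
noncomputable def al (a : E n) : ℝ := 1 / √(1 + ‖a‖ ^ 2)

lemma al_pos (a : E n) : 0 < al a := by
  unfold al
  positivity

lemma al_sq (a : E n) : al a ^ 2 * (1 + ‖a‖ ^ 2) = 1 := by
  unfold al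
  rw [div_pow, Real.sq_sqrt (by positivity), one_pow]
  field_simp

/-- the linear map with `⟨S x, S y⟩ = ⟨x, y⟩ + ⟨a, x⟩ ⟨a, y⟩` -/
noncomputable def Sl (a : E n) : E n →ₗ[ℝ] E n :=
  LinearMap.id + (al a / (1 + al a)) • ((innerSL ℝ a : E n →L[ℝ] ℝ) : E n →ₗ[ℝ] ℝ).smulRight a

/-- its inverse -/
noncomputable def Tl (a : E n) : E n →ₗ[ℝ] E n :=
  LinearMap.id - (al a ^ 2 / (1 + al a)) •
    ((innerSL ℝ a : E n →L[ℝ] ℝ) : E n →ₗ[ℝ] ℝ).smulRight a

lemma Sl_apply (a x : E n) : Sl a x = x + (al a / (1 + al a) * inner ℝ a x) • a := by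
  simp [Sl, smul_smul]

lemma Tl_apply (a x : E n) : Tl a x = x - (al a ^ 2 / (1 + al a) * inner ℝ a x) • a := by
  simp [Tl, smul_smul]

lemma nsq (a : E n) : ‖a‖ ^ 2 = (1 - al a ^ 2) / al a ^ 2 := by
  have h := al_sq a
  have h0 := al_pos a
  field_simp
  linarith

lemma Sl_inner (a x y : E n) : inner ℝ (Sl a x) (Sl a y) =
    inner ℝ x y + inner ℝ a x * inner ℝ a y := by
  rw [Sl_apply, Sl_apply]
  simp only [inner_add_left, inner_add_right, real_inner_smul_left, real_inner_smul_right]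
  rw [real_inner_comm a x, real_inner_self_eq_norm_sq, nsq]
  have h0 := al_pos a
  field_simp
  ring

lemma inner_Sl (a x : E n) : inner ℝ a (Sl a x) = inner ℝ a x / al a := by
  rw [Sl_apply]
  simp only [inner_add_right, real_inner_smul_right]
  rw [real_inner_self_eq_norm_sq, nsq]
  have h0 := al_pos a
  field_simp
  ring

lemma inner_Tl (a x : E n) : inner ℝ a (Tl a x) = inner ℝ a x * al a := by
  rw [Tl_apply]
  simp only [inner_sub_right, real_inner_smul_right]
  rw [real_inner_self_eq_norm_sq, nsq]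
  have h0 := al_pos a
  field_simp
  ring

lemma Tl_Sl (a x : E n) : Tl a (Sl a x) = x := by
  rw [Tl_apply, inner_Sl, Sl_apply, add_sub_assoc, ← sub_smul]
  have h0 := al_pos a
  have e : al a / (1 + al a) * inner ℝ a x - al a ^ 2 / (1 + al a) * (inner ℝ a x / al a) = 0 := by
    field_simp
    ring
  rw [e, zero_smul, add_zero]

lemma Sl_Tl (a x : E n) : Sl a (Tl a x) = x := by
  rw [Sl_apply, inner_Tl, Tl_apply, sub_add, ← sub_smul]
  have h0 := al_pos a
  have e : al a ^ 2 / (1 + al a) * inner ℝ a x - al a / (1 + al a) * (inner ℝ a x * al a) = 0 := by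
    field_simp
    ring
  rw [e, zero_smul, sub_zero]

lemma Sl_norm (a x : E n) : ‖Sl a x‖ ^ 2 = ‖x‖ ^ 2 + inner ℝ a x ^ 2 := by
  rw [← real_inner_self_eq_norm_sq, Sl_inner, real_inner_self_eq_norm_sq]
  ring

lemma Sl_ne {a x : E n} (hx : x ≠ 0) : Sl a x ≠ 0 := by
  intro h
  have := Tl_Sl a x
  rw [h, map_zero] at this
  exact hx this.symm

lemma Tl_ne {a x : E n} (hx : x ≠ 0) : Tl a x ≠ 0 := by
  intro h
  have := Sl_Tl a x
  rw [h, map_zero] at this
  exact hx this.symm

lemma sph_ne (x : Sph n) : (x : E n) ≠ 0 := by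
  intro h
  have := norm_sph x
  rw [h, norm_zero] at this
  exact zero_ne_one this

/-- the normalised image of a point of the sphere -/
noncomputable def nrm (L : E n →ₗ[ℝ] E n) (hL : ∀ x : E n, x ≠ 0 → L x ≠ 0) (x : Sph n) : Sph n :=
  ⟨‖L (x : E n)‖⁻¹ • L (x : E n), by
    have h := norm_ne_zero_iff.2 (hL _ (sph_ne x))
    rw [mem_sphere_zero_iff_norm, norm_smul, norm_inv, norm_norm, inv_mul_cancel₀ h]⟩

lemma nrm_cont (L : E n →ₗ[ℝ] E n) (hL : ∀ x : E n, x ≠ 0 → L x ≠ 0) :
    Continuous (nrm L hL) := by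
  apply Continuous.subtype_mk
  have h1 : Continuous fun x : Sph n => L (x : E n) :=
    (LinearMap.continuous_of_finiteDimensional L).comp continuous_subtype_val
  exact (h1.norm.inv₀ fun x => norm_ne_zero_iff.2 (hL _ (sph_ne x))).smul h1

lemma nrm_nrm (L K : E n →ₗ[ℝ] E n) (hL : ∀ x : E n, x ≠ 0 → L x ≠ 0)
    (hK : ∀ x : E n, x ≠ 0 → K x ≠ 0) (h : ∀ x, K (L x) = x) (x : Sph n) :
    nrm K hK (nrm L hL x) = x := by
  apply Subtype.ext
  change ‖K (‖L (x : E n)‖⁻¹ • L (x : E n))‖⁻¹ • K (‖L (x : E n)‖⁻¹ • L (x : E n)) = (x : E n)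
  rw [map_smul, h, norm_smul, norm_sph, mul_one, norm_inv, norm_norm, inv_inv, smul_smul,
    mul_inv_cancel₀ (norm_ne_zero_iff.2 (hL _ (sph_ne x))), one_smul]

/-- the parametrisation of the tilted sphere -/
noncomputable def psi (a : E n) (x : Sph n) : Sph n := nrm (Sl a) (fun _ h => Sl_ne h) x

/-- its inverse -/
noncomputable def phi (a : E n) (x : Sph n) : Sph n := nrm (Tl a) (fun _ h => Tl_ne h) x

lemma phi_psi (a : E n) (x : Sph n) : phi a (psi a x) = x := nrm_nrm _ _ _ _ (Tl_Sl a) x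

lemma psi_phi (a : E n) (x : Sph n) : psi a (phi a x) = x := nrm_nrm _ _ _ _ (Sl_Tl a) x

lemma psi_inner (a : E n) (x y : Sph n) : inner ℝ (psi a x : E n) (psi a y : E n) =
    (inner ℝ (x : E n) (y : E n) + inner ℝ a (x : E n) * inner ℝ a (y : E n)) /
      (√(1 + inner ℝ a (x : E n) ^ 2) * √(1 + inner ℝ a (y : E n) ^ 2)) := by
  have hn : ∀ z : Sph n, ‖Sl a (z : E n)‖ = √(1 + inner ℝ a (z : E n) ^ 2) := by
    intro z
    rw [← Real.sqrt_sq (norm_nonneg (Sl a (z : E n))), Sl_norm, norm_sph, one_pow]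
  change inner ℝ (‖Sl a (x : E n)‖⁻¹ • Sl a (x : E n)) (‖Sl a (y : E n)‖⁻¹ • Sl a (y : E n)) = _
  rw [real_inner_smul_left, real_inner_smul_right, Sl_inner, hn, hn]
  field_simp

variable {M : Type} [MetricSpace M] {d : ℕ}

/-- a filling with the boundary parametrised by the tilted sphere -/
noncomputable def reFill (a : E (d + 1)) (S : Fill d M) : Fill d M where
  ι := S.ι
  countable := S.countable
  chart := S.chart
  bd := fun z => S.bd (phi a z)
  cover := fun q => by
    rcases S.cover q with ⟨x, hx⟩ | h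
    · left
      exact ⟨psi a x, by rw [phi_psi]; exact hx⟩
    · exact Or.inr h

lemma vol_reFill (a : E (d + 1)) (S : Fill d M) : (reFill a S).vol = S.vol := rfl

lemma noRet_reFill (a : E (d + 1)) (S : Fill d M) (h : S.NoRetraction) :
    (reFill a S).NoRetraction := by
  rintro ⟨r, hr, hb⟩
  apply h
  refine ⟨fun q => phi a (r q), (nrm_cont _ _).comp hr, fun x => ?_⟩
  have h1 : r (S.bd (phi a (psi a x))) = psi a x := hb (psi a x)
  rw [phi_psi] at h1
  change phi a (r (S.bd x)) = x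
  rw [h1, phi_psi]

lemma cone_tilt (a : E (d + 1)) {V : Type} (b : V → Sph (d + 1)) (F : Finset V)
    (y : E (d + 1)) : y ∈ coneOf (fun v => psi a (b v)) F ↔ Tl a y ∈ coneOf b F := by
  constructor
  · rintro ⟨c, hc, rfl⟩
    refine ⟨fun v => c v * ‖Sl a (b v : E (d + 1))‖⁻¹,
      fun v => mul_nonneg (hc v) (inv_nonneg.2 (norm_nonneg _)), ?_⟩
    rw [map_sum]
    refine Finset.sum_congr rfl fun v _ => ?_
    change Tl a (c v • (‖Sl a (b v : E (d + 1))‖⁻¹ • Sl a (b v : E (d + 1)))) = _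
    rw [map_smul, map_smul, Tl_Sl, smul_smul]
  · rintro ⟨c, hc, h⟩
    refine ⟨fun v => c v * ‖Sl a (b v : E (d + 1))‖,
      fun v => mul_nonneg (hc v) (norm_nonneg _), ?_⟩
    have h1 : y = Sl a (Tl a y) := (Sl_Tl a y).symm
    rw [h1, h, map_sum]
    refine Finset.sum_congr rfl fun v _ => ?_
    change _ = (c v * ‖Sl a (b v : E (d + 1))‖) •
      (‖Sl a (b v : E (d + 1))‖⁻¹ • Sl a (b v : E (d + 1)))
    rw [map_smul, smul_smul, mul_assoc,
      mul_inv_cancel₀ (norm_ne_zero_iff.2 (Sl_ne (sph_ne (b v)))), mul_one]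

lemma det_Tl (a : E n) : LinearMap.det (Tl a) ≠ 0 := by
  have h : (Sl a).comp (Tl a) = LinearMap.id := by
    ext1 x
    exact Sl_Tl a x
  have h2 := congrArg LinearMap.det h
  rw [LinearMap.det_comp, LinearMap.det_id] at h2
  exact right_ne_zero_of_mul_eq_one h2

lemma triang_reFill (a : E (d + 1)) (S : Fill d M) (h : S.Triangulated) :
    (reFill a S).Triangulated := by
  intro ε hε
  obtain ⟨T⟩ := h ε hε
  exact ⟨{ V := T.V
           fin := T.fin
           dec := T.dec
           pos := T.pos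
           T := T.T
           card_T := T.card_T
           mesh := T.mesh
           B := T.B
           B_sub := T.B_sub
           face := T.face
           b := fun v => psi a (T.b v)
           b_spec := fun F hF v hv => by
            change S.bd (phi a (psi a (T.b v))) = T.pos v
            rw [phi_psi]
            exact T.b_spec F hF v hv
           tile := by
            have h1 := (MeasureTheory.Measure.LinearMap.quasiMeasurePreserving
              (volume : Measure (E (d + 1))) (Tl a) (det_Tl a)).ae T.tile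
            filter_upwards [h1] with y hy
            obtain ⟨F, ⟨hF, hFy⟩, hu⟩ := hy
            refine ⟨F, ⟨hF, (cone_tilt a T.b F y).2 hFy⟩, ?_⟩
            rintro G ⟨hG, hGy⟩
            exact hu G ⟨hG, (cone_tilt a T.b G y).1 hGy⟩ }⟩

/-- the tilted boundary sphere of the graph has no shortcuts -/
lemma nonShort_tilt (a : E (d + 1)) (θ : Ht M) (S : Fill d M)
    (h1 : ∀ i, C1On (S.chart i) θ.f (Real.pi / 2)) (hS : S.NonShort)
    (hb : ∀ x : Sph (d + 1), θ.f (S.bd x) = Real.arctan (inner ℝ a (x : E (d + 1)))) :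
    (reFill a (grFill θ S h1)).NonShort := by
  have key : ∀ x y : Sph (d + 1), angle (psi a x : E (d + 1)) (psi a y : E (d + 1)) ≤
      dist (mk θ (S.bd x)) (mk θ (S.bd y)) := by
    intro x y
    rw [dist_mk, hb, hb]
    unfold sd angle
    rw [norm_sph, norm_sph, mul_one, div_one, psi_inner]
    apply Real.arccos_le_arccos
    rw [Real.cos_pi_div_two_sub, Real.cos_pi_div_two_sub, Real.sin_pi_div_two_sub,
      Real.sin_pi_div_two_sub, Real.sin_arctan, Real.sin_arctan, Real.cos_arctan,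
      Real.cos_arctan]
    have h2 : Real.cos (min (dist (S.bd x) (S.bd y)) Real.pi) ≤
        inner ℝ (x : E (d + 1)) (y : E (d + 1)) := by
      have h3 : angle (x : E (d + 1)) (y : E (d + 1)) ≤
          min (dist (S.bd x) (S.bd y)) Real.pi := le_min (hS x y) (angle_le_pi _ _)
      have h4 := Real.cos_le_cos_of_nonneg_of_le_pi (angle_nonneg _ _) (min_le_right _ _) h3
      rw [cos_angle, norm_sph, norm_sph, mul_one, div_one] at h4
      exact h4
    set u := inner ℝ a (x : E (d + 1))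
    set v := inner ℝ a (y : E (d + 1))
    have hu : 0 < √(1 + u ^ 2) := by positivity
    have hv : 0 < √(1 + v ^ 2) := by positivity
    have e : (inner ℝ (x : E (d + 1)) (y : E (d + 1)) + u * v) / (√(1 + u ^ 2) * √(1 + v ^ 2)) =
        u / √(1 + u ^ 2) * (v / √(1 + v ^ 2)) + 1 / √(1 + u ^ 2) * (1 / √(1 + v ^ 2)) *
          inner ℝ (x : E (d + 1)) (y : E (d + 1)) := by
      field_simp
      ring
    rw [e]
    have h3 : 0 ≤ 1 / √(1 + u ^ 2) * (1 / √(1 + v ^ 2)) := by positivity
    have h4 := mul_le_mul_of_nonneg_left h2 h3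
    linarith
  intro z z'
  have h := key (phi a z) (phi a z')
  rw [psi_phi, psi_phi] at h
  exact h

/-- The inequality for functions with linear boundary values. -/
theorem masterTilt [CompactSpace M] {C : ENNReal} (hC : LowerBound d C) (S : Fill d M)
    (hS : S.NonShort) (hT : S.Triangulated ∨ S.NoRetraction) (a : E (d + 1)) (θ : Ht M)
    (h1 : ∀ i, C1On (S.chart i) θ.f (Real.pi / 2))
    (hb : ∀ x : Sph (d + 1), θ.f (S.bd x) = Real.arctan (inner ℝ a (x : E (d + 1)))) :
    C ≤ grVol θ.f S := by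
  rw [← vol_grFill θ S h1]
  have hcs : CompactSpace (Gr θ) := by
    constructor
    have h2 : (univ : Set (Gr θ)) = mk θ '' univ := by
      rw [image_univ]
      symm
      rw [range_eq_univ]
      exact fun z => mk_surj θ z
    rw [h2]
    exact isCompact_univ.image (continuous_mk θ)
  refine hC (Gr θ) (reFill a (grFill θ S h1)) (nonShort_tilt a θ S h1 hS hb) ?_
  rcases hT with hT | hR
  · exact Or.inl (triang_reFill a _ (triang_gr θ S h1 hT))
  · refine Or.inr (noRet_reFill a _ ?_)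
    rintro ⟨r, hr, hrb⟩
    exact hR ⟨fun q => r (mk θ q), hr.comp (continuous_mk θ), fun x => hrb x⟩

end Pool.Agent.H37.CG
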